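import Mathlib

/-!
# The number of representations by binary quadratic forms over a finite field
-/

set_option autoImplicit false

namespace SCT

open Finset

variable {L : Type} [Field L] [Fintype L] [DecidableEq L]


omit [Fintype L] [DecidableEq L] in
lemma ringChar_ne (h2 : (2 : L) ≠ 0) : ringChar L ≠ 2 := by
  intro h
  apply h2
  have := ringChar.Nat.cast_ringChar (R := L)
  rw [h] at this
  exact_mod_cast this

lemma eta_zero : quadraticChar L 0 = 0 := MulChar.map_zero _

/-- a square factor can be dropped -/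
lemma eta_sq {a b : L} (ha : a ≠ 0) : quadraticChar L (a ^ 2 * b) = quadraticChar L b := by
  rw [map_mul, quadraticChar_sq_one' ha, one_mul]

/-- the number of square roots -/
lemma sum_sq (h2 : (2 : L) ≠ 0) (k : L) :
    (∑ y : L, if y ^ 2 = k then (1 : ℤ) else 0) = 1 + quadraticChar L k := by
  have h := quadraticChar_card_sqrts (ringChar_ne h2) k
  rw [Finset.sum_boole, add_comm, ← h]
  congr 1
  refine congrArg Finset.card ?_
  ext y
  simp

/-- sums over square roots of functions of the square -/
lemma sum_fiber (h2 : (2 : L) ≠ 0) (g : L → ℤ) :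
    (∑ y : L, g (y ^ 2)) = ∑ t : L, (1 + quadraticChar L t) * g t := by
  have h : ∀ y : L, g (y ^ 2) = ∑ t : L, (if y ^ 2 = t then (1 : ℤ) else 0) * g t := by
    intro y
    rw [Finset.sum_eq_single (y ^ 2)]
    · simp
    · intro t _ ht
      rw [if_neg (Ne.symm ht), zero_mul]
    · intro h
      exact absurd (Finset.mem_univ _) h
  simp_rw [h]
  rw [Finset.sum_comm]
  refine Finset.sum_congr rfl fun t _ => ?_
  rw [← Finset.sum_mul, sum_sq h2]

lemma sum_eta (h2 : (2 : L) ≠ 0) : (∑ t : L, quadraticChar L t) = 0 := quadraticChar_sum_zero (ringChar_ne h2)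

omit [DecidableEq L] in
/-- linear change of variables -/
lemma sum_lin {a : L} (ha : a ≠ 0) (b : L) (g : L → ℤ) : (∑ t : L, g (a * t + b)) = ∑ t : L, g t := by
  refine Fintype.sum_bijective (fun t : L => a * t + b) ?_ _ _ fun t => rfl
  refine ⟨fun s t h => ?_, fun t => ⟨(t - b) / a, ?_⟩⟩
  · have h' : a * s = a * t := add_right_cancel h
    exact mul_left_cancel₀ ha h'
  · show a * ((t - b) / a) + b = t
    rw [mul_div_cancel₀ _ ha, sub_add_cancel]

/-- `∑ η (k + D b²)` -/
lemma sum_quad (h2 : (2 : L) ≠ 0) {k D : L} (hD : D ≠ 0) :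
    (∑ b : L, quadraticChar L (k + D * b ^ 2)) = (if k = 0 then (Fintype.card L : ℤ) else 0) * quadraticChar L D - quadraticChar L D := by
  split_ifs with hk
  · subst hk
    have h : ∀ b : L, quadraticChar L (0 + D * b ^ 2) = if b = 0 then 0 else quadraticChar L D := by
      intro b
      split_ifs with hb
      · subst hb
        rw [zero_add, zero_pow two_ne_zero, mul_zero, eta_zero]
      · rw [zero_add, mul_comm, eta_sq hb]
    simp_rw [h]
    rw [Finset.sum_ite, Finset.sum_const_zero, zero_add, Finset.sum_const, nsmul_eq_mul]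
    have h' : (Finset.univ.filter fun b : L => ¬ b = 0) = Finset.univ.erase 0 := by
      ext b
      simp
    rw [h', Finset.card_erase_of_mem (Finset.mem_univ _), Finset.card_univ]
    have : 1 ≤ Fintype.card L := Fintype.card_pos
    push_cast [Nat.cast_sub this]
    ring
  · rw [sum_fiber h2 (fun t => quadraticChar L (k + D * t))]
    simp_rw [add_mul, one_mul]
    rw [Finset.sum_add_distrib]
    have e1 : (∑ t : L, quadraticChar L (k + D * t)) = 0 := by
      simp_rw [add_comm k]
      rw [sum_lin hD k (fun t => quadraticChar L t), sum_eta h2]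
    have e2 : (∑ t : L, quadraticChar L t * quadraticChar L (k + D * t)) = - quadraticChar L D := by
      have h : ∀ t : L, quadraticChar L t * quadraticChar L (k + D * t) = (fun s : L => quadraticChar L (D + k * s) - (if s = 0 then quadraticChar L D else 0)) t⁻¹ := by
        intro t
        show _ = quadraticChar L (D + k * t⁻¹) - (if t⁻¹ = 0 then quadraticChar L D else 0)
        by_cases ht : t = 0
        · subst ht
          rw [eta_zero, zero_mul, inv_zero, if_pos rfl, mul_zero, add_zero, sub_self]
        · rw [if_neg (inv_ne_zero ht), sub_zero, ← eta_sq ht (b := D + k * t⁻¹), ← map_mul]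
          congr 1
          field_simp
          ring
      simp_rw [h]
      have hb := Fintype.sum_bijective (fun t : L => t⁻¹) (inv_involutive.bijective)
        (fun t => (fun s : L => quadraticChar L (D + k * s) - (if s = 0 then quadraticChar L D else 0)) t⁻¹)
        (fun s : L => quadraticChar L (D + k * s) - (if s = 0 then quadraticChar L D else 0)) (fun t => rfl)
      rw [hb, Finset.sum_sub_distrib]
      simp_rw [add_comm D]
      rw [sum_lin hk D (fun t => quadraticChar L t), sum_eta h2, Finset.sum_ite_eq' Finset.univ (0 : L)]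
      simp
    rw [e1, e2]
    ring

/-- the number of solutions of `A a² + B b² + C a b = m` -/
def nn (A B C m : L) : ℤ :=
  ∑ a : L, ∑ b : L, if A * a ^ 2 + B * b ^ 2 + C * (a * b) = m then (1 : ℤ) else 0

lemma nn_comm (A B C m : L) : nn A B C m = nn B A C m := by
  unfold nn
  rw [Finset.sum_comm]
  refine Finset.sum_congr rfl fun b _ => Finset.sum_congr rfl fun a _ => ?_
  rw [add_comm (A * a ^ 2), mul_comm a b]

lemma nn_of_left (h2 : (2 : L) ≠ 0) {A : L} (hA : A ≠ 0) (B C m : L) :
    nn A B C m = (Fintype.card L : ℤ) - quadraticChar L (C ^ 2 - 4 * (A * B)) + (if m = 0 then (Fintype.card L : ℤ) else 0) * quadraticChar L (C ^ 2 - 4 * (A * B))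
      + (if C ^ 2 - 4 * (A * B) = 0 then (Fintype.card L : ℤ) else 0) * quadraticChar L (A * m) := by
  have h4 : (4 : L) ≠ 0 := by
    have : (4 : L) = 2 * 2 := by norm_num
    rw [this]
    exact mul_ne_zero h2 h2
  have h1 : nn A B C m = ∑ b : L, (1 + quadraticChar L (4 * A * m + (C ^ 2 - 4 * (A * B)) * b ^ 2)) := by
    unfold nn
    rw [Finset.sum_comm]
    refine Finset.sum_congr rfl fun b _ => ?_
    rw [← sum_sq h2, ← sum_lin (mul_ne_zero h2 hA) (C * b)
      (fun y => if y ^ 2 = 4 * A * m + (C ^ 2 - 4 * (A * B)) * b ^ 2 then (1 : ℤ) else 0)]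
    refine Finset.sum_congr rfl fun a _ => ?_
    refine if_congr ?_ rfl rfl
    constructor
    · intro h
      rw [← h]
      ring
    · intro h
      have : 4 * A * (A * a ^ 2 + B * b ^ 2 + C * (a * b)) = 4 * A * m := by
        linear_combination h
      exact mul_left_cancel₀ (mul_ne_zero h4 hA) this
  have h4m : quadraticChar L (4 * A * m) = quadraticChar L (A * m) := by
    have : 4 * A * m = 2 ^ 2 * (A * m) := by ring
    rw [this, eta_sq h2]
  rw [h1, Finset.sum_add_distrib, Finset.sum_const, Finset.card_univ, nsmul_eq_mul, mul_one]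
  by_cases hD : C ^ 2 - 4 * (A * B) = 0
  · rw [if_pos hD, hD, eta_zero, mul_zero, add_zero, sub_zero]
    congr 1
    simp_rw [zero_mul, add_zero]
    rw [Finset.sum_const, Finset.card_univ, nsmul_eq_mul, h4m]
  · rw [if_neg hD, sum_quad h2 hD, zero_mul, add_zero]
    have : (4 * A * m = 0) ↔ m = 0 := by
      constructor
      · intro h
        rcases mul_eq_zero.mp h with h | h
        · exact absurd h (mul_ne_zero h4 hA)
        · exact h
      · rintro rfl
        rw [mul_zero]
    rw [if_congr this rfl rfl]
    ring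

lemma nn_of_right (h2 : (2 : L) ≠ 0) {B : L} (hB : B ≠ 0) (A C m : L) :
    nn A B C m = (Fintype.card L : ℤ) - quadraticChar L (C ^ 2 - 4 * (A * B)) + (if m = 0 then (Fintype.card L : ℤ) else 0) * quadraticChar L (C ^ 2 - 4 * (A * B))
      + (if C ^ 2 - 4 * (A * B) = 0 then (Fintype.card L : ℤ) else 0) * quadraticChar L (B * m) := by
  rw [nn_comm, nn_of_left h2 hB, mul_comm B A]

/-- hyperbolic planes -/
lemma nn_of_mid {C : L} (hC : C ≠ 0) (m : L) :
    nn 0 0 C m = (Fintype.card L : ℤ) - 1 + (if m = 0 then (Fintype.card L : ℤ) else 0) := by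
  unfold nn
  have h : ∀ a : L, (∑ b : L, if 0 * a ^ 2 + 0 * b ^ 2 + C * (a * b) = m then (1 : ℤ) else 0) =
      1 + (if a = 0 then (if m = 0 then (Fintype.card L : ℤ) else 0) - 1 else 0) := by
    intro a
    by_cases ha : a = 0
    · subst ha
      rw [if_pos rfl]
      have : ∀ b : L, (if 0 * (0 : L) ^ 2 + 0 * b ^ 2 + C * (0 * b) = m then (1 : ℤ) else 0) =
          if m = 0 then 1 else 0 := by
        intro b
        refine if_congr ?_ rfl rfl
        rw [zero_mul, zero_mul, zero_mul, mul_zero, add_zero, add_zero]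
        exact eq_comm
      simp_rw [this]
      rw [Finset.sum_const, Finset.card_univ, nsmul_eq_mul]
      split_ifs <;> ring
    · rw [if_neg ha, add_zero, Finset.sum_eq_single (m / (C * a))]
      · rw [if_pos]
        rw [zero_mul, zero_mul, zero_add, zero_add, ← mul_assoc, mul_div_cancel₀ _ (mul_ne_zero hC ha)]
      · intro b _ hb
        rw [if_neg]
        rw [zero_mul, zero_mul, zero_add, zero_add, ← mul_assoc]
        intro h
        apply hb
        rw [← h, mul_div_cancel_left₀ _ (mul_ne_zero hC ha)]
      · intro h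
        exact absurd (Finset.mem_univ _) h
  simp_rw [h]
  rw [Finset.sum_add_distrib, Finset.sum_const, Finset.card_univ, nsmul_eq_mul, mul_one,
    Finset.sum_ite_eq' Finset.univ (0 : L), if_pos (Finset.mem_univ _)]
  ring

lemma nn_zero : nn (0 : L) 0 0 0 = (Fintype.card L : ℤ) ^ 2 := by
  unfold nn
  have : ∀ a b : L, (if 0 * a ^ 2 + 0 * b ^ 2 + 0 * (a * b) = 0 then (1 : ℤ) else 0) = 1 := by
    intro a b
    rw [if_pos]
    ring
  simp_rw [this]
  rw [Finset.sum_const, Finset.sum_const, Finset.card_univ, nsmul_eq_mul, nsmul_eq_mul]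
  ring

end SCT
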