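import Mathlib
import Pool.Agent.Hhelper85.Weil3

/-!
# The degree of a rational function
-/

set_option autoImplicit false

namespace SCT

open Polynomial Pool.Agent.Hhelper85

variable {F : Type*} [Field F]

/-- the degree of a rational function -/
noncomputable def nu (x : RF F) : ℤ :=
  (IsLocalization.algEquiv (nonZeroDivisors F[X]) (RF F) (RatFunc F) x).intDegree

theorem nu_alg (p : F[X]) : nu (algebraMap F[X] (RF F) p) = p.natDegree := by
  rw [nu, ← RatFunc.intDegree_polynomial, AlgEquiv.commutes]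

theorem nu_mul {x y : RF F} (hx : x ≠ 0) (hy : y ≠ 0) : nu (x * y) = nu x + nu y := by
  rw [nu, map_mul, RatFunc.intDegree_mul]
  · rfl
  · exact (_root_.map_ne_zero _).2 hx
  · exact (_root_.map_ne_zero _).2 hy

theorem nu_add_le {x y : RF F} (hy : y ≠ 0) (hxy : x + y ≠ 0) : nu (x + y) ≤ max (nu x) (nu y) := by
  rw [nu, map_add]
  apply RatFunc.intDegree_add_le
  · exact (_root_.map_ne_zero _).2 hy
  · rw [← map_add]; exact (_root_.map_ne_zero _).2 hxy

/-- degree at most `n` -/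
def DL (x : RF F) (n : ℤ) : Prop := x = 0 ∨ nu x ≤ n

/-- degree exactly `n` -/
def DE (x : RF F) (n : ℤ) : Prop := x ≠ 0 ∧ nu x = n

theorem DE.ne {x : RF F} {n : ℤ} (h : DE x n) : x ≠ 0 := h.1

theorem DE.le {x : RF F} {n m : ℤ} (h : DE x n) (hnm : n ≤ m) : DL x m := Or.inr (h.2.trans_le hnm)

theorem DL.mono {x : RF F} {n m : ℤ} (h : DL x n) (hnm : n ≤ m) : DL x m := by
  rcases h with h | h
  · exact Or.inl h
  · exact Or.inr (h.trans hnm)

theorem DL.not {x : RF F} {n m : ℤ} (h : DL x n) (h' : DE x m) : m ≤ n := by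
  rcases h with h | h
  · exact absurd h h'.1
  · rw [← h'.2]; exact h

theorem DE.unique {x : RF F} {n m : ℤ} (h : DE x n) (h' : DE x m) : n = m := h.2.symm.trans h'.2

theorem exists_DE {x : RF F} (hx : x ≠ 0) : ∃ n, DE x n := ⟨_, hx, rfl⟩

theorem DE.mul {x y : RF F} {n m : ℤ} (h : DE x n) (h' : DE y m) : DE (x * y) (n + m) :=
  ⟨mul_ne_zero h.1 h'.1, by rw [nu_mul h.1 h'.1, h.2, h'.2]⟩

theorem DL.mul {x y : RF F} {n m : ℤ} (h : DL x n) (h' : DL y m) : DL (x * y) (n + m) := by
  by_cases hx : x = 0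
  · exact Or.inl (by rw [hx, zero_mul])
  by_cases hy : y = 0
  · exact Or.inl (by rw [hy, mul_zero])
  right
  rw [nu_mul hx hy]
  exact add_le_add (h.resolve_left hx) (h'.resolve_left hy)

theorem DL.add {x y : RF F} {n : ℤ} (h : DL x n) (h' : DL y n) : DL (x + y) n := by
  by_cases hy : y = 0
  · rw [hy, add_zero]; exact h
  by_cases hxy : x + y = 0
  · exact Or.inl hxy
  by_cases hx : x = 0
  · rw [hx, zero_add]; exact h'
  right
  exact (nu_add_le hy hxy).trans (max_le (h.resolve_left hx) (h'.resolve_left hy))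

theorem nu_neg (x : RF F) : nu (-x) = nu x := by
  rw [nu, map_neg, RatFunc.intDegree_neg]
  rfl

theorem DL.neg {x : RF F} {n : ℤ} (h : DL x n) : DL (-x) n := by
  rcases h with h | h
  · exact Or.inl (by rw [h, neg_zero])
  · exact Or.inr (by rw [nu_neg]; exact h)

theorem DE.neg {x : RF F} {n : ℤ} (h : DE x n) : DE (-x) n :=
  ⟨neg_ne_zero.2 h.1, by rw [nu_neg]; exact h.2⟩

theorem DL.sub {x y : RF F} {n : ℤ} (h : DL x n) (h' : DL y n) : DL (x - y) n := by
  rw [sub_eq_add_neg]; exact h.add h'.neg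

theorem DE.add_lt {x y : RF F} {n m : ℤ} (h : DE x n) (h' : DL y m) (hm : m < n) : DE (x + y) n := by
  have h0 : x + y ≠ 0 := by
    intro h0
    have h1 : x = -y := eq_neg_of_add_eq_zero_left h0
    rw [h1] at h
    have := h'.neg.not h
    omega
  refine ⟨h0, le_antisymm ?_ ?_⟩
  · exact ((h.le le_rfl).add (h'.mono hm.le)).resolve_left h0
  · by_contra hlt
    push Not at hlt
    have h1 : DL (x + y) (n - 1) := Or.inr (by omega)
    have h2 : DL (x + y - y) (n - 1) := h1.sub (h'.mono (by omega))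
    rw [add_sub_cancel_right] at h2
    have := h2.not h
    omega

theorem DE.sub_lt {x y : RF F} {n m : ℤ} (h : DE x n) (h' : DL y m) (hm : m < n) : DE (x - y) n := by
  rw [sub_eq_add_neg]; exact h.add_lt h'.neg hm

theorem DL_cst (a : F) : DL (cst (RF F) a) 0 := by
  by_cases h : cst (RF F) a = 0
  · exact Or.inl h
  · right
    rw [cst, nu_alg, natDegree_C]
    simp

theorem DE_cst {a : F} (ha : a ≠ 0) : DE (cst (RF F) a) 0 := by
  refine ⟨?_, ?_⟩
  · rw [cst, Ne, IsFractionRing.to_map_eq_zero_iff, C_eq_zero]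
    exact ha
  · rw [cst, nu_alg, natDegree_C]
    simp

theorem DE_one : DE (1 : RF F) 0 := by
  have := DE_cst (F := F) one_ne_zero
  rwa [cst, C_1, map_one] at this

theorem DE.inv {x : RF F} {n : ℤ} (h : DE x n) : DE x⁻¹ (-n) := by
  obtain ⟨m, hm⟩ := exists_DE (inv_ne_zero h.1)
  have h1 := h.mul hm
  rw [mul_inv_cancel₀ h.1] at h1
  have := h1.unique DE_one
  rwa [show m = -n by omega] at hm

theorem DE.div {x y : RF F} {n m : ℤ} (h : DE x n) (h' : DE y m) : DE (x / y) (n - m) := by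
  rw [div_eq_mul_inv, sub_eq_add_neg]
  exact h.mul h'.inv

theorem DE.pow {x : RF F} {n : ℤ} (h : DE x n) (k : ℕ) : DE (x ^ k) (k * n) := by
  induction k with
  | zero => simpa using DE_one
  | succ k ih =>
    rw [pow_succ]
    have := ih.mul h
    rwa [show (k : ℤ) * n + n = ((k + 1 : ℕ) : ℤ) * n by push_cast; ring] at this

theorem DE_alg {p : F[X]} (hp : p ≠ 0) : DE (algebraMap F[X] (RF F) p) p.natDegree :=
  ⟨by rw [Ne, IsFractionRing.to_map_eq_zero_iff]; exact hp, nu_alg p⟩

theorem DE_X : DE (algebraMap F[X] (RF F) X) 1 := by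
  have := DE_alg (F := F) (p := X) X_ne_zero
  rwa [natDegree_X] at this

/-! ### Substitution -/

theorem DE_eval {ξ : RF F} {v : ℤ} (h : DE ξ v) (hv : 1 ≤ v) (p : F[X]) (hp : p ≠ 0) :
    DE (eval₂ ((algebraMap F[X] (RF F)).comp C) ξ p) (p.natDegree * v) := by
  rw [eval₂_eq_sum_range, Finset.sum_range_succ, add_comm]
  have h1 : DE ((algebraMap F[X] (RF F)).comp C (p.coeff p.natDegree) * ξ ^ p.natDegree)
      (p.natDegree * v) := by
    have := (DE_cst (a := p.coeff p.natDegree) (by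
      rw [coeff_natDegree, Ne, leadingCoeff_eq_zero]; exact hp)).mul (h.pow p.natDegree)
    rwa [zero_add] at this
  refine h1.add_lt (m := p.natDegree * v - 1) ?_ (by omega)
  have : ∀ s : Finset ℕ, (∀ i ∈ s, i < p.natDegree) →
      DL (∑ i ∈ s, (algebraMap F[X] (RF F)).comp C (p.coeff i) * ξ ^ i) (p.natDegree * v - 1) := by
    intro s
    induction s using Finset.induction_on with
    | empty => intro _; exact Or.inl (by simp)
    | insert i s hi ih =>
      intro hs
      rw [Finset.sum_insert hi]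
      apply DL.add
      · have hlt := hs i (Finset.mem_insert_self i s)
        refine ((DL_cst (p.coeff i)).mul ((h.pow i).le le_rfl)).mono ?_
        have : ((i : ℤ) + 1) * v ≤ p.natDegree * v := by
          apply mul_le_mul_of_nonneg_right _ (by omega)
          exact_mod_cast hlt
        nlinarith
      · exact ih fun j hj => hs j (Finset.mem_insert_of_mem hj)
  exact this _ fun i hi => Finset.mem_range.1 hi

/-- substitution `t ↦ ξ` -/
noncomputable def sb {ξ : RF F} {v : ℤ} (h : DE ξ v) (hv : 1 ≤ v) : RF F →+* RF F :=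
  IsFractionRing.lift (A := F[X]) (K := RF F)
    (g := eval₂RingHom ((algebraMap F[X] (RF F)).comp C) ξ)
    (by
      rw [injective_iff_map_eq_zero]
      intro p hp
      by_contra h0
      exact (DE_eval h hv p h0).1 hp)

theorem sb_alg {ξ : RF F} {v : ℤ} (h : DE ξ v) (hv : 1 ≤ v) (p : F[X]) :
    sb h hv (algebraMap F[X] (RF F) p) = eval₂ ((algebraMap F[X] (RF F)).comp C) ξ p := by
  rw [sb, IsFractionRing.lift_algebraMap]
  rfl

theorem sb_cst {ξ : RF F} {v : ℤ} (h : DE ξ v) (hv : 1 ≤ v) (a : F) :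
    sb h hv (cst (RF F) a) = cst (RF F) a := by
  rw [cst, sb_alg, eval₂_C]
  rfl

theorem sb_X {ξ : RF F} {v : ℤ} (h : DE ξ v) (hv : 1 ≤ v) :
    sb h hv (algebraMap F[X] (RF F) X) = ξ := by
  rw [sb_alg, eval₂_X]

theorem DE_sb {ξ : RF F} {v : ℤ} (h : DE ξ v) (hv : 1 ≤ v) {x : RF F} {n : ℤ} (hx : DE x n) :
    DE (sb h hv x) (n * v) := by
  obtain ⟨p, q, hq, rfl⟩ := IsFractionRing.div_surjective (A := F[X]) x
  have hq0 : q ≠ 0 := nonZeroDivisors.ne_zero hq
  have hp0 : p ≠ 0 := by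
    rintro rfl
    exact hx.1 (by rw [map_zero, zero_div])
  have h1 := (DE_alg hp0).div (DE_alg hq0)
  have h2 := h1.unique hx
  rw [map_div₀, sb_alg, sb_alg, ← h2]
  have h3 := (DE_eval h hv p hp0).div (DE_eval h hv q hq0)
  rwa [← sub_mul] at h3

end SCT
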