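import Mathlib
import Pool.Agent.SCT.Nu

/-!
# The order at infinity of the points
-/

set_option autoImplicit false
set_option linter.unusedSectionVars false

namespace SCT

open Polynomial Pool.Agent.Hhelper85 WeierstrassCurve WeierstrassCurve.Affine

variable {F : Type*} [Field F] {a b c : F} {D : RF F}

/-- `x(P)/D` has degree `n` -/
def VP (P : (Tw (RF F) a b c D).Point) (n : ℤ) : Prop :=
  ∃ x y h, P = Point.some x y h ∧ DE (x / D) n

theorem VP.unique {P : (Tw (RF F) a b c D).Point} {n m : ℤ} (h : VP P n) (h' : VP P m) : n = m := by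
  obtain ⟨x, y, hh, rfl, h1⟩ := h
  obtain ⟨x', y', hh', e, h2⟩ := h'
  rw [Point.some.injEq] at e
  rw [← e.1] at h2
  exact h1.unique h2

theorem VP.ne_zero {P : (Tw (RF F) a b c D).Point} {n : ℤ} (h : VP P n) : P ≠ 0 := by
  obtain ⟨x, y, hh, rfl, h1⟩ := h
  exact Point.some_ne_zero hh

theorem VP.neg {P : (Tw (RF F) a b c D).Point} {n : ℤ} (h : VP P n) : VP (-P) n := by
  obtain ⟨x, y, hh, rfl, h1⟩ := h
  exact ⟨x, _, _, rfl, h1⟩

theorem VP.le_deg (hD : D ≠ 0) {P : (Tw (RF F) a b c D).Point} {n : ℤ} (h : VP P n) :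
    n ≤ deg P := by
  obtain ⟨x, y, hh, rfl, h1⟩ := h
  obtain ⟨v, k, hk, hv, hs, hm⟩ := hasHt_deg hD (Point.some x y hh)
  rw [uv_some] at hv
  have e0 : x = k * algebraMap F[X] (RF F) (v 0) := hv 0
  have e1 : D = k * algebraMap F[X] (RF F) (v 1) := hv 1
  have n1 : v 1 ≠ 0 := by
    intro h0
    rw [h0, map_zero, mul_zero] at e1
    exact hD e1
  have n0 : v 0 ≠ 0 := by
    intro h0
    rw [h0, map_zero, mul_zero] at e0
    exact h1.1 (by rw [e0, zero_div])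
  have h2 : DE (x / D) ((v 0).natDegree - (v 1).natDegree) := by
    rw [e0, e1, mul_div_mul_left _ _ hk]
    exact (DE_alg n0).div (DE_alg n1)
  rw [h1.unique h2, ← hm]
  have := le_md v 0
  omega

theorem deA0 {ξ₁ ξ₂ : RF F} {v w : ℤ} (h₁ : DE ξ₁ v) (h₂ : DE ξ₂ w) (hv : 1 ≤ v) (hw : 1 ≤ w) :
    DE ((ξ₁ * ξ₂) ^ 2 - (2 * cst (RF F) b * (ξ₁ * ξ₂) + 4 * cst (RF F) c * (ξ₁ + ξ₂)
      + (4 * cst (RF F) a * cst (RF F) c - cst (RF F) b ^ 2))) (2 * (v + w)) := by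
  have hc : ∀ y : F, ∀ m : ℤ, 0 ≤ m → DL (cst (RF F) y) m := fun y m hm => (DL_cst y).mono hm
  have e2 : (2 : RF F) = cst (RF F) (2 : F) := (map_ofNat ((algebraMap F[X] (RF F)).comp C) 2).symm
  have e4 : (4 : RF F) = cst (RF F) (4 : F) := (map_ofNat ((algebraMap F[X] (RF F)).comp C) 4).symm
  have hadd : DL (ξ₁ + ξ₂) (v + w) := (h₁.le (by omega)).add (h₂.le (by omega))
  have h12 := h₁.mul h₂
  have hsq : DE ((ξ₁ * ξ₂) ^ 2) (2 * (v + w)) := by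
    have := h12.pow 2
    exact_mod_cast this
  refine hsq.sub_lt (m := v + w) ?_ (by omega)
  have c0 : ∀ x : RF F, DL x 0 → DL x (v + w) := fun x hx => hx.mono (by omega)
  have z : ∀ x y : RF F, DL x 0 → DL y 0 → DL (x * y) 0 := fun x y hx hy => by
    simpa using hx.mul hy
  have y2 : DL (2 : RF F) 0 := by rw [e2]; exact DL_cst 2
  have y4 : DL (4 : RF F) 0 := by rw [e4]; exact DL_cst 4
  refine DL.add (DL.add ?_ ?_) ?_
  · simpa using (z _ _ y2 (DL_cst b)).mul (h12.le le_rfl)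
  · simpa using (z _ _ y4 (DL_cst c)).mul hadd
  · refine c0 _ (DL.sub (z _ _ (z _ _ y4 (DL_cst a)) (DL_cst c)) ?_)
    rw [sq]
    exact z _ _ (DL_cst b) (DL_cst b)

theorem dlA1 {ξ₁ ξ₂ : RF F} {v w : ℤ} (h₁ : DE ξ₁ v) (h₂ : DE ξ₂ w) (hv : 1 ≤ v) (hw : 1 ≤ w) :
    DL (2 * (ξ₁ + ξ₂) * (ξ₁ * ξ₂) + 4 * cst (RF F) a * (ξ₁ * ξ₂) + 2 * cst (RF F) b * (ξ₁ + ξ₂)
      + 4 * cst (RF F) c) (v + w + max v w) := by
  have e2 : (2 : RF F) = cst (RF F) (2 : F) := (map_ofNat ((algebraMap F[X] (RF F)).comp C) 2).symm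
  have e4 : (4 : RF F) = cst (RF F) (4 : F) := (map_ofNat ((algebraMap F[X] (RF F)).comp C) 4).symm
  have hadd : DL (ξ₁ + ξ₂) (max v w) := (h₁.le (le_max_left _ _)).add (h₂.le (le_max_right _ _))
  have h12 := (h₁.mul h₂).le le_rfl
  have z : ∀ x y : RF F, DL x 0 → DL y 0 → DL (x * y) 0 := fun x y hx hy => by
    simpa using hx.mul hy
  have y2 : DL (2 : RF F) 0 := by rw [e2]; exact DL_cst 2
  have y4 : DL (4 : RF F) 0 := by rw [e4]; exact DL_cst 4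
  have hm : 1 ≤ max v w := le_max_of_le_left hv
  refine DL.add (DL.add (DL.add ?_ ?_) ?_) ?_
  · refine ((y2.mul hadd).mul h12).mono (by omega)
  · exact ((z _ _ y4 (DL_cst a)).mul h12).mono (by omega)
  · exact ((z _ _ y2 (DL_cst b)).mul hadd).mono (by omega)
  · exact (z _ _ y4 (DL_cst c)).mono (by omega)

section DecEq

variable [DecidableEq (RF F)]

/-- the ultrametric inequality at infinity -/
theorem ultra (hD : D ≠ 0) {P Q : (Tw (RF F) a b c D).Point} {v w : ℤ} (hP : VP P v) (hQ : VP Q w)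
    (hv : 1 ≤ v) (hw : 1 ≤ w) :
    (P + Q = 0 ∨ ∃ n, min v w ≤ n ∧ VP (P + Q) n) ∧ (v ≠ w → VP (P + Q) (min v w)) := by
  obtain ⟨x₁, y₁, h₁, rfl, hx₁⟩ := hP
  obtain ⟨x₂, y₂, h₂, rfl, hx₂⟩ := hQ
  obtain ⟨k, hk, k0, k1, k2⟩ := addSub_formula (Point.some x₁ y₁ h₁) (Point.some x₂ y₂ h₂)
  obtain ⟨ξ₁, e₁⟩ : ∃ ξ, ξ = x₁ / D := ⟨_, rfl⟩
  obtain ⟨ξ₂, e₂⟩ : ∃ ξ, ξ = x₂ / D := ⟨_, rfl⟩
  rw [← e₁] at hx₁
  rw [← e₂] at hx₂
  have f₁ : x₁ = ξ₁ * D := by rw [e₁, div_mul_cancel₀ _ hD]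
  have f₂ : x₂ = ξ₂ * D := by rw [e₂, div_mul_cancel₀ _ hD]
  have hS : ∀ P Q : (Tw (RF F) a b c D).Point, P.sym2x Q =
      ![P.xRep 0 * Q.xRep 0, P.xRep 0 * Q.xRep 1 + P.xRep 1 * Q.xRep 0,
        P.xRep 1 * Q.xRep 1] := fun P Q => rfl
  rw [hS, hS] at k0 k1 k2
  simp only [Point.xRep_some, Matrix.cons_val_zero, Matrix.cons_val_one, Matrix.cons_val] at k0 k1 k2
  simp only [A0, A1, A2] at k0 k1 k2
  have hA0 := deA0 (a := a) (b := b) (c := c) hx₁ hx₂ hv hw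
  have hA1 := dlA1 (a := a) (b := b) (c := c) hx₁ hx₂ hv hw
  set G0 := (ξ₁ * ξ₂) ^ 2 - (2 * cst (RF F) b * (ξ₁ * ξ₂) + 4 * cst (RF F) c * (ξ₁ + ξ₂)
      + (4 * cst (RF F) a * cst (RF F) c - cst (RF F) b ^ 2)) with hG0
  set G1 := 2 * (ξ₁ + ξ₂) * (ξ₁ * ξ₂) + 4 * cst (RF F) a * (ξ₁ * ξ₂) + 2 * cst (RF F) b * (ξ₁ + ξ₂)
      + 4 * cst (RF F) c with hG1
  set R3 := Point.some x₁ y₁ h₁ + Point.some x₂ y₂ h₂ with hR3
  set R4 := Point.some x₁ y₁ h₁ - Point.some x₂ y₂ h₂ with hR4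
  have m0 : D ^ 4 * G0 = k * (R3.xRep 0 * R4.xRep 0) := by
    rw [← k0, f₁, f₂, hG0]
    ring
  have m1 : D ^ 3 * G1 = k * (R3.xRep 0 * R4.xRep 1 + R3.xRep 1 * R4.xRep 0) := by
    rw [← k1, f₁, f₂, hG1]
    ring
  have m2 : D ^ 2 * (ξ₁ - ξ₂) ^ 2 = k * (R3.xRep 1 * R4.xRep 1) := by
    rw [← k2, f₁, f₂]
    ring
  have hvw : (R3.xRep 1 * R4.xRep 1 = 0) → v = w := by
    intro h0
    rw [h0, mul_zero] at m2
    have h3 : ξ₁ - ξ₂ = 0 := by
      have := (mul_eq_zero.1 m2).resolve_left (pow_ne_zero _ hD)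
      exact pow_eq_zero_iff (two_ne_zero) |>.1 this
    have h4 : ξ₁ = ξ₂ := sub_eq_zero.1 h3
    rw [h4] at hx₁
    exact hx₁.unique hx₂
  clear_value R3 R4 G0 G1
  match R3, R4 with
  | 0, R4 =>
    refine ⟨Or.inl rfl, fun hne => absurd (hvw ?_) hne⟩
    simp
  | .some x₃ y₃ h₃, 0 =>
    have h5 := hvw (by simp)
    refine ⟨Or.inr ?_, fun hne => absurd h5 hne⟩
    subst h5
    simp only [Point.xRep_some, Point.xRep_zero, Matrix.cons_val_zero, Matrix.cons_val_one,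
      mul_one, mul_zero, zero_add] at m0 m1
    have hG1ne : G1 ≠ 0 := by
      intro h0
      rw [h0, mul_zero] at m1
      exact hk m1.symm
    obtain ⟨α, hα⟩ := exists_DE hG1ne
    have h6 : x₃ / D = G0 / G1 := by
      rw [div_eq_div_iff hD hG1ne]
      have : D ^ 3 * (x₃ * G1) = D ^ 3 * (G0 * D) := by
        linear_combination x₃ * m1 - m0
      exact mul_left_cancel₀ (pow_ne_zero _ hD) this
    refine ⟨2 * (v + v) - α, ?_, x₃, y₃, h₃, rfl, ?_⟩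
    · have := hA1.not hα
      rw [max_self] at this
      rw [min_self]
      omega
    · rw [h6]
      exact hA0.div hα
  | .some x₃ y₃ h₃, .some x₄ y₄ h₄ =>
    simp only [Point.xRep_some, Matrix.cons_val_zero, Matrix.cons_val_one, mul_one, one_mul]
      at m0 m1 m2
    obtain ⟨ξ₃, e₃⟩ : ∃ ξ, ξ = x₃ / D := ⟨_, rfl⟩
    obtain ⟨ξ₄, e₄⟩ : ∃ ξ, ξ = x₄ / D := ⟨_, rfl⟩
    have f₃ : x₃ = ξ₃ * D := by rw [e₃, div_mul_cancel₀ _ hD]
    have f₄ : x₄ = ξ₄ * D := by rw [e₄, div_mul_cancel₀ _ hD]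
    obtain ⟨B, hB⟩ : ∃ B, B = (ξ₁ - ξ₂) ^ 2 := ⟨_, rfl⟩
    have n0 : G0 = B * (ξ₃ * ξ₄) := by
      have : D ^ 4 * G0 = D ^ 4 * (B * (ξ₃ * ξ₄)) := by
        rw [m0, ← m2, hB, f₃, f₄]; ring
      exact mul_left_cancel₀ (pow_ne_zero _ hD) this
    have n1 : G1 = B * (ξ₃ + ξ₄) := by
      have : D ^ 3 * G1 = D ^ 3 * (B * (ξ₃ + ξ₄)) := by
        rw [m1, ← m2, hB, f₃, f₄]; ring
      exact mul_left_cancel₀ (pow_ne_zero _ hD) this
    have hBne : B ≠ 0 := by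
      intro h0
      rw [← hB, h0, mul_zero] at m2
      exact hk m2.symm
    have h12 : ξ₁ - ξ₂ ≠ 0 := by
      intro h0
      exact hBne (by rw [hB, h0]; ring)
    obtain ⟨τ, hτ⟩ := exists_DE h12
    have hBd : DE B (2 * τ) := by
      rw [hB]
      have := hτ.pow 2
      exact_mod_cast this
    have hτle : τ ≤ max v w :=
      DL.not ((hx₁.le (le_max_left _ _)).sub (hx₂.le (le_max_right _ _))) hτ
    have hτeq : v ≠ w → τ = max v w := by
      intro hne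
      rcases lt_or_gt_of_ne hne with h | h
      · have h7 : DE (ξ₂ - ξ₁) w := hx₂.sub_lt (hx₁.le le_rfl) h
        have h8 := h7.neg
        rw [neg_sub] at h8
        rw [hτ.unique h8, max_eq_right h.le]
      · have h7 : DE (ξ₁ - ξ₂) v := hx₁.sub_lt (hx₂.le le_rfl) h
        rw [hτ.unique h7, max_eq_left h.le]
    have h3ne : ξ₃ ≠ 0 := by
      intro h0
      exact hA0.1 (by rw [n0, h0]; ring)
    have h4ne : ξ₄ ≠ 0 := by
      intro h0
      exact hA0.1 (by rw [n0, h0]; ring)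
    obtain ⟨n3, hn3⟩ := exists_DE h3ne
    obtain ⟨n4, hn4⟩ := exists_DE h4ne
    have hsum : 2 * τ + (n3 + n4) = 2 * (v + w) := by
      have := hBd.mul (hn3.mul hn4)
      rw [← n0] at this
      exact this.unique hA0
    have hmm : min v w + max v w = v + w := min_add_max v w
    have hge3 : min v w ≤ n3 := by
      by_contra hlt
      push Not at hlt
      have hlt4 : n3 < n4 := by omega
      have h9 : DE (ξ₃ + ξ₄) n4 := by
        rw [add_comm]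
        exact hn4.add_lt (hn3.le le_rfl) hlt4
      have h10 := hBd.mul h9
      rw [← n1] at h10
      have := hA1.not h10
      omega
    have hge4 : min v w ≤ n4 := by
      by_contra hlt
      push Not at hlt
      have hlt4 : n4 < n3 := by omega
      have h9 : DE (ξ₃ + ξ₄) n3 := hn3.add_lt (hn4.le le_rfl) hlt4
      have h10 := hBd.mul h9
      rw [← n1] at h10
      have := hA1.not h10
      omega
    refine ⟨Or.inr ⟨n3, hge3, x₃, y₃, h₃, rfl, by rw [← e₃]; exact hn3⟩, fun hne => ?_⟩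
    have h11 := hτeq hne
    have h12 : n3 = min v w := by omega
    rw [← h12]
    exact ⟨x₃, y₃, h₃, rfl, by rw [← e₃]; exact hn3⟩

end DecEq

end SCT
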