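import Mathlib
import Pool.Agent.SCT.Ult

/-!
# If `p` divides the trace of Frobenius, the curve is supersingular

For `P₀` the generic point, `w(n)` the order at infinity of `n P₀` is multiplicative (substitution),
ultrametric, `w(p) ≤ deg (p P₀) = p²`.  From `q P₀ = ψ (A P₀ - ψ P₀)`, with `A = p^s a'`,
`1 ≤ s < n/2`, `q = p^n`: `w(p)^n = p^n w(p)^s`, impossible.  So `q ∣ A²`.
-/

set_option autoImplicit false
set_option linter.unusedSectionVars false

namespace SCT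

open Polynomial Pool.Agent.Hhelper85 WeierstrassCurve WeierstrassCurve.Affine

variable {F : Type*} [Field F] {a b c : F} {D : RF F}

section DecEq

variable [DecidableEq (RF F)]

/-- zero, or of positive order at infinity -/
def GP (P : (Tw (RF F) a b c D).Point) : Prop := P = 0 ∨ ∃ n : ℤ, 1 ≤ n ∧ VP P n

theorem GP.neg {P : (Tw (RF F) a b c D).Point} (h : GP P) : GP (-P) := by
  rcases h with h | ⟨n, hn, h⟩
  · exact Or.inl (by rw [h, neg_zero])
  · exact Or.inr ⟨n, hn, h.neg⟩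

theorem GP.add (hD : D ≠ 0) {P Q : (Tw (RF F) a b c D).Point} (h : GP P) (h' : GP Q) :
    GP (P + Q) := by
  rcases h with h | ⟨n, hn, h⟩
  · rw [h, zero_add]; exact h'
  rcases h' with h' | ⟨m, hm, h'⟩
  · rw [h', add_zero]; exact Or.inr ⟨n, hn, h⟩
  rcases (ultra hD h h' hn hm).1 with h0 | ⟨k, hk, h0⟩
  · exact Or.inl h0
  · exact Or.inr ⟨k, (le_min hn hm).trans hk, h0⟩

theorem GP.sub (hD : D ≠ 0) {P Q : (Tw (RF F) a b c D).Point} (h : GP P) (h' : GP Q) :
    GP (P - Q) := by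
  rw [sub_eq_add_neg]; exact h.add hD h'.neg

theorem GP.zsmul (hD : D ≠ 0) {P : (Tw (RF F) a b c D).Point} (h : GP P) (n : ℤ) :
    GP (n • P) := by
  induction n using Int.induction_on with
  | zero => exact Or.inl (zero_zsmul _)
  | succ i ih => rw [add_zsmul, one_zsmul]; exact ih.add hD h
  | pred i ih => rw [sub_zsmul, one_zsmul]; exact ih.sub hD h

/-- zero, or of order at least two at infinity -/
def HP (P : (Tw (RF F) a b c D).Point) : Prop := P = 0 ∨ ∃ n : ℤ, 2 ≤ n ∧ VP P n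

theorem HP.neg {P : (Tw (RF F) a b c D).Point} (h : HP P) : HP (-P) := by
  rcases h with h | ⟨n, hn, h⟩
  · exact Or.inl (by rw [h, neg_zero])
  · exact Or.inr ⟨n, hn, h.neg⟩

theorem HP.add (hD : D ≠ 0) {P Q : (Tw (RF F) a b c D).Point} (h : HP P) (h' : HP Q) :
    HP (P + Q) := by
  rcases h with h | ⟨n, hn, h⟩
  · rw [h, zero_add]; exact h'
  rcases h' with h' | ⟨m, hm, h'⟩
  · rw [h', add_zero]; exact Or.inr ⟨n, hn, h⟩
  rcases (ultra hD h h' (by omega) (by omega)).1 with h0 | ⟨k, hk, h0⟩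
  · exact Or.inl h0
  · exact Or.inr ⟨k, (le_min hn hm).trans hk, h0⟩

theorem HP.zsmul (hD : D ≠ 0) {P : (Tw (RF F) a b c D).Point} (h : HP P) (n : ℤ) :
    HP (n • P) := by
  induction n using Int.induction_on with
  | zero => exact Or.inl (zero_zsmul _)
  | succ i ih => rw [add_zsmul, one_zsmul]; exact ih.add hD h
  | pred i ih => rw [sub_zsmul, one_zsmul]; exact ih.add hD h.neg

/-! ### Substitution of a point -/

/-- the homomorphism attached to a point of positive order -/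
theorem exists_theta (h2 : (2 : F) ≠ 0) {R : (Tw (RF F) a b c (Dgen a b c)).Point} {v : ℤ}
    (hR : VP R v) (hv : 1 ≤ v) :
    ∃ Θ : (Tw (RF F) a b c (Dgen a b c)).Point →+ (Tw (RF F) a b c (Dgen a b c)).Point,
      Θ (Pgen h2 a b c) = R ∧ ∀ S n, VP S n → VP (Θ S) (n * v) := by
  obtain ⟨x, y, h, rfl, hξ⟩ := hR
  have hD := Dgen_ne a b c
  set D := Dgen a b c with hDdef
  set σ := sb hξ hv with hσ
  have hσc : ∀ u : F, σ (cst (RF F) u) = cst (RF F) u := fun u => sb_cst hξ hv u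
  have hσX : σ (algebraMap F[X] (RF F) X) = x / D := sb_X hξ hv
  have hDX : D = (algebraMap F[X] (RF F) X) ^ 3
      + cst (RF F) a * (algebraMap F[X] (RF F) X) ^ 2 + cst (RF F) b * (algebraMap F[X] (RF F) X)
      + cst (RF F) c := by
    rw [hDdef]
    simp only [Dgen, fp, cst, map_add, map_mul, map_pow]
  have hσD : σ D = (x / D) ^ 3 + cst (RF F) a * (x / D) ^ 2 + cst (RF F) b * (x / D)
      + cst (RF F) c := by
    conv_lhs => rw [hDX]
    simp only [map_add, map_mul, map_pow, hσc, hσX]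
  have heq := (equation_iff' _ _ _ x y).1 h.1
  have hy2 : y ^ 2 = D ^ 3 * σ D := by
    rw [heq, hσD]
    field_simp
  have hσD0 : σ D ≠ 0 := (_root_.map_ne_zero σ).2 hD
  have hy0 : y ≠ 0 := by
    intro h0
    rw [h0] at hy2
    have : D ^ 3 * σ D ≠ 0 := mul_ne_zero (pow_ne_zero _ hD) hσD0
    exact this (by rw [← hy2]; ring)
  obtain ⟨l, hl⟩ : ∃ l, l = D ^ 2 / y := ⟨_, rfl⟩
  have hl0 : l ≠ 0 := by rw [hl]; exact div_ne_zero (pow_ne_zero _ hD) hy0
  have hl2 : l ^ 2 * σ D = D := by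
    have : D ^ 3 * (l ^ 2 * σ D) = D ^ 3 * D := by
      rw [hl, div_pow]
      field_simp
      rw [hy2]
    exact mul_left_cancel₀ (pow_ne_zero 3 hD) this
  refine ⟨scale σ l hl0 ?_ ?_ ?_, ?_, ?_⟩
  · rw [map_mul, hσc, ← mul_assoc, hl2]
  · rw [map_mul, map_pow, hσc, ← mul_assoc]
    congr 1
    calc D ^ 2 = (l ^ 2 * σ D) ^ 2 := by rw [hl2]
      _ = _ := by ring
  · rw [map_mul, map_pow, hσc, ← mul_assoc]
    congr 1
    calc D ^ 3 = (l ^ 2 * σ D) ^ 3 := by rw [hl2]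
      _ = _ := by ring
  · rw [Pgen]
    have e := scale_some σ l hl0 (a' := D * cst (RF F) a) (b' := D ^ 2 * cst (RF F) b)
      (c' := D ^ 3 * cst (RF F) c)
      (by rw [map_mul, hσc, ← mul_assoc, hl2])
      (by
        rw [map_mul, map_pow, hσc, ← mul_assoc]
        congr 1
        calc D ^ 2 = (l ^ 2 * σ D) ^ 2 := by rw [hl2]
          _ = _ := by ring)
      (by
        rw [map_mul, map_pow, hσc, ← mul_assoc]
        congr 1
        calc D ^ 3 = (l ^ 2 * σ D) ^ 3 := by rw [hl2]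
          _ = _ := by ring) (gen_ns h2 a b c)
    rw [e, Point.some.injEq]
    constructor
    · rw [map_mul, hσX]
      calc l ^ 2 * (x / D * σ D) = (l ^ 2 * σ D) * (x / D) := by ring
        _ = x := by rw [hl2, mul_div_cancel₀ _ hD]
    · rw [map_pow]
      have : D ^ 3 * (l ^ 3 * σ D ^ 2) = D ^ 3 * y := by
        calc D ^ 3 * (l ^ 3 * σ D ^ 2) = (l ^ 2 * σ D) * (D ^ 3 * σ D) * l := by ring
          _ = D * y ^ 2 * l := by rw [hl2, hy2]
          _ = D ^ 3 * y := by rw [hl]; field_simp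
      exact mul_left_cancel₀ (pow_ne_zero 3 hD) this
  · rintro S n ⟨x', y', h', rfl, hx'⟩
    have e := scale_some σ l hl0 (a' := D * cst (RF F) a) (b' := D ^ 2 * cst (RF F) b)
      (c' := D ^ 3 * cst (RF F) c)
      (by rw [map_mul, hσc, ← mul_assoc, hl2])
      (by
        rw [map_mul, map_pow, hσc, ← mul_assoc]
        congr 1
        calc D ^ 2 = (l ^ 2 * σ D) ^ 2 := by rw [hl2]
          _ = _ := by ring)
      (by
        rw [map_mul, map_pow, hσc, ← mul_assoc]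
        congr 1
        calc D ^ 3 = (l ^ 2 * σ D) ^ 3 := by rw [hl2]
          _ = _ := by ring) h'
    refine ⟨_, _, _, e, ?_⟩
    have h3 : l ^ 2 * σ x' / D = σ (x' / D) := by
      rw [map_div₀, div_eq_div_iff hD hσD0]
      calc l ^ 2 * σ x' * σ D = (l ^ 2 * σ D) * σ x' := by ring
        _ = _ := by rw [hl2]; ring
    rw [h3]
    exact DE_sb hξ hv hx'

/-! ### Frobenius -/

theorem VP_Psi (p n : ℕ) [Fact p.Prime] [CharP (RF F) p] (hp : p ≠ 2)
    (hfix : ∀ x : F, x ^ p ^ n = x) (hD : D ≠ 0) {P : (Tw (RF F) a b c D).Point} {v : ℤ}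
    (h : VP P v) : VP (Psi p n hp hfix hD P) ((p : ℤ) ^ n * v) := by
  obtain ⟨x, y, h, rfl, hx⟩ := h
  obtain ⟨h', e⟩ := Psi_some p n hp hfix hD h
  refine ⟨_, _, h', e, ?_⟩
  have h1 : ((D ^ ((p ^ n - 1) / 2))⁻¹) ^ 2 * x ^ p ^ n / D = (x / D) ^ p ^ n := by
    have h2 := lsq p n hp hD
    have h3 : ((D ^ ((p ^ n - 1) / 2))⁻¹) ^ 2 = D / D ^ p ^ n := by
      rw [eq_div_iff (pow_ne_zero _ hD)]; exact h2
    rw [h3, div_pow]
    field_simp
  rw [h1]
  have := hx.pow (p ^ n)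
  push_cast at this
  exact this

/-! ### The orders of the multiples of the generic point -/

section generic

variable (h2 : (2 : F) ≠ 0) (hd : dsc a b c ≠ 0)
include h2 hd

theorem VP_gen : VP (Pgen h2 a b c) 1 := by
  refine ⟨_, _, gen_ns h2 a b c, rfl, ?_⟩
  rw [mul_div_cancel_right₀ _ (Dgen_ne a b c)]
  exact DE_X

theorem gen_zsmul_ne {n : ℤ} (hn : n ≠ 0) : n • Pgen h2 a b c ≠ 0 := by
  intro h0
  have h1 := (par_deg hd (Dgen_ne a b c)).zsmul n (Pgen h2 a b c)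
  rw [h0, deg_zero (Dgen_ne a b c), deg_Pgen] at h1
  push_cast at h1
  have : n ^ 2 = 0 := by linarith
  exact hn (pow_eq_zero_iff two_ne_zero |>.1 this)

theorem exists_w {n : ℤ} (hn : n ≠ 0) : ∃ v : ℤ, 1 ≤ v ∧ VP (n • Pgen h2 a b c) v :=
  (GP.zsmul (Dgen_ne a b c) (Or.inr ⟨1, le_rfl, VP_gen h2 hd⟩) n).resolve_left
    (gen_zsmul_ne h2 hd hn)

theorem w_mul {n m : ℤ} {v w : ℤ} (hn : VP (n • Pgen h2 a b c) v) (hm : VP (m • Pgen h2 a b c) w)
    (hw : 1 ≤ w) : VP ((n * m) • Pgen h2 a b c) (v * w) := by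
  obtain ⟨Θ, hΘ, h⟩ := exists_theta h2 hm hw
  have := h _ _ hn
  rwa [map_zsmul, hΘ, ← mul_zsmul] at this

theorem w_pow {n : ℤ} {v : ℤ} (hn : VP (n • Pgen h2 a b c) v) (hv : 1 ≤ v) (k : ℕ) :
    VP ((n ^ k) • Pgen h2 a b c) (v ^ k) := by
  induction k with
  | zero => rw [pow_zero, pow_zero, one_zsmul]; exact VP_gen h2 hd
  | succ k ih =>
    rw [pow_succ, pow_succ]
    exact w_mul h2 hd ih hn hv

/-- for `a'` prime to `p`, if `w(p) ≥ 2`, then `w(a') = 1` -/
theorem w_coprime {p a' : ℤ} {v w : ℤ} (hp : VP (p • Pgen h2 a b c) v) (hv : 2 ≤ v)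
    (ha : VP (a' • Pgen h2 a b c) w) (hw : 1 ≤ w) (hco : IsCoprime p a') : w = 1 := by
  by_contra hne
  have hw2 : 2 ≤ w := by omega
  obtain ⟨u, u', hu⟩ := hco
  have h1 : HP (u • (p • Pgen h2 a b c)) := HP.zsmul (Dgen_ne a b c) (Or.inr ⟨v, hv, hp⟩) u
  have h3 : HP (u' • (a' • Pgen h2 a b c)) := HP.zsmul (Dgen_ne a b c) (Or.inr ⟨w, hw2, ha⟩) u'
  have h4 := h1.add (Dgen_ne a b c) h3
  rw [← mul_zsmul, ← mul_zsmul, ← add_zsmul, hu, one_zsmul] at h4
  rcases h4 with h4 | ⟨n, hn, h4⟩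
  · exact (VP_gen h2 hd).ne_zero h4
  · have := h4.unique (VP_gen h2 hd)
    omega

end generic

end DecEq

/-! ### Numbers -/

theorem num_aux {p w n s : ℕ} (hp : p.Prime) (hn : 1 ≤ n) (hs : 1 ≤ s) (hsn : 2 * s < n)
    (hw1 : 1 ≤ w) (hw : w ≤ p ^ 2) (h : w ^ n = p ^ n * w ^ s) : False := by
  have hw0 : w ≠ 0 := by omega
  have h1 : w ^ (n - s) = p ^ n := by
    have h3 : w ^ n = w ^ (n - s) * w ^ s := by rw [← pow_add]; congr 1; omega
    rw [h3] at h
    exact Nat.eq_of_mul_eq_mul_right (pow_pos (Nat.pos_of_ne_zero hw0) _) h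
  have h4 : w ∣ p ^ n := by
    rw [← h1]
    exact dvd_pow_self _ (by omega)
  obtain ⟨j, -, rfl⟩ := (Nat.dvd_prime_pow hp).1 h4
  have h5 : j ≤ 2 := (Nat.pow_le_pow_iff_right hp.one_lt).1 hw
  rw [← pow_mul] at h1
  have h6 := Nat.pow_right_injective hp.two_le h1
  interval_cases j
  · omega
  · omega
  · omega

theorem tseq_double (A q : ℤ) (m : ℕ) :
    tseq A q (2 * m) = tseq (A ^ 2 - 2 * q) (q ^ 2) m := by
  have key : ∀ m : ℕ, tseq A q (2 * m) = tseq (A ^ 2 - 2 * q) (q ^ 2) m ∧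
      tseq A q (2 * (m + 1)) = tseq (A ^ 2 - 2 * q) (q ^ 2) (m + 1) := by
    intro m
    induction m with
    | zero => constructor <;> simp [tseq]; ring
    | succ m ih =>
      refine ⟨ih.2, ?_⟩
      have h0 := ih.1
      have h1 := ih.2
      have e1 : 2 * (m + 1 + 1) = 2 * m + 2 + 2 := by ring
      have e2 : 2 * (m + 1) = 2 * m + 2 := by ring
      rw [e1]
      rw [e2] at h1
      have r4 : tseq A q (2 * m + 2 + 2) = A * tseq A q (2 * m + 3) - q * tseq A q (2 * m + 2) := rfl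
      have r3 : tseq A q (2 * m + 3) = A * tseq A q (2 * m + 2) - q * tseq A q (2 * m + 1) := rfl
      have r2 : tseq A q (2 * m + 2) = A * tseq A q (2 * m + 1) - q * tseq A q (2 * m) := rfl
      have r : tseq (A ^ 2 - 2 * q) (q ^ 2) (m + 1 + 1) = (A ^ 2 - 2 * q) *
        tseq (A ^ 2 - 2 * q) (q ^ 2) (m + 1) - q ^ 2 * tseq (A ^ 2 - 2 * q) (q ^ 2) m := rfl
      rw [r, ← h1, ← h0, r4, r3]
      linear_combination q * r2
  exact (key m).1

theorem tseq_scale (e q : ℤ) (m : ℕ) : tseq (q * e) (q ^ 2) m = q ^ m * tseq e 1 m := by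
  induction m using Nat.twoStepInduction with
  | zero => simp [tseq]
  | one => simp [tseq]
  | more m h0 h1 =>
    rw [tseq, tseq, h0, h1]
    ring

theorem tseq_periodic {e : ℤ} (h1 : -2 ≤ e) (h2 : e ≤ 2) (j : ℕ) : tseq e 1 (12 * j) = 2 := by
  have key : ∀ j : ℕ, tseq e 1 (12 * j) = 2 ∧ tseq e 1 (12 * j + 1) = e := by
    intro j
    induction j with
    | zero => simp [tseq]
    | succ j ih =>
      have e12 : 12 * (j + 1) = 12 * j + 12 := by ring
      rw [e12]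
      have r : ∀ k, tseq e 1 (k + 2) = e * tseq e 1 (k + 1) - 1 * tseq e 1 k := fun k => rfl
      have s2 := r (12 * j)
      have s3 := r (12 * j + 1)
      have s4 := r (12 * j + 2)
      have s5 := r (12 * j + 3)
      have s6 := r (12 * j + 4)
      have s7 := r (12 * j + 5)
      have s8 := r (12 * j + 6)
      have s9 := r (12 * j + 7)
      have s10 := r (12 * j + 8)
      have s11 := r (12 * j + 9)
      have s12 := r (12 * j + 10)
      have s13 := r (12 * j + 11)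
      simp only [add_assoc, Nat.reduceAdd] at s2 s3 s4 s5 s6 s7 s8 s9 s10 s11 s12 s13 ⊢
      obtain ⟨i0, i1⟩ := ih
      rw [i0, i1] at s2
      rw [i1] at s3
      interval_cases e <;> omega
  exact (key j).1

theorem tseq_final {A q : ℤ} (hq : 0 < q) (hdvd : q ∣ A ^ 2) (hA : A ^ 2 ≤ 4 * q) (j : ℕ) :
    tseq A q (24 * j) = 2 * (q ^ 12) ^ j := by
  obtain ⟨e, he⟩ := hdvd
  have he0 : 0 ≤ e := by
    by_contra hneg
    push Not at hneg
    have : q * e < 0 := mul_neg_of_pos_of_neg hq hneg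
    have h := sq_nonneg A
    omega
  have he4 : e ≤ 4 := by
    rw [he] at hA
    by_contra h
    push Not at h
    nlinarith
  have h1 : A ^ 2 - 2 * q = q * (e - 2) := by rw [he]; ring
  rw [show 24 * j = 2 * (12 * j) by ring, tseq_double, h1, tseq_scale,
    tseq_periodic (by omega) (by omega), ← pow_mul]
  ring

/-- If the characteristic divides the trace of Frobenius, then the trace over the extension of
degree `24 j` is `2 q ^ (12 j)`. -/
theorem deuring [Fintype F] [DecidableEq F] (p : ℕ) [Fact p.Prime] [CharP F p]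
    (h2 : (2 : F) ≠ 0) (hd : dsc a b c ≠ 0) (h : (p : ℤ) ∣ tr F a b c) (j : ℕ) :
    tseq (tr F a b c) (Fintype.card F) (24 * j) = 2 * ((Fintype.card F : ℤ) ^ 12) ^ j := by
  classical
  have hq0 : (0 : ℤ) < Fintype.card F := by exact_mod_cast Fintype.card_pos
  refine tseq_final hq0 ?_ (hasse h2 hd) j
  set A := tr F a b c with hA
  by_cases hA0 : A = 0
  · rw [hA0]; simp
  have hpp : p.Prime := Fact.out
  obtain ⟨n, hn, hcard⟩ := FiniteField.card F p
  have hcard' : Fintype.card F = p ^ (n : ℕ) := hcard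
  have hp2 : p ≠ 2 := by
    rintro rfl
    exact h2 (by exact_mod_cast CharP.cast_eq_zero F 2)
  have hfix : ∀ x : F, x ^ p ^ (n : ℕ) = x := fun x => by rw [← hcard', FiniteField.pow_card]
  have hchar : CharP (RF F) p := charP_of_injective_ringHom
    (f := (algebraMap F[X] (RF F)).comp C) (RingHom.injective _) p
  -- the p-part of the trace
  obtain ⟨s, a', ha', hAs⟩ : ∃ (s : ℕ) (a' : ℤ), ¬ (p : ℤ) ∣ a' ∧ A = (p : ℤ) ^ s * a' := by
    have hfin : FiniteMultiplicity (p : ℤ) A := by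
      rw [Int.finiteMultiplicity_iff]
      refine ⟨?_, hA0⟩
      simpa using hpp.one_lt.ne'
    obtain ⟨a', h1, h3⟩ := hfin.exists_eq_pow_mul_and_not_dvd
    exact ⟨_, a', h3, h1⟩
  have ha'0 : a' ≠ 0 := by
    rintro rfl
    exact ha' (dvd_zero _)
  have hs1 : 1 ≤ s := by
    by_contra hs
    have hs0 : s = 0 := by omega
    rw [hs0, pow_zero, one_mul] at hAs
    rw [hAs] at h
    exact ha' h
  by_cases hsn : 2 * s < (n : ℕ)
  swap
  · rw [hcard', hAs, mul_pow, ← pow_mul]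
    push_cast
    refine Dvd.dvd.mul_right (pow_dvd_pow _ ?_) _
    omega
  exfalso
  set P0 := Pgen h2 a b c with hP0
  have hD := Dgen_ne a b c
  set ψ := Psi p (n : ℕ) hp2 hfix hD with hψ
  have hpar := par_deg hd hD
  have hqd : ∀ x, (fun P : (Tw (RF F) a b c (Dgen a b c)).Point => (deg P : ℤ)) (ψ x)
      = (Fintype.card F : ℤ) * (deg x : ℤ) := by
    intro x
    simp only [hψ]
    rw [deg_Psi, hcard']; push_cast; ring
  have hN0 : ∀ x, (fun P : (Tw (RF F) a b c (Dgen a b c)).Point => (deg P : ℤ)) (ψ x - x)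
      = (Npt a b c : ℤ) * (deg x : ℤ) := by
    intro x
    simp only [hψ]
    rw [deg_Psi_sub p n hp2 hfix hcard'.symm h2 hd]; push_cast; ring
  have hAeq : (Fintype.card F : ℤ) + 1 - Npt a b c = A := by rw [Npt_eq h2]; ring
  have hchz := char_zero hpar (fun x => Int.natCast_nonneg _) ψ _ _ hqd hN0 P0
  rw [hAeq] at hchz
  -- the relation
  have hV1 : VP P0 1 := VP_gen h2 hd
  have hG : ∀ m : ℤ, GP (m • P0) := fun m => GP.zsmul hD (Or.inr ⟨1, le_rfl, hV1⟩) m
  have hψG : ∀ R, GP R → GP (ψ R) := by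
    intro R hR
    rcases hR with hR | ⟨v, hv, hR⟩
    · left; rw [hR, map_zero]
    · right
      refine ⟨_, ?_, VP_Psi p n hp2 hfix hD hR⟩
      have : (1 : ℤ) ≤ (p : ℤ) ^ (n : ℕ) := by exact_mod_cast Nat.one_le_pow _ _ hpp.pos
      nlinarith
  have hP0G : GP P0 := Or.inr ⟨1, le_rfl, hV1⟩
  have hT : ψ (ψ P0) - A • ψ P0 + (Fintype.card F : ℤ) • P0 = 0 := by
    have h1 : GP (ψ (ψ P0) - A • ψ P0 + (Fintype.card F : ℤ) • P0) := by
      refine GP.add hD (GP.sub hD (hψG _ (hψG _ hP0G)) ?_) (hG _)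
      exact GP.zsmul hD (hψG _ hP0G) A
    rcases h1 with h1 | ⟨v, hv, h1⟩
    · exact h1
    · exfalso
      have h3 := h1.le_deg hD
      have h4 : ((deg (ψ (ψ P0) - A • ψ P0 + (Fintype.card F : ℤ) • P0) : ℕ) : ℤ) = 0 := hchz
      omega
  have hrel : (Fintype.card F : ℤ) • P0 = ψ (A • P0 - ψ P0) := by
    rw [map_sub, map_zsmul]
    have : (Fintype.card F : ℤ) • P0 =
        (ψ (ψ P0) - A • ψ P0 + (Fintype.card F : ℤ) • P0) + (A • ψ P0 - ψ (ψ P0)) := by abel
    rw [this, hT, zero_add]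
  -- the order of p P₀
  have hp0 : (p : ℤ) ≠ 0 := by exact_mod_cast hpp.ne_zero
  obtain ⟨w, hw1, hw⟩ := exists_w h2 hd hp0
  have hwle : w ≤ (p : ℤ) ^ 2 := by
    have h1 := hw.le_deg hD
    have h3 := hpar.zsmul (p : ℤ) P0
    rw [h3, hP0, deg_Pgen] at h1
    simpa using h1
  have hpn : (p : ℤ) ^ (n : ℕ) = Fintype.card F := by rw [hcard']; push_cast; ring
  have hVq : VP ((Fintype.card F : ℤ) • P0) (w ^ (n : ℕ)) := by
    rw [← hpn]
    exact w_pow h2 hd hw hw1 _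
  -- `w ≥ 2`
  have hdiff0 : GP (A • P0 - ψ P0) := GP.sub hD (hG A) (hψG _ hP0G)
  have hw2 : 2 ≤ w := by
    by_contra hlt
    have hw1' : w = 1 := by omega
    rw [hw1', one_pow] at hVq
    rcases hdiff0 with h0 | ⟨v, hv, h0⟩
    · rw [hrel, h0, map_zero] at hVq
      exact hVq.ne_zero rfl
    · have h3 := VP_Psi p n hp2 hfix hD h0
      rw [hrel] at hVq
      have h4 := hVq.unique h3
      have h5 : (2 : ℤ) ≤ (p : ℤ) ^ (n : ℕ) := by
        have : 2 ≤ p ^ (n : ℕ) := le_trans hpp.two_le (Nat.le_self_pow n.ne_zero p)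
        exact_mod_cast this
      nlinarith
  -- the order of `A P₀`
  obtain ⟨w', hw'1, hw'⟩ := exists_w h2 hd ha'0
  have hco : IsCoprime (p : ℤ) a' := by
    rw [Int.isCoprime_iff_gcd_eq_one]
    have hpi : Prime (p : ℤ) := Nat.prime_iff_prime_int.1 hpp
    exact (Int.isCoprime_iff_gcd_eq_one.1
      ((Prime.coprime_iff_not_dvd hpi).2 ha'))
  have hw'e : w' = 1 := w_coprime h2 hd hw hw2 hw' hw'1 hco
  have hVA : VP (A • P0) (w ^ s) := by
    have := w_mul h2 hd (w_pow h2 hd hw hw1 s) hw' hw'1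
    rw [hw'e, mul_one, ← hAs] at this
    exact this
  have hVψ : VP (ψ P0) ((p : ℤ) ^ (n : ℕ)) := by
    have := VP_Psi p n hp2 hfix hD hV1
    rwa [mul_one] at this
  have hlt : w ^ s < (p : ℤ) ^ (n : ℕ) := by
    calc w ^ s ≤ ((p : ℤ) ^ 2) ^ s := pow_le_pow_left₀ (by omega) hwle s
      _ = (p : ℤ) ^ (2 * s) := by rw [← pow_mul]
      _ < (p : ℤ) ^ (n : ℕ) := by
        have : p ^ (2 * s) < p ^ (n : ℕ) := Nat.pow_lt_pow_right hpp.one_lt hsn
        exact_mod_cast this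
  have hws : 1 ≤ w ^ s := one_le_pow₀ hw1
  have hVdiff : VP (A • P0 - ψ P0) (w ^ s) := by
    rw [sub_eq_add_neg]
    have h3 := (ultra hD hVA hVψ.neg hws (by omega)).2 hlt.ne
    rwa [min_eq_left hlt.le] at h3
  have hfin := VP_Psi p n hp2 hfix hD hVdiff
  rw [hrel] at hVq
  have hkey := hVq.unique hfin
  obtain ⟨w0, rfl⟩ : ∃ w0 : ℕ, w = w0 := ⟨w.toNat, by omega⟩
  exact num_aux hpp n.pos hs1 hsn (by exact_mod_cast hw1) (by exact_mod_cast hwle)
    (by exact_mod_cast hkey)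

end SCT
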