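import Mathlib

/-!
# A family of cubic threefolds

`F = G - κ (x³ - z³) + a² (x - z) + b² (x - ω z) + e² (x - ω² z) + c a b e`, with
`G = x³ - μ z³`, `κ c² = 4` and `ω² + ω + 1 = 0`.
-/

set_option autoImplicit false

namespace SCT

open MvPolynomial

section

variable {L : Type*} [CommRing L]

/-- the cubic `x³ - μ z³` -/
def gg (μ x z : L) : L := x ^ 3 - μ * z ^ 3

/-- the cubic `f = G - κ (x³ - z³)` -/
def ff (μ κ x z : L) : L := gg μ x z - κ * (x ^ 3 - z ^ 3)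

/-- the cubic form in five variables, as a function -/
def FF (μ κ ω c : L) (v : Fin 5 → L) : L :=
  ff μ κ (v 0) (v 1) + v 2 ^ 2 * (v 0 - v 1) + v 3 ^ 2 * (v 0 - ω * v 1)
    + v 4 ^ 2 * (v 0 - ω ^ 2 * v 1) + c * (v 2 * v 3 * v 4)

/-- the cubic form in five variables -/
noncomputable def PP (μ κ ω c : L) : MvPolynomial (Fin 5) L :=
  (X 0 ^ 3 - C μ * X 1 ^ 3 - C κ * (X 0 ^ 3 - X 1 ^ 3)) + X 2 ^ 2 * (X 0 - X 1)
    + X 3 ^ 2 * (X 0 - C ω * X 1) + X 4 ^ 2 * (X 0 - C ω ^ 2 * X 1) + C c * (X 2 * X 3 * X 4)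

theorem aeval_PP {A : Type*} [CommRing A] [Algebra L A] (μ κ ω c : L) (v : Fin 5 → A) :
    aeval v (PP μ κ ω c) =
      FF (algebraMap L A μ) (algebraMap L A κ) (algebraMap L A ω) (algebraMap L A c) v := by
  simp only [PP, FF, ff, gg, map_add, map_sub, map_mul, map_pow, aeval_X, aeval_C]

end

end SCT
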