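import Mathlib
import Pool.Agent.SCT.Def

/-!
# Character sums modulo `p`

`q = |F| = p ^ n`, `m = (p - 1) / 2`, `M = (q - 1) / 2`.  In `F`: `η(y) = y ^ M`
(`quadraticChar_eq_pow_of_char_ne_two'`), and `∑_{x ∈ F} x ^ k = 0` unless `k > 0` and `q - 1 ∣ k`, then
it is `-1` (`FiniteField.sum_pow_lt_card_sub_one`, `x ^ q = x` to lower the exponent).  So
`(∑_x η(g(x)) : F) = -∑_{i ≥ 1} coeff_{i (q-1)} (g ^ M)`.
`M = m + p M'`, `M' = (q/p - 1)/2` (also for `q = p`), so `g ^ M = g ^ m * (g ^ M') ^ p`, and the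
coefficient of `h ^ p` at `j` is `0` if `p ∤ j` (Frobenius: `h ^ p = expand p (h.map frob)`).  Hence
`coeff_k (g ^ M) = ∑_{i + p j = k} coeff_i (g ^ m) * (...)`, and it vanishes if
`coeff_i (g ^ m) = 0` for every `i ≡ k mod p`.

`hasse4`: `g = -((X³ - μ)(X - 1))`, degree `4`; `k = q - 1 ≡ -1 mod p`: `i ≤ 4m = 2p - 2` and
`i ≡ -1 mod p` give `i = p - 1`, zero by hypothesis (`(-1)^m` times it).  `k = 2 (q - 1)`: leading
coefficient `(-1) ^ M = η(-1)`.  So `∑_t η(g t) + η(-1) ≡ 0 mod p`.

`hasse6`: `g = X⁶ - T X³ + 1`, `N = (p-1)/3`; `g ^ m` is a polynomial in `X³`: `coeff_i (g^m) = 0`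
unless `3 ∣ i`, `coeff_{3i} (g ^ m) = coeff_i ((X² - T X + 1) ^ m)`.  `k = q - 1`:
`i ∈ {p - 1, 2p - 1}` (`i ≤ 6m = 3p - 3`); `2p - 1 ≡ 1 mod 3`, and `p - 1 = 3N`: zero by hypothesis.
`k = 2 (q - 1) ≡ -2 mod p`: `i ∈ {p - 2, 2p - 2}`; `p - 2 ≡ 2 mod 3`, and `2p - 2 = 3 · 2N`: by the
symmetry `coeff_i = coeff_{2m - i}` of `(X² - TX + 1)^m` (palindromic), `2m - 2N = N`: zero.
`k = 3 (q-1)`: leading coefficient `1`.  So `∑_s η(g s) ≡ -1 mod p`.
-/

set_option autoImplicit false

set_option linter.unusedSectionVars false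

namespace SCT

open Finset Polynomial

variable {F : Type} [Field F] [Fintype F] [DecidableEq F] {p : ℕ} [Fact p.Prime] [CharP F p]

private lemma sum_pow_all (i : ℕ) (hi : i ≠ 0) :
    ∑ x : F, x ^ i = if Fintype.card F - 1 ∣ i then (-1 : F) else 0 := by
  classical
  let φ : Fˣ ↪ F := ⟨fun x ↦ x, Units.val_injective⟩
  have : univ.map φ = univ \ {0} := by
    ext x
    simpa only [mem_map, mem_univ, Function.Embedding.coeFn_mk, true_and, mem_sdiff,
      mem_singleton, φ] using! isUnit_iff_ne_zero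
  calc
    ∑ x : F, x ^ i = ∑ x ∈ univ \ {(0 : F)}, x ^ i := by
      rw [← sum_sdiff ({0} : Finset F).subset_univ, sum_singleton, zero_pow hi, add_zero]
    _ = ∑ x : Fˣ, (x ^ i : F) := by simp [φ, ← this, univ.sum_map φ]
    _ = _ := FiniteField.sum_pow_units F i

private lemma sum_eval (P : F[X]) (c : ℕ) (hP : P.natDegree ≤ c * (Fintype.card F - 1)) :
    ∑ x : F, P.eval x = -∑ j ∈ Icc 1 c, P.coeff (j * (Fintype.card F - 1)) := by
  have hq : 0 < Fintype.card F - 1 := by
    have := Fintype.one_lt_card (α := F)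
    omega
  set Q := Fintype.card F - 1 with hQ
  have e1 : ∀ x : F, P.eval x = ∑ i ∈ range (c * Q + 1), P.coeff i * x ^ i := fun x =>
    eval_eq_sum_range' (by omega) x
  rw [Finset.sum_congr rfl fun x _ => e1 x, Finset.sum_comm]
  have e2 : ∀ i ∈ range (c * Q + 1), (∑ x : F, P.coeff i * x ^ i) =
      if i ∈ (Icc 1 c).image (fun j => j * Q) then -P.coeff i else 0 := by
    intro i hi
    rw [← Finset.mul_sum]
    by_cases h0 : i = 0
    · subst h0
      rw [if_neg]
      · simp
      · rw [mem_image]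
        rintro ⟨j, hj, h⟩
        rw [mem_Icc] at hj
        have := Nat.mul_pos (show 0 < j by omega) hq
        omega
    · rw [sum_pow_all i h0, ← hQ]
      by_cases hd : Q ∣ i
      · obtain ⟨j, rfl⟩ := hd
        rw [if_pos (dvd_mul_right _ _), if_pos]
        · ring
        · rw [mem_image]
          refine ⟨j, ?_, by ring⟩
          rw [mem_Icc]
          constructor
          · rcases Nat.eq_zero_or_pos j with h | h
            · subst h
              exact absurd (mul_zero Q) h0
            · omega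
          · rw [mem_range] at hi
            by_contra hcon
            have : c * Q + Q ≤ Q * j := by
              have h1 : (c + 1) * Q ≤ j * Q := Nat.mul_le_mul_right Q (by omega)
              calc c * Q + Q = (c + 1) * Q := by ring
                _ ≤ j * Q := h1
                _ = Q * j := by ring
            omega
      · rw [if_neg hd, if_neg, mul_zero]
        rw [mem_image]
        rintro ⟨j, -, h⟩
        exact hd ⟨j, by rw [← h]; ring⟩
  rw [Finset.sum_congr rfl e2, ← Finset.sum_filter]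
  have e3 : (range (c * Q + 1)).filter (fun i => i ∈ (Icc 1 c).image (fun j => j * Q)) =
      (Icc 1 c).image (fun j => j * Q) := by
    ext i
    rw [mem_filter]
    constructor
    · exact fun h => h.2
    · intro h
      refine ⟨?_, h⟩
      rw [mem_image] at h
      obtain ⟨j, hj, rfl⟩ := h
      rw [mem_Icc] at hj
      rw [mem_range]
      have := Nat.mul_le_mul_right Q hj.2
      omega
  rw [e3, Finset.sum_image, Finset.sum_neg_distrib]
  intro a _ b _ h
  exact Nat.eq_of_mul_eq_mul_right hq h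

/-- coefficients of `A * h ^ p` -/
private lemma coeff_mul_pow_p (A h : F[X]) (k : ℕ)
    (hA : ∀ i ≤ k, p ∣ k - i → A.coeff i = 0) : (A * h ^ p).coeff k = 0 := by
  rw [coeff_mul]
  refine Finset.sum_eq_zero ?_
  rintro ⟨i, j⟩ hij
  rw [HasAntidiagonal.mem_antidiagonal] at hij
  by_cases hj : p ∣ j
  · have hi : i ≤ k := by simp only at hij; omega
    have hk : k - i = j := by simp only at hij; omega
    rw [hA i hi (by rw [hk]; exact hj), zero_mul]
  · have : (h ^ p).coeff j = 0 := by
      rw [← map_frobenius_expand p h, coeff_map, coeff_expand (Fact.out (p := p.Prime)).pos, if_neg hj,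
        map_zero]
    rw [this, mul_zero]

private lemma card_split (hp : p ≠ 2) : ∃ M' : ℕ, ∃ Q : ℕ, Fintype.card F = p * Q ∧
    0 < Q ∧ Fintype.card F / 2 = (p - 1) / 2 + p * M' ∧
    Fintype.card F - 1 = 2 * (Fintype.card F / 2) := by
  obtain ⟨n, hpp, hn⟩ := FiniteField.card F p
  have hodd : Odd p := hpp.odd_of_ne_two hp
  obtain ⟨m, hm⟩ := hodd
  have h1 : Odd (p ^ ((n : ℕ) - 1)) := Odd.pow ⟨m, hm⟩
  obtain ⟨M', hM'⟩ := h1
  have h2 : Fintype.card F = p * p ^ ((n : ℕ) - 1) := by
    rw [hn, ← pow_succ']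
    congr 1
    have := n.pos
    omega
  refine ⟨M', p ^ ((n : ℕ) - 1), h2, pow_pos hpp.pos _, ?_, ?_⟩
  · rw [h2, hM']
    have e : p * (2 * M' + 1) = 2 * (m + p * M') + 1 := by rw [hm]; ring
    rw [e]
    have e2 : (p - 1) / 2 = m := by omega
    rw [e2]
    omega
  · rw [h2, hM']
    have e : p * (2 * M' + 1) = 2 * (m + p * M') + 1 := by rw [hm]; ring
    rw [e]
    omega

private lemma dvd_iff_cast (z : ℤ) : (p : ℤ) ∣ z ↔ ((z : ℤ) : F) = 0 :=
  (CharP.intCast_eq_zero_iff F p z).symm

private lemma ringChar_ne (hp : p ≠ 2) : ringChar F ≠ 2 := by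
  have := ringChar.eq F p
  rw [this]
  exact hp

theorem hasse4 (hp : p ≠ 2) {μ : F}
    (h : (((X ^ 3 - C μ) * (X - 1) : F[X]) ^ ((p - 1) / 2)).coeff (p - 1) = 0) :
    (p : ℤ) ∣ ∑ t : F, quadraticChar F (-((t ^ 3 - μ) * (t - 1))) + quadraticChar F (-1) := by
  have hpp : p.Prime := Fact.out
  obtain ⟨M', Q, hQ, hQ0, hM, hq⟩ := card_split (F := F) hp
  have hp2 : 2 ∣ p - 1 := by
    obtain ⟨m, hm⟩ := hpp.odd_of_ne_two hp
    exact ⟨m, by omega⟩
  rw [dvd_iff_cast (F := F)]
  push_cast
  have hr := ringChar_ne (F := F) hp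
  rw [quadraticChar_eq_pow_of_char_ne_two' hr]
  set g : F[X] := -((X ^ 3 - C μ) * (X - 1)) with hg
  have hgd : g.natDegree ≤ 4 := by
    rw [hg]
    compute_degree
  have hg4 : g.coeff 4 = -1 := by
    have e : g = -X ^ 4 + X ^ 3 + C μ * X - C μ := by
      rw [hg]
      ring
    rw [e]
    simp
  have e1 : ∀ t : F, ((quadraticChar F (-((t ^ 3 - μ) * (t - 1))) : ℤ) : F) =
      (g ^ (Fintype.card F / 2)).eval t := by
    intro t
    rw [quadraticChar_eq_pow_of_char_ne_two' hr, eval_pow, hg]
    simp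
  rw [Finset.sum_congr rfl fun t _ => e1 t, sum_eval _ 2]
  · have hI : Icc 1 2 = ({1, 2} : Finset ℕ) := by decide
    rw [hI, Finset.sum_insert (by decide), Finset.sum_singleton, one_mul]
    have c2 : (g ^ (Fintype.card F / 2)).coeff (2 * (Fintype.card F - 1)) =
        (-1) ^ (Fintype.card F / 2) := by
      have e : 2 * (Fintype.card F - 1) = Fintype.card F / 2 * 4 := by omega
      rw [e, coeff_pow_of_natDegree_le hgd, hg4]
    have c1 : (g ^ (Fintype.card F / 2)).coeff (Fintype.card F - 1) = 0 := by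
      have e : g ^ (Fintype.card F / 2) = g ^ ((p - 1) / 2) * (g ^ M') ^ p := by
        rw [← pow_mul, ← pow_add]
        congr 1
        rw [hM]
        ring
      rw [e]
      refine coeff_mul_pow_p _ _ _ fun i hi hd => ?_
      by_cases h1 : 2 * (p - 1) < i
      · refine coeff_eq_zero_of_natDegree_lt ?_
        have h2 : (g ^ ((p - 1) / 2)).natDegree ≤ (p - 1) / 2 * 4 := natDegree_pow_le_of_le _ hgd
        omega
      · have h3 : i = p - 1 := by
          have h4 : p ∣ i + 1 := by
            have h5 : p ∣ Fintype.card F := ⟨Q, hQ⟩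
            have h6 : Fintype.card F - (Fintype.card F - 1 - i) = i + 1 := by
              have : 0 < Fintype.card F := Fintype.card_pos
              omega
            rw [← h6]
            exact Nat.dvd_sub h5 hd
          obtain ⟨r, hr'⟩ := h4
          have hp3 := hpp.two_le
          have hr1 : r = 1 := by
            rcases Nat.lt_or_ge r 1 with h7 | h7
            · have : r = 0 := by omega
              subst this
              omega
            · rcases Nat.lt_or_ge r 2 with h8 | h8
              · omega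
              · have := Nat.mul_le_mul_left p h8
                omega
          subst hr1
          omega
        rw [h3]
        have e5 : g ^ ((p - 1) / 2) = C ((-1) ^ ((p - 1) / 2)) *
            ((X ^ 3 - C μ) * (X - 1)) ^ ((p - 1) / 2) := by
          rw [hg, neg_pow]
          simp
        rw [e5, coeff_C_mul, h, mul_zero]
    rw [c1, c2]
    ring
  · have h2 : (g ^ (Fintype.card F / 2)).natDegree ≤ Fintype.card F / 2 * 4 :=
      natDegree_pow_le_of_le _ hgd
    omega

private lemma palin (T : F) (m : ℕ) : ((X ^ 2 - C T * X + 1 : F[X]) ^ m).reflect (2 * m) =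
    (X ^ 2 - C T * X + 1) ^ m := by
  have hd : (X ^ 2 - C T * X + 1 : F[X]).natDegree ≤ 2 := by compute_degree
  have h1 : (X ^ 2 - C T * X + 1 : F[X]).reflect 2 = X ^ 2 - C T * X + 1 := by
    ext i
    rw [coeff_reflect]
    rcases Nat.lt_or_ge 2 i with h | h
    · rw [revAt_eq_self_of_lt h]
    · rw [revAt_le h]
      interval_cases i <;> simp [coeff_X, coeff_one]
  induction m with
  | zero =>
    ext i
    rw [coeff_reflect]
    rcases Nat.eq_zero_or_pos i with h | h
    · subst h
      simp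
    · rw [revAt_eq_self_of_lt (by simpa using h)]
  | succ m ih =>
    rw [pow_succ, mul_add, mul_one, reflect_mul _ _ ?_ hd, ih, h1]
    have := natDegree_pow_le_of_le m hd
    omega

theorem hasse6 (hp : p % 3 = 1) (hp2 : p ≠ 2) {T : F}
    (h : ((X ^ 2 - C T * X + 1 : F[X]) ^ ((p - 1) / 2)).coeff ((p - 1) / 3) = 0) :
    (p : ℤ) ∣ ∑ s : F, quadraticChar F (s ^ 6 - T * s ^ 3 + 1) + 1 := by
  have hpp : p.Prime := Fact.out
  obtain ⟨M', Q, hQ, hQ0, hM, hq⟩ := card_split (F := F) hp2
  have h2p : 2 ∣ p - 1 := by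
    obtain ⟨m, hm⟩ := hpp.odd_of_ne_two hp2
    exact ⟨m, by omega⟩
  rw [dvd_iff_cast (F := F)]
  push_cast
  have hr := ringChar_ne (F := F) hp2
  set b : F[X] := X ^ 2 - C T * X + 1 with hb
  have hbd : b.natDegree ≤ 2 := by rw [hb]; compute_degree
  set g : F[X] := expand F 3 b with hg
  have hgX : g = X ^ 6 - C T * X ^ 3 + 1 := by
    rw [hg, hb]
    simp only [map_add, map_sub, map_mul, map_pow, expand_X, expand_C, map_one]
    ring
  have hgd : g.natDegree ≤ 6 := by
    rw [hgX]
    compute_degree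
  have hg6 : g.coeff 6 = 1 := by
    rw [hgX]
    simp [coeff_one]
  have e1 : ∀ t : F, ((quadraticChar F (t ^ 6 - T * t ^ 3 + 1) : ℤ) : F) =
      (g ^ (Fintype.card F / 2)).eval t := by
    intro t
    rw [quadraticChar_eq_pow_of_char_ne_two' hr, eval_pow, hgX]
    simp
  -- coefficients of `g ^ m`
  have hA : ∀ i, (g ^ ((p - 1) / 2)).coeff i ≠ 0 → ∃ r, i = 3 * r ∧ r ≤ p - 1 ∧
      (b ^ ((p - 1) / 2)).coeff r ≠ 0 := by
    intro i hi
    have e : g ^ ((p - 1) / 2) = expand F 3 (b ^ ((p - 1) / 2)) := by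
      rw [hg, map_pow]
    rw [e, coeff_expand (by norm_num)] at hi
    split_ifs at hi with h3
    · obtain ⟨r, rfl⟩ := h3
      rw [Nat.mul_div_cancel_left _ (by norm_num)] at hi
      refine ⟨r, rfl, ?_, hi⟩
      by_contra hcon
      apply hi
      refine coeff_eq_zero_of_natDegree_lt ?_
      have h4 := natDegree_pow_le_of_le ((p - 1) / 2) hbd
      omega
    · exact absurd rfl hi
  have hpal : (b ^ ((p - 1) / 2)).coeff (2 * ((p - 1) / 3)) = 0 := by
    have h3 := palin T ((p - 1) / 2)
    rw [← hb] at h3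
    rw [← h3, coeff_reflect, revAt_le (by omega)]
    have e : 2 * ((p - 1) / 2) - 2 * ((p - 1) / 3) = (p - 1) / 3 := by omega
    rw [e, h]
  have hc : ∀ k, (∀ i, i ≤ k → p ∣ k - i → (g ^ ((p - 1) / 2)).coeff i = 0) →
      (g ^ (Fintype.card F / 2)).coeff k = 0 := by
    intro k hk
    have e : g ^ (Fintype.card F / 2) = g ^ ((p - 1) / 2) * (g ^ M') ^ p := by
      rw [← pow_mul, ← pow_add]
      congr 1
      rw [hM]
      ring
    rw [e]
    exact coeff_mul_pow_p _ _ _ hk
  have hcard : p ∣ Fintype.card F := ⟨Q, hQ⟩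
  have hcpos : 0 < Fintype.card F := Fintype.card_pos
  rw [Finset.sum_congr rfl fun t _ => e1 t, sum_eval _ 3]
  · have hI : Icc 1 3 = ({1, 2, 3} : Finset ℕ) := by decide
    rw [hI, Finset.sum_insert (by decide), Finset.sum_insert (by decide), Finset.sum_singleton,
      one_mul]
    have c3 : (g ^ (Fintype.card F / 2)).coeff (3 * (Fintype.card F - 1)) = 1 := by
      have e : 3 * (Fintype.card F - 1) = Fintype.card F / 2 * 6 := by omega
      rw [e, coeff_pow_of_natDegree_le hgd, hg6, one_pow]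
    have c1 : (g ^ (Fintype.card F / 2)).coeff (Fintype.card F - 1) = 0 := by
      refine hc _ fun i hi hd => ?_
      by_contra hcon
      obtain ⟨r, rfl, hr1, hr2⟩ := hA i hcon
      have h4 : p ∣ 3 * r + 1 := by
        have h6 : Fintype.card F - (Fintype.card F - 1 - 3 * r) = 3 * r + 1 := by omega
        rw [← h6]
        exact Nat.dvd_sub hcard hd
      obtain ⟨t, ht⟩ := h4
      have ht3 : t < 3 := by
        by_contra h7
        have := Nat.mul_le_mul_left p (show 3 ≤ t by omega)
        omega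
      interval_cases t
      · omega
      · have : r = (p - 1) / 3 := by omega
        rw [this] at hr2
        exact hr2 h
      · omega
    have c2 : (g ^ (Fintype.card F / 2)).coeff (2 * (Fintype.card F - 1)) = 0 := by
      refine hc _ fun i hi hd => ?_
      by_contra hcon
      obtain ⟨r, rfl, hr1, hr2⟩ := hA i hcon
      have h4 : p ∣ 3 * r + 2 := by
        have h6 : 2 * Fintype.card F - (2 * (Fintype.card F - 1) - 3 * r) = 3 * r + 2 := by omega
        rw [← h6]
        exact Nat.dvd_sub (hcard.mul_left 2) hd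
      obtain ⟨t, ht⟩ := h4
      have hp1 := hpp.two_le
      have ht3 : t < 3 := by
        by_contra h7
        have := Nat.mul_le_mul_left p (show 3 ≤ t by omega)
        omega
      interval_cases t
      · omega
      · omega
      · have : r = 2 * ((p - 1) / 3) := by omega
        rw [this] at hr2
        exact hr2 hpal
    rw [c1, c2, c3]
    ring
  · have h2 : (g ^ (Fintype.card F / 2)).natDegree ≤ Fintype.card F / 2 * 6 :=
      natDegree_pow_le_of_le _ hgd
    omega

end SCT
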