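import Mathlib
import Pool.Agent.SCT.Def
import Pool.Agent.Hhelper85.Weil3

/-!
# Reduction of the character sums to traces of curves `y² = cubic`

`tr F a b c = -∑ x, quadraticChar F (x³ + a x² + b x + c)` (Hhelper85.Weil3).  `η` = quadratic
character, `Q = |L|`, `λ = 1 - μ ≠ 0`.

`tr1`: `∑_t η(-(t³-μ)(t-1))`: `t = 1` gives `0`; `t = 1 + 1/s`, `s ≠ 0`:
`-(t³-μ)(t-1) = -s⁻⁴ (λ s³ + 3 s² + 3 s + 1)`.  Put `k(s) = λ s³ + 3 s² + 3 s + 1`; `X = -λ s`:
`-λ² k(s) = X³ - 3X² + 3λX - λ²`.  So `∑_{s ≠ 0} η(-k(s)) = ∑_s η(-k(s)) - η(-1) = -tr - η(-1)`.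

`sumA`: first `i = 0`: in `∑_{x,z} η(-G (x-z))` put `w = x - z`: `w = 0` gives `0`; `w ≠ 0`, `z = w s`:
`-G(x,z)(x-z) = -w⁴ k(s)`.  So the sum is `(Q-1) ∑_s η(-k(s)) = -(Q-1) tr`.  For the factors
`x - ω z`, `x - ω² z`: substitute `x → ω x` resp. `x → ω² x` (`ω³ = 1`), `η(ω) = 1` as `ω = (ω²)²`.

`tr23`: `∑_s η(s⁶ - T s³ + 1)`: `s = 0` gives `1`.  For `s ≠ 0`: `u = s + 1/s`,
`s⁶ - T s³ + 1 = s³ (u³ - 3u - T)`, so `η = η(s) η(u³ - 3u - T)`.  For every `u`:
`∑_{s ≠ 0, s + 1/s = u} η(s) = η(u+2) + η(u-2)` (number of `s` is `1 + η(u²-4)`; `s (u + 2) = (s+1)²`,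
`s (u - 2) = (s-1)²`).  So `∑_s = 1 + S₊ + S₋`, `S± = ∑_u η((u ± 2)(u³ - 3u - T))`.
`S₊`: `w = u + 2`: `w (w³ - 6w² + 9w - (2+T))`, `w = 1/s`: `∑_{s≠0} η(-θ s³ + 9 s² - 6 s + 1)` with
`θ = 2 + T ≠ 0`, and `S = -θ s`: `θ² (...) = S³ + 9S² + 6θS + θ²`; so `S₊ = -tr(9,6θ,θ²) - 1`.
`S₋`: `u → -u` turns it into `S₊` with `T → -T`.

`sumB`: `f G = (1-κ) (x³ - μ z³)(x³ - (μ-κ)/(1-κ) z³)`, `(μ-κ)/(1-κ) = δ³/r`, `μ = r δ³`; `1 - κ` is a
nonzero square; `x = δ X`: `(δ³)² (X³ - r z³)(X³ - r⁻¹ z³) = (δ³)² (X⁶ - T X³ z³ + z⁶)`.  `z = 0`: `Q - 1`;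
`z ≠ 0`, `X = z s`: `(Q-1) ∑_s η(s⁶ - T s³ + 1)`.  Total `(Q-1)(1 + ∑_s ...) = -(Q-1)(tr2 + tr3)` by
`tr23`.
-/

set_option autoImplicit false

namespace SCT

open Finset Pool.Agent.Hhelper85

variable {L : Type} [Field L] [Fintype L] [DecidableEq L]

omit [DecidableEq L] in
/-- substitution `x = c s` -/
private theorem sum_scale (f : L → ℤ) {c : L} (hc : c ≠ 0) : ∑ s, f (c * s) = ∑ x, f x :=
  Equiv.sum_comp (Equiv.mulLeft₀ c hc) f

omit [DecidableEq L] in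
private theorem sum_shift (f : L → ℤ) (c : L) : ∑ s, f (s + c) = ∑ x, f x :=
  Equiv.sum_comp (Equiv.addRight c) f

omit [DecidableEq L] in
private theorem sum_inv (f : L → ℤ) : ∑ s, f s⁻¹ = ∑ x, f x :=
  Fintype.sum_bijective (fun s : L => s⁻¹) inv_involutive.bijective _ _ fun _ => rfl

omit [DecidableEq L] in
private theorem sum_neg (f : L → ℤ) : ∑ s, f (-s) = ∑ x, f x :=
  Equiv.sum_comp (Equiv.neg L) f

private theorem sum_off (f g : L → ℤ) (h : ∀ s, s ≠ 0 → f s = g s) :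
    ∑ s, f s - f 0 = ∑ s, g s - g 0 := by
  have e : ∀ k : L → ℤ, ∑ s, k s - k 0 = ∑ s ∈ univ.erase (0 : L), k s := by
    intro k
    rw [← add_sum_erase univ k (mem_univ 0)]
    ring
  rw [e f, e g]
  exact sum_congr rfl fun s hs => h s (ne_of_mem_erase hs)

private theorem chi_sq_mul {a b : L} (ha : a ≠ 0) :
    quadraticChar L (a ^ 2 * b) = quadraticChar L b := by
  rw [map_mul, quadraticChar_sq_one' ha, one_mul]

private theorem chi_zero : quadraticChar L (0 : L) = 0 := MulChar.map_zero _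

/-- the sum of the cubic `-k(s)` -/
private theorem sum_k {μ : L} (hμ : μ ≠ 1) :
    ∑ s : L, quadraticChar L (-((1 - μ) * s ^ 3 + 3 * s ^ 2 + 3 * s + 1)) =
      -tr L (-3) (3 * (1 - μ)) (-(1 - μ) ^ 2) := by
  have hl : -(1 - μ) ≠ 0 := neg_ne_zero.2 (sub_ne_zero.2 (Ne.symm hμ))
  unfold tr
  rw [neg_neg, ← sum_scale (fun X : L => quadraticChar L (X ^ 3 + -3 * X ^ 2 + 3 * (1 - μ) * X
    + -(1 - μ) ^ 2)) hl]
  refine sum_congr rfl fun s _ => ?_
  have e : (-(1 - μ) * s) ^ 3 + -3 * (-(1 - μ) * s) ^ 2 + 3 * (1 - μ) * (-(1 - μ) * s)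
      + -(1 - μ) ^ 2 = (-(1 - μ)) ^ 2 * (-((1 - μ) * s ^ 3 + 3 * s ^ 2 + 3 * s + 1)) := by ring
  rw [e, chi_sq_mul hl]

theorem tr1 {μ : L} (h2 : (2 : L) ≠ 0) (hμ : μ ≠ 1) :
    tr L (-3) (3 * (1 - μ)) (-(1 - μ) ^ 2) =
      -∑ t : L, quadraticChar L (-((t ^ 3 - μ) * (t - 1))) - quadraticChar L (-1) := by
  have hk := sum_k (L := L) hμ
  have e1 : ∑ t : L, quadraticChar L (-((t ^ 3 - μ) * (t - 1))) =
      ∑ s : L, quadraticChar L (-(((s⁻¹ + 1) ^ 3 - μ) * (s⁻¹ + 1 - 1))) := by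
    rw [← sum_shift (fun t : L => quadraticChar L (-((t ^ 3 - μ) * (t - 1)))) 1,
      ← sum_inv (fun t : L => quadraticChar L (-(((t + 1) ^ 3 - μ) * (t + 1 - 1))))]
  have e2 := sum_off (fun s : L => quadraticChar L (-(((s⁻¹ + 1) ^ 3 - μ) * (s⁻¹ + 1 - 1))))
    (fun s : L => quadraticChar L (-((1 - μ) * s ^ 3 + 3 * s ^ 2 + 3 * s + 1))) (by
      intro s hs
      have e : -((1 - μ) * s ^ 3 + 3 * s ^ 2 + 3 * s + 1) =
          (s ^ 2) ^ 2 * (-(((s⁻¹ + 1) ^ 3 - μ) * (s⁻¹ + 1 - 1))) := by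
        field_simp
        ring
      rw [e, chi_sq_mul (pow_ne_zero 2 hs)])
  have e3 : quadraticChar L (-((((0 : L)⁻¹ + 1) ^ 3 - μ) * ((0 : L)⁻¹ + 1 - 1))) = 0 := by
    have : -((((0 : L)⁻¹ + 1) ^ 3 - μ) * ((0 : L)⁻¹ + 1 - 1)) = 0 := by
      rw [inv_zero]
      ring
    rw [this, chi_zero]
  have e4 : quadraticChar L (-((1 - μ) * (0 : L) ^ 3 + 3 * 0 ^ 2 + 3 * 0 + 1)) =
      quadraticChar L (-1) := by
    congr 1
    ring
  simp only [e3, e4] at e2
  rw [e1]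
  linarith

private theorem sumA1 {μ u : L} (hu : u ^ 3 = 1) (hμ : μ ≠ 1) :
    ∑ x : L, ∑ z : L, quadraticChar L (-(gg μ x z * (x - u * z))) =
      -((Fintype.card L : ℤ) - 1) * tr L (-3) (3 * (1 - μ)) (-(1 - μ) ^ 2) := by
  have hu0 : u ≠ 0 := by
    rintro rfl
    simp at hu
  have hk := sum_k (L := L) hμ
  have e0 : ∀ x z : L, quadraticChar L (-(gg μ (u * x) z * (u * x - u * z))) =
      quadraticChar L (-(gg μ x z * (x - z))) := by
    intro x z
    have e : -(gg μ (u * x) z * (u * x - u * z)) = (u ^ 2) ^ 2 * (-(gg μ x z * (x - z))) := by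
      unfold gg
      linear_combination (-(x ^ 3 * u * (x - z)) + u * (x ^ 3 - μ * z ^ 3) * (x - z)) * hu
    rw [e, chi_sq_mul (pow_ne_zero 2 hu0)]
  rw [← sum_scale (fun x : L => ∑ z : L, quadraticChar L (-(gg μ x z * (x - u * z)))) hu0]
  simp only [e0]
  rw [sum_comm]
  have e1 : ∀ z : L, ∑ x : L, quadraticChar L (-(gg μ x z * (x - z))) =
      ∑ w : L, quadraticChar L (-(gg μ (w + z) z * w)) := by
    intro z
    rw [← sum_shift (fun x : L => quadraticChar L (-(gg μ x z * (x - z)))) z]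
    refine sum_congr rfl fun w _ => ?_
    rw [add_sub_cancel_right]
  simp only [e1]
  rw [sum_comm]
  have e2 : ∀ w : L, w ≠ 0 → ∑ z : L, quadraticChar L (-(gg μ (w + z) z * w)) =
      -tr L (-3) (3 * (1 - μ)) (-(1 - μ) ^ 2) := by
    intro w hw
    rw [← hk, ← sum_scale (fun z : L => quadraticChar L (-(gg μ (w + z) z * w))) hw]
    refine sum_congr rfl fun s _ => ?_
    have e : -(gg μ (w + w * s) (w * s) * w) =
        (w ^ 2) ^ 2 * (-((1 - μ) * s ^ 3 + 3 * s ^ 2 + 3 * s + 1)) := by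
      unfold gg
      ring
    rw [e, chi_sq_mul (pow_ne_zero 2 hw)]
  have e3 : ∑ z : L, quadraticChar L (-(gg μ (0 + z) z * 0)) = 0 := by
    refine sum_eq_zero fun z _ => ?_
    rw [mul_zero, neg_zero, chi_zero]
  rw [← add_sum_erase univ _ (mem_univ (0 : L)), e3, zero_add,
    sum_congr rfl (fun w hw => e2 w (ne_of_mem_erase hw)), sum_const, card_erase_of_mem
    (mem_univ _), card_univ, nsmul_eq_mul, Nat.cast_sub Fintype.card_pos]
  push_cast
  ring

theorem sumA {μ ω : L} (h2 : (2 : L) ≠ 0) (hω : ω ^ 2 + ω + 1 = 0) (hμ : μ ≠ 1) (i : ℕ) :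
    ∑ x : L, ∑ z : L, quadraticChar L (-(gg μ x z * (x - ω ^ i * z))) =
      -((Fintype.card L : ℤ) - 1) * tr L (-3) (3 * (1 - μ)) (-(1 - μ) ^ 2) := by
  have h3 : ω ^ 3 = 1 := by linear_combination (ω - 1) * hω
  refine sumA1 ?_ hμ
  rw [← pow_mul, mul_comm, pow_mul, h3, one_pow]

private theorem fib (h2 : (2 : L) ≠ 0) (u : L) :
    ∑ s ∈ univ.filter (fun s : L => s ≠ 0 ∧ s + s⁻¹ = u), quadraticChar L s =
      quadraticChar L (u + 2) + quadraticChar L (u - 2) := by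
  have hF : ringChar L ≠ 2 := ringChar_ne h2
  have h4 : quadraticChar L (4 : L) = 1 := by
    have : (4 : L) = 2 ^ 2 * 1 := by norm_num
    rw [this, chi_sq_mul h2, map_one]
  have mem : ∀ s : L, s ∈ univ.filter (fun s : L => s ≠ 0 ∧ s + s⁻¹ = u) ↔
      s ^ 2 - u * s + 1 = 0 := by
    intro s
    simp only [mem_filter, mem_univ, true_and]
    constructor
    · rintro ⟨h, e⟩
      rw [← e]
      field_simp
      ring
    · intro e
      have hs : s ≠ 0 := by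
        rintro rfl
        simp at e
      refine ⟨hs, ?_⟩
      field_simp
      linear_combination e
  by_cases hsq : IsSquare (u ^ 2 - 4)
  · obtain ⟨d, hd⟩ := hsq
    have hset : univ.filter (fun s : L => s ≠ 0 ∧ s + s⁻¹ = u) =
        {(u + d) / 2, (u - d) / 2} := by
      ext s
      rw [mem, mem_insert, mem_singleton]
      have e : s ^ 2 - u * s + 1 = (s - (u + d) / 2) * (s - (u - d) / 2) := by
        field_simp
        linear_combination -hd
      rw [e, mul_eq_zero, sub_eq_zero, sub_eq_zero]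
    rw [hset]
    by_cases hd0 : d = 0
    · rw [hd0, add_zero, sub_zero, pair_eq_singleton, sum_singleton]
      have hu : (u - 2) * (u + 2) = 0 := by
        rw [hd0] at hd
        linear_combination hd
      rcases mul_eq_zero.1 hu with h | h
      · have hu2 : u = 2 := sub_eq_zero.1 h
        rw [hu2, div_self h2, map_one, sub_self, chi_zero]
        norm_num
        exact h4.symm
      · have hu2 : u = -2 := eq_neg_of_add_eq_zero_left h
        have e1 : (-2 : L) / 2 = -1 := by field_simp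
        have e2 : (-2 : L) - 2 = 2 ^ 2 * (-1) := by ring
        rw [hu2, e1, e2, chi_sq_mul h2, neg_add_cancel, chi_zero, zero_add]
    · have hne : (u + d) / 2 ≠ (u - d) / 2 := by
        intro e
        apply hd0
        have : (2 : L) * d = 0 := by
          field_simp at e
          linear_combination e
        exact (mul_eq_zero.1 this).resolve_left h2
      rw [sum_pair hne]
      have hm : ∀ s : L, s ^ 2 - u * s + 1 = 0 →
          quadraticChar L s = quadraticChar L (u + 2) ∧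
            quadraticChar L s = quadraticChar L (u - 2) := by
        intro s hs
        have hs0 : s ≠ 0 := by
          rintro rfl
          simp at hs
        have a1 : s * (u + 2) = (s + 1) ^ 2 := by linear_combination -hs
        have a2 : s * (u - 2) = (s - 1) ^ 2 := by linear_combination -hs
        have b : (u - 2) * (u + 2) ≠ 0 := by
          intro e
          apply hd0
          have : d * d = 0 := by linear_combination e - hd
          exact mul_self_eq_zero.1 this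
        have b1 : s + 1 ≠ 0 := by
          intro e
          rw [e] at a1
          apply b
          have : s * (u + 2) = 0 := by rw [a1]; ring
          rw [(mul_eq_zero.1 this).resolve_left hs0, mul_zero]
        have b2 : s - 1 ≠ 0 := by
          intro e
          rw [e] at a2
          apply b
          have : s * (u - 2) = 0 := by rw [a2]; ring
          rw [(mul_eq_zero.1 this).resolve_left hs0, zero_mul]
        constructor
        · rw [← chi_sq_mul (a := s) (b := u + 2) hs0,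
            show s ^ 2 * (u + 2) = (s + 1) ^ 2 * s by rw [← a1]; ring, chi_sq_mul b1]
        · rw [← chi_sq_mul (a := s) (b := u - 2) hs0,
            show s ^ 2 * (u - 2) = (s - 1) ^ 2 * s by rw [← a2]; ring, chi_sq_mul b2]
      have r1 := (hm ((u + d) / 2) (by field_simp; linear_combination -hd)).1
      have r2 := (hm ((u - d) / 2) (by field_simp; linear_combination -hd)).2
      rw [r1, r2]
  · have hset : univ.filter (fun s : L => s ≠ 0 ∧ s + s⁻¹ = u) = ∅ := by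
      rw [eq_empty_iff_forall_notMem]
      intro s hs
      rw [mem] at hs
      exact hsq ⟨2 * s - u, by linear_combination (-4) * hs⟩
    rw [hset, sum_empty]
    have e := quadraticChar_neg_one_iff_not_isSquare.2 hsq
    rw [show u ^ 2 - 4 = (u + 2) * (u - 2) by ring, map_mul] at e
    have h1 := quadraticChar_isQuadratic L (u + 2)
    have h3 := quadraticChar_isQuadratic L (u - 2)
    rcases h1 with h1 | h1 | h1 <;> rcases h3 with h3 | h3 | h3 <;> rw [h1, h3] at e ⊢ <;>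
      simp at e ⊢

private theorem sumS {θ : L} (hθ : θ ≠ 0) :
    ∑ u : L, quadraticChar L ((u + 2) * (u ^ 3 - 3 * u - (θ - 2))) =
      -tr L 9 (6 * θ) (θ ^ 2) - 1 := by
  have hk : ∑ s : L, quadraticChar L (-θ * s ^ 3 + 9 * s ^ 2 - 6 * s + 1) =
      -tr L 9 (6 * θ) (θ ^ 2) := by
    have hn : -θ ≠ 0 := neg_ne_zero.2 hθ
    unfold tr
    rw [neg_neg, ← sum_scale (fun X : L => quadraticChar L (X ^ 3 + 9 * X ^ 2 + 6 * θ * X
      + θ ^ 2)) hn]
    refine sum_congr rfl fun s _ => ?_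
    have e : (-θ * s) ^ 3 + 9 * (-θ * s) ^ 2 + 6 * θ * (-θ * s) + θ ^ 2 =
        (-θ) ^ 2 * (-θ * s ^ 3 + 9 * s ^ 2 - 6 * s + 1) := by ring
    rw [e, chi_sq_mul hn]
  have e1 : ∑ u : L, quadraticChar L ((u + 2) * (u ^ 3 - 3 * u - (θ - 2))) =
      ∑ s : L, quadraticChar L (s⁻¹ * (s⁻¹ ^ 3 - 6 * s⁻¹ ^ 2 + 9 * s⁻¹ - θ)) := by
    rw [sum_inv (fun w : L => quadraticChar L (w * (w ^ 3 - 6 * w ^ 2 + 9 * w - θ))),
      ← sum_shift (fun w : L => quadraticChar L (w * (w ^ 3 - 6 * w ^ 2 + 9 * w - θ))) 2]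
    refine sum_congr rfl fun u _ => ?_
    congr 1
    ring
  have e2 := sum_off
    (fun s : L => quadraticChar L (s⁻¹ * (s⁻¹ ^ 3 - 6 * s⁻¹ ^ 2 + 9 * s⁻¹ - θ)))
    (fun s : L => quadraticChar L (-θ * s ^ 3 + 9 * s ^ 2 - 6 * s + 1)) (by
      intro s hs
      have e : -θ * s ^ 3 + 9 * s ^ 2 - 6 * s + 1 =
          (s ^ 2) ^ 2 * (s⁻¹ * (s⁻¹ ^ 3 - 6 * s⁻¹ ^ 2 + 9 * s⁻¹ - θ)) := by
        field_simp
        ring
      rw [e, chi_sq_mul (pow_ne_zero 2 hs)])
  have e3 : quadraticChar L ((0 : L)⁻¹ * ((0 : L)⁻¹ ^ 3 - 6 * (0 : L)⁻¹ ^ 2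
      + 9 * (0 : L)⁻¹ - θ)) = 0 := by
    rw [inv_zero, zero_mul, chi_zero]
  have e4 : quadraticChar L (-θ * (0 : L) ^ 3 + 9 * 0 ^ 2 - 6 * 0 + 1) = 1 := by
    have : -θ * (0 : L) ^ 3 + 9 * 0 ^ 2 - 6 * 0 + 1 = 1 := by ring
    rw [this, map_one]
  simp only [e3, e4] at e2
  rw [e1]
  linarith

theorem tr23 {T : L} (h2 : (2 : L) ≠ 0) (hT1 : T ≠ 2) (hT2 : T ≠ -2) :
    tr L 9 (6 * (2 + T)) ((2 + T) ^ 2) + tr L 9 (6 * (2 - T)) ((2 - T) ^ 2) =
      -1 - ∑ s : L, quadraticChar L (s ^ 6 - T * s ^ 3 + 1) := by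
  have p1 : (2 + T : L) ≠ 0 := fun e => hT2 (by linear_combination e)
  have p2 : (2 - T : L) ≠ 0 := fun e => hT1 (by linear_combination -e)
  have s1 := sumS (L := L) p1
  have s2 := sumS (L := L) p2
  have e1 : ∑ u : L, quadraticChar L ((u + 2) * (u ^ 3 - 3 * u - (2 + T - 2))) =
      ∑ u : L, quadraticChar L (u + 2) * quadraticChar L (u ^ 3 - 3 * u - T) := by
    refine sum_congr rfl fun u _ => ?_
    rw [← map_mul]
    congr 1
    ring
  have e2 : ∑ u : L, quadraticChar L ((u + 2) * (u ^ 3 - 3 * u - (2 - T - 2))) =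
      ∑ u : L, quadraticChar L (u - 2) * quadraticChar L (u ^ 3 - 3 * u - T) := by
    rw [← sum_neg]
    refine sum_congr rfl fun u _ => ?_
    rw [← map_mul]
    congr 1
    ring
  have e3 : ∑ s ∈ univ.erase (0 : L), quadraticChar L (s ^ 6 - T * s ^ 3 + 1) =
      ∑ u : L, (quadraticChar L (u + 2) + quadraticChar L (u - 2)) *
        quadraticChar L (u ^ 3 - 3 * u - T) := by
    have a : ∀ s ∈ univ.erase (0 : L), quadraticChar L (s ^ 6 - T * s ^ 3 + 1) =
        quadraticChar L s * quadraticChar L ((s + s⁻¹) ^ 3 - 3 * (s + s⁻¹) - T) := by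
      intro s hs
      have hs0 := ne_of_mem_erase hs
      have e : s ^ 6 - T * s ^ 3 + 1 =
          s ^ 2 * (s * ((s + s⁻¹) ^ 3 - 3 * (s + s⁻¹) - T)) := by
        field_simp
        ring
      rw [e, chi_sq_mul hs0, map_mul]
    rw [sum_congr rfl a, ← sum_fiberwise (univ.erase (0 : L)) (fun s => s + s⁻¹)]
    refine sum_congr rfl fun u _ => ?_
    rw [← fib h2 u, sum_mul]
    have hset : (univ.erase (0 : L)).filter (fun s => s + s⁻¹ = u) =
        univ.filter (fun s : L => s ≠ 0 ∧ s + s⁻¹ = u) := by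
      ext s
      simp only [mem_filter, mem_erase, mem_univ, and_true, true_and]
    rw [hset]
    refine sum_congr rfl fun s hs => ?_
    rw [(mem_filter.1 hs).2.2]
  have e4 : quadraticChar L ((0 : L) ^ 6 - T * 0 ^ 3 + 1) = 1 := by
    have : (0 : L) ^ 6 - T * 0 ^ 3 + 1 = 1 := by ring
    rw [this, map_one]
  have e5 : ∑ s : L, quadraticChar L (s ^ 6 - T * s ^ 3 + 1) =
      1 + ∑ s ∈ univ.erase (0 : L), quadraticChar L (s ^ 6 - T * s ^ 3 + 1) := by
    rw [← add_sum_erase univ _ (mem_univ (0 : L)), e4]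
  rw [e5, e3]
  simp only [add_mul, sum_add_distrib]
  rw [← e1, ← e2, s1, s2]
  ring

theorem sumB {μ κ δ r T : L} (h2 : (2 : L) ≠ 0) (hδ : δ ≠ 0) (hr : r ≠ 0)
    (hT : T = r + r⁻¹) (hT1 : T ≠ 2) (hT2 : T ≠ -2) (hμ : μ = r * δ ^ 3) (hκ : κ ≠ 1)
    (hsq : IsSquare (1 - κ)) (hf : r * (μ - κ) = (1 - κ) * δ ^ 3) :
    ∑ x : L, ∑ z : L, quadraticChar L (ff μ κ x z * gg μ x z) =
      -((Fintype.card L : ℤ) - 1) *
        (tr L 9 (6 * (2 + T)) ((2 + T) ^ 2) + tr L 9 (6 * (2 - T)) ((2 - T) ^ 2)) := by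
  have ht := tr23 h2 hT1 hT2
  obtain ⟨c, hc⟩ := hsq
  have hc0 : c ≠ 0 := by
    rintro rfl
    apply hκ
    linear_combination -hc
  have e0 : ∀ x z : L, quadraticChar L (ff μ κ (δ * x) z * gg μ (δ * x) z) =
      quadraticChar L (x ^ 6 - T * (x ^ 3 * z ^ 3) + z ^ 6) := by
    intro x z
    have hm : μ - κ = (1 - κ) * δ ^ 3 * r⁻¹ := by
      field_simp
      linear_combination hf
    have e : ff μ κ (δ * x) z * gg μ (δ * x) z =
        (c * δ ^ 3) ^ 2 * (x ^ 6 - T * (x ^ 3 * z ^ 3) + z ^ 6) := by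
      have e1 : ff μ κ (δ * x) z = (1 - κ) * δ ^ 3 * (x ^ 3 - r⁻¹ * z ^ 3) := by
        unfold ff gg
        linear_combination (-z ^ 3) * hm
      have e2 : gg μ (δ * x) z = δ ^ 3 * (x ^ 3 - r * z ^ 3) := by
        unfold gg
        rw [hμ]
        ring
      rw [e1, e2, hc, hT]
      have hrr : r⁻¹ * r = 1 := inv_mul_cancel₀ hr
      linear_combination (c * c * (δ ^ 3) ^ 2 * z ^ 6) * hrr
    rw [e, chi_sq_mul (mul_ne_zero hc0 (pow_ne_zero 3 hδ))]
  rw [← sum_scale (fun x : L => ∑ z : L, quadraticChar L (ff μ κ x z * gg μ x z)) hδ]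
  simp only [e0]
  rw [sum_comm]
  have e2 : ∀ z : L, z ≠ 0 → ∑ x : L, quadraticChar L (x ^ 6 - T * (x ^ 3 * z ^ 3) + z ^ 6) =
      ∑ s : L, quadraticChar L (s ^ 6 - T * s ^ 3 + 1) := by
    intro z hz
    rw [← sum_scale (fun x : L => quadraticChar L (x ^ 6 - T * (x ^ 3 * z ^ 3) + z ^ 6)) hz]
    refine sum_congr rfl fun s _ => ?_
    have e : (z * s) ^ 6 - T * ((z * s) ^ 3 * z ^ 3) + z ^ 6 =
        (z ^ 3) ^ 2 * (s ^ 6 - T * s ^ 3 + 1) := by ring
    rw [e, chi_sq_mul (pow_ne_zero 3 hz)]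
  have e3 : ∑ x : L, quadraticChar L (x ^ 6 - T * (x ^ 3 * 0 ^ 3) + 0 ^ 6) =
      (Fintype.card L : ℤ) - 1 := by
    rw [← add_sum_erase univ _ (mem_univ (0 : L))]
    have a0 : quadraticChar L ((0 : L) ^ 6 - T * (0 ^ 3 * 0 ^ 3) + 0 ^ 6) = 0 := by
      have : (0 : L) ^ 6 - T * (0 ^ 3 * 0 ^ 3) + 0 ^ 6 = 0 := by ring
      rw [this, chi_zero]
    have a1 : ∀ x ∈ univ.erase (0 : L),
        quadraticChar L (x ^ 6 - T * (x ^ 3 * 0 ^ 3) + 0 ^ 6) = 1 := by
      intro x hx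
      have : x ^ 6 - T * (x ^ 3 * 0 ^ 3) + 0 ^ 6 = (x ^ 3) ^ 2 * 1 := by ring
      rw [this, chi_sq_mul (pow_ne_zero 3 (ne_of_mem_erase hx)), map_one]
    rw [a0, zero_add, sum_congr rfl a1, sum_const, card_erase_of_mem (mem_univ _), card_univ,
      nsmul_eq_mul, Nat.cast_sub Fintype.card_pos]
    push_cast
    ring
  rw [← add_sum_erase univ _ (mem_univ (0 : L)), e3,
    sum_congr rfl (fun z hz => e2 z (ne_of_mem_erase hz)), sum_const, card_erase_of_mem
    (mem_univ _), card_univ, nsmul_eq_mul, Nat.cast_sub Fintype.card_pos, ht]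
  push_cast
  ring

end SCT
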