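import Mathlib

/-!
# Zeros of the two Hasse polynomials

`A` an algebraically closed field of characteristic `p ≡ 1 mod 3` (so `p ≥ 7`), `m = (p-1)/2`,
`N = (p-1)/3` (even), `m/3 = (p-1)/6`.

`rootA`.  In `A[Y][X]` let `h₁ ∈ A[Y]` be the coefficient of `X^(p-1)` in `((X³ - Y)(X - 1))^m`;
evaluating at `Y = μ` gives the coefficient in the statement (`coeff_map`).
`h₁ = ∑_k C(m,k) (-Y)^(m-k) coeff_{2m-3k} ((X-1)^m)`; only `m/3 ≤ k ≤ 2m/3` contribute; `k = m/3`:
coefficient of `Y^(2m/3)` is `± C(m, m/3) ≠ 0`; `k = 2m/3`: coefficient of `Y^(m/3)` is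
`± C(m, 2m/3) ≠ 0` (`m < p`).  `h₁(1) ≠ 0`: `((X³-1)(X-1))^m = (X-1)^(2m) (X²+X+1)^m` and
`(X-1)^(p-1) = ∑_{i<p} X^i` in characteristic `p` (multiply by `X - 1`), so the coefficient of
`X^(p-1)` is the sum of all the coefficients of `(X²+X+1)^m` (degree `2m = p - 1`), `= 3^m ≠ 0`.
`h₁` splits; if all its roots were `0` it would be `c Y^d`, with only one nonzero coefficient, but
`m/3 ≠ 2m/3`.  So there is a root `μ ≠ 0`, and `μ ≠ 1` as `h₁(1) ≠ 0`.

`rootB`.  `h₂ ∈ A[Y]` the coefficient of `X^N` in `(X² - Y X + 1)^m`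
`= ∑_j C(m,j) (-Y)^j X^j (X²+1)^(m-j)`.  Coefficient of `Y^N`: `± C(m,N) ≠ 0` (`N ≤ m`, `N ≥ 1`), so
`h₂` is not constant and has a root `T`.  `h₂(0) = C(m, N/2) ≠ 0`; `h₂(2)`: `(X-1)^(p-1)` has all
coefficients `1` up to `X^(p-1)`; `h₂(-2)`: `(X+1)^(p-1)`, coefficients `±1` (or: `h₂(-T) = ± h₂(T)`
by `X → -X`).  So `T ≠ 0, 2, -2`.
-/

set_option autoImplicit false

namespace SCT

open Polynomial

variable {A : Type} [Field A] [IsAlgClosed A] {p : ℕ} [Fact p.Prime] [CharP A p]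

omit [IsAlgClosed A] in
private theorem choose_ne {n k : ℕ} (hn : n < p) (hk : k ≤ n) : ((n.choose k : ℕ) : A) ≠ 0 := by
  have hp : p.Prime := Fact.out
  rw [Ne, CharP.cast_eq_zero_iff A p]
  intro h
  have h1 : p ∣ n.choose k * k.factorial * (n - k).factorial :=
    dvd_mul_of_dvd_left (dvd_mul_of_dvd_left h _) _
  rw [Nat.choose_mul_factorial_mul_factorial hk] at h1
  have := (Nat.Prime.dvd_factorial hp).mp h1
  omega

omit [IsAlgClosed A] [Fact p.Prime] [CharP A p] in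
private theorem coeff_one_pow_sub (n k : ℕ) :
    ((X - 1 : A[X]) ^ n).coeff k = (-1) ^ (n - k) * ((n.choose k : ℕ) : A) := by
  have h2 : (X - 1 : A[X]) = X + C (-1) := by rw [C_neg, C_1, sub_eq_add_neg]
  rw [h2, coeff_X_add_C_pow]

private theorem p_eq (hp : p % 3 = 1) (hp2 : p ≠ 2) : ∃ s : ℕ, 0 < s ∧ p = 6 * s + 1 := by
  have hpp : p.Prime := Fact.out
  obtain ⟨m, hm⟩ := hpp.odd_of_ne_two hp2
  have := hpp.two_le
  exact ⟨p / 6, by omega, by omega⟩

omit [IsAlgClosed A] in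
private theorem coeffA (s : ℕ) (μ : A) :
    (((X ^ 3 - C μ) * (X - 1) : A[X]) ^ (3 * s)).coeff (6 * s) =
      μ ^ s * ∑ k ∈ Finset.range (2 * s + 1), (((3 * s).choose k : ℕ) : A) * (-1) ^ (3 * s - k) *
        ((X - 1 : A[X]) ^ (3 * s)).coeff (6 * s - 3 * k) * μ ^ (2 * s - k) := by
  have e : ((X ^ 3 - C μ) * (X - 1) : A[X]) ^ (3 * s) = ∑ k ∈ Finset.range (3 * s + 1),
      X ^ (3 * k) * (C ((((3 * s).choose k : ℕ) : A) * (-μ) ^ (3 * s - k)) *
        (X - 1 : A[X]) ^ (3 * s)) := by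
    rw [mul_pow, sub_eq_add_neg, add_pow, Finset.sum_mul]
    refine Finset.sum_congr rfl fun k _ => ?_
    rw [← C_neg, ← C_pow, C_mul, map_natCast, ← pow_mul]
    ring
  rw [e, finsetSum_coeff, Finset.mul_sum]
  have h1 : Finset.range (2 * s + 1) ⊆ Finset.range (3 * s + 1) := by
    intro k hk
    rw [Finset.mem_range] at hk ⊢
    omega
  rw [← Finset.sum_subset h1]
  · refine Finset.sum_congr rfl fun k hk => ?_
    rw [Finset.mem_range] at hk
    rw [coeff_X_pow_mul', if_pos (by omega), coeff_C_mul]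
    have e1 : 3 * s - k = s + (2 * s - k) := by omega
    have e2 : (-μ) ^ (3 * s - k) = (-1) ^ (3 * s - k) * (μ ^ s * μ ^ (2 * s - k)) := by
      rw [← pow_add, ← e1, ← mul_pow, neg_one_mul]
    rw [e2]
    ring
  · intro k _ hk
    rw [Finset.mem_range, not_lt] at hk
    rw [coeff_X_pow_mul', if_neg (by omega)]

omit [IsAlgClosed A] in
private theorem sub_one_pow : (X - 1 : A[X]) ^ (p - 1) = ∑ i ∈ Finset.range p, X ^ i := by
  have hpp : p.Prime := Fact.out
  have h1 : (X - 1 : A[X]) ≠ 0 := by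
    have := X_sub_C_ne_zero (1 : A)
    rwa [C_1] at this
  apply mul_right_cancel₀ h1
  rw [← pow_succ, Nat.sub_add_cancel hpp.one_lt.le, geom_sum_mul, sub_pow_char, one_pow]

omit [IsAlgClosed A] in
private theorem coeffA_one (hp3 : p ≠ 3) (s : ℕ) (hs : p = 6 * s + 1) :
    (((X ^ 3 - C 1) * (X - 1) : A[X]) ^ (3 * s)).coeff (6 * s) ≠ 0 := by
  have e : ((X ^ 3 - C 1) * (X - 1) : A[X]) ^ (3 * s) =
      (X ^ 2 + X + 1) ^ (3 * s) * ∑ i ∈ Finset.range p, X ^ i := by
    rw [← sub_one_pow (A := A) (p := p)]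
    have e1 : p - 1 = 2 * (3 * s) := by omega
    rw [e1, pow_mul (X - 1 : A[X]) 2 (3 * s), ← mul_pow, C_1]
    congr 1
    ring
  rw [e, coeff_mul, Finset.Nat.sum_antidiagonal_eq_sum_range_succ_mk]
  have h1 : ∀ k ∈ Finset.range (6 * s).succ, ((X ^ 2 + X + 1 : A[X]) ^ (3 * s)).coeff k *
      (∑ i ∈ Finset.range p, (X : A[X]) ^ i).coeff (6 * s - k) =
      ((X ^ 2 + X + 1 : A[X]) ^ (3 * s)).coeff k * 1 ^ k := by
    intro k hk
    rw [Finset.mem_range] at hk
    rw [finsetSum_coeff]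
    simp only [coeff_X_pow]
    rw [Finset.sum_ite_eq, if_pos (by rw [Finset.mem_range]; omega), one_pow]
  have hd : (X ^ 2 + X + 1 : A[X]).natDegree ≤ 2 := by compute_degree
  have hd2 := natDegree_pow_le_of_le (3 * s) hd
  rw [Finset.sum_congr rfl h1, ← eval_eq_sum_range' (by omega) (1 : A), eval_pow]
  have h3 : (3 : A) ≠ 0 := by
    intro h
    have h4 : ((3 : ℕ) : A) = 0 := by exact_mod_cast h
    rw [CharP.cast_eq_zero_iff A p] at h4
    exact hp3 ((Nat.prime_dvd_prime_iff_eq Fact.out Nat.prime_three).mp h4)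
  apply pow_ne_zero
  have e2 : (X ^ 2 + X + 1 : A[X]).eval 1 = 3 := by
    simp
    norm_num
  rw [e2]
  exact h3

theorem rootA (hp : p % 3 = 1) (hp2 : p ≠ 2) : ∃ μ : A, μ ≠ 0 ∧ μ ≠ 1 ∧
    (((X ^ 3 - C μ) * (X - 1) : A[X]) ^ ((p - 1) / 2)).coeff (p - 1) = 0 := by
  obtain ⟨s, hs0, hs⟩ := p_eq hp hp2
  have e1 : (p - 1) / 2 = 3 * s := by omega
  have e2 : p - 1 = 6 * s := by omega
  rw [e1, e2]
  set a : ℕ → A := fun k => (((3 * s).choose k : ℕ) : A) * (-1) ^ (3 * s - k) *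
        ((X - 1 : A[X]) ^ (3 * s)).coeff (6 * s - 3 * k) with ha
  set h : A[X] := ∑ k ∈ Finset.range (2 * s + 1), monomial (2 * s - k) (a k) with hh
  have hcoeff : ∀ k, k ≤ 2 * s → h.coeff (2 * s - k) = a k := by
    intro k hk
    rw [hh, finsetSum_coeff]
    simp only [coeff_monomial]
    rw [Finset.sum_eq_single k]
    · rw [if_pos rfl]
    · intro b hb hbk
      rw [Finset.mem_range] at hb
      rw [if_neg (by omega)]
    · intro hk'
      exact absurd (Finset.mem_range.mpr (by omega)) hk'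
  have hc0 : h.coeff 0 ≠ 0 := by
    have h1 := hcoeff (2 * s) le_rfl
    rw [Nat.sub_self] at h1
    rw [h1, ha]
    simp only
    have e3 : 6 * s - 3 * (2 * s) = 0 := by omega
    rw [e3, coeff_zero_eq_eval_zero, eval_pow]
    refine mul_ne_zero (mul_ne_zero (choose_ne (p := p) (by omega) (by omega)) ?_) ?_
    · exact pow_ne_zero _ (neg_ne_zero.mpr one_ne_zero)
    · apply pow_ne_zero
      simp
  have hcs : h.coeff s ≠ 0 := by
    have h1 := hcoeff s (by omega)
    have e3 : 2 * s - s = s := by omega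
    rw [e3] at h1
    rw [h1, ha]
    simp only
    have e4 : 6 * s - 3 * s = 3 * s := by omega
    have hm : ((X - 1 : A[X]) ^ (3 * s)).coeff (3 * s) = 1 := by
      rw [coeff_one_pow_sub, Nat.sub_self]
      simp
    rw [e4, hm]
    refine mul_ne_zero (mul_ne_zero (choose_ne (p := p) (by omega) (by omega)) ?_) one_ne_zero
    exact pow_ne_zero _ (neg_ne_zero.mpr one_ne_zero)
  have hdeg : h.degree ≠ 0 := by
    intro h0
    have h1 : h.natDegree = 0 := natDegree_eq_of_degree_eq_some h0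
    exact hcs (coeff_eq_zero_of_natDegree_lt (by omega))
  obtain ⟨μ, hμ⟩ := IsAlgClosed.exists_root h hdeg
  have hev : (((X ^ 3 - C μ) * (X - 1) : A[X]) ^ (3 * s)).coeff (6 * s) = 0 := by
    rw [coeffA]
    have h1 : h.eval μ = ∑ k ∈ Finset.range (2 * s + 1), a k * μ ^ (2 * s - k) := by
      rw [hh, eval_finsetSum]
      exact Finset.sum_congr rfl fun k _ => eval_monomial
    rw [IsRoot.def] at hμ
    rw [← h1, hμ, mul_zero]
  refine ⟨μ, ?_, ?_, hev⟩
  · rintro rfl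
    rw [IsRoot.def, ← coeff_zero_eq_eval_zero] at hμ
    exact hc0 hμ
  · rintro rfl
    exact coeffA_one (p := p) (by omega) s hs hev

omit [IsAlgClosed A] in
private theorem coeffB (m n : ℕ) (T : A) :
    ((X ^ 2 - C T * X + 1 : A[X]) ^ m).coeff n =
      ∑ j ∈ Finset.range (m + 1), ((m.choose j : ℕ) : A) * (-1) ^ j *
        (if j ≤ n then ((X ^ 2 + 1 : A[X]) ^ (m - j)).coeff (n - j) else 0) * T ^ j := by
  have e : (X ^ 2 - C T * X + 1 : A[X]) ^ m = ∑ j ∈ Finset.range (m + 1),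
      X ^ j * (C (((m.choose j : ℕ) : A) * (-T) ^ j) * (X ^ 2 + 1 : A[X]) ^ (m - j)) := by
    have e1 : (X ^ 2 - C T * X + 1 : A[X]) = C (-T) * X + (X ^ 2 + 1) := by
      rw [C_neg]
      ring
    rw [e1, add_pow]
    refine Finset.sum_congr rfl fun k _ => ?_
    rw [mul_pow, C_mul, map_natCast, C_pow]
    ring
  rw [e, finsetSum_coeff]
  refine Finset.sum_congr rfl fun j _ => ?_
  rw [coeff_X_pow_mul', coeff_C_mul]
  have e2 : (-T) ^ j = (-1) ^ j * T ^ j := by rw [← mul_pow, neg_one_mul]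
  split_ifs with h
  · rw [e2]
    ring
  · ring

theorem rootB (hp : p % 3 = 1) (hp2 : p ≠ 2) : ∃ T : A, T ≠ 0 ∧ T ≠ 2 ∧ T ≠ -2 ∧
    ((X ^ 2 - C T * X + 1 : A[X]) ^ ((p - 1) / 2)).coeff ((p - 1) / 3) = 0 := by
  obtain ⟨s, hs0, hs⟩ := p_eq hp hp2
  have e1 : (p - 1) / 2 = 3 * s := by omega
  have e2 : (p - 1) / 3 = 2 * s := by omega
  rw [e1, e2]
  set a : ℕ → A := fun j => (((3 * s).choose j : ℕ) : A) * (-1) ^ j *
        (if j ≤ 2 * s then ((X ^ 2 + 1 : A[X]) ^ (3 * s - j)).coeff (2 * s - j) else 0) with ha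
  set h : A[X] := ∑ j ∈ Finset.range (3 * s + 1), monomial j (a j) with hh
  have hcoeff : h.coeff (2 * s) = a (2 * s) := by
    rw [hh, finsetSum_coeff]
    simp only [coeff_monomial]
    rw [Finset.sum_ite_eq', if_pos (Finset.mem_range.mpr (by omega))]
  have hev : ∀ T : A, h.eval T = ((X ^ 2 - C T * X + 1 : A[X]) ^ (3 * s)).coeff (2 * s) := by
    intro T
    rw [coeffB, hh, eval_finsetSum]
    exact Finset.sum_congr rfl fun k _ => eval_monomial
  have hdeg : h.degree ≠ 0 := by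
    intro h0
    have h1 : h.natDegree = 0 := natDegree_eq_of_degree_eq_some h0
    have h2 : h.coeff (2 * s) = 0 := coeff_eq_zero_of_natDegree_lt (by omega)
    rw [hcoeff, ha] at h2
    simp only at h2
    rw [if_pos le_rfl, Nat.sub_self, coeff_zero_eq_eval_zero, eval_pow] at h2
    revert h2
    refine mul_ne_zero (mul_ne_zero (choose_ne (p := p) (by omega) (by omega)) ?_) ?_
    · exact pow_ne_zero _ (neg_ne_zero.mpr one_ne_zero)
    · apply pow_ne_zero
      simp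
  obtain ⟨T, hT⟩ := IsAlgClosed.exists_root h hdeg
  rw [IsRoot.def] at hT
  refine ⟨T, ?_, ?_, ?_, by rw [← hev]; exact hT⟩
  · rintro rfl
    rw [hev] at hT
    have e3 : (X ^ 2 - C 0 * X + 1 : A[X]) = expand A 2 (X + 1) := by
      rw [C_0, map_add, expand_X, map_one]
      ring
    rw [e3, ← map_pow, coeff_expand (by norm_num), if_pos (dvd_mul_right 2 s),
      Nat.mul_div_cancel_left _ (by norm_num), coeff_X_add_one_pow] at hT
    exact choose_ne (p := p) (by omega) (by omega) hT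
  · rintro rfl
    rw [hev] at hT
    have e3 : (X ^ 2 - C 2 * X + 1 : A[X]) = (X - 1) ^ 2 := by
      have : (C 2 : A[X]) = 2 := rfl
      rw [this]
      ring
    rw [e3, ← pow_mul, coeff_one_pow_sub] at hT
    revert hT
    refine mul_ne_zero (pow_ne_zero _ (neg_ne_zero.mpr one_ne_zero)) ?_
    exact choose_ne (p := p) (by omega) (by omega)
  · rintro rfl
    rw [hev] at hT
    have e3 : (X ^ 2 - C (-2) * X + 1 : A[X]) = (X + 1) ^ 2 := by
      have : (C (-2) : A[X]) = -2 := by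
        rw [C_neg]
        rfl
      rw [this]
      ring
    rw [e3, ← pow_mul, coeff_X_add_one_pow] at hT
    exact choose_ne (p := p) (by omega) (by omega) hT

end SCT
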