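import Mathlib
import Pool.Agent.SCT.Deu
import Pool.Agent.SCT.Red
import Pool.Agent.SCT.Hasse
import Pool.Agent.SCT.Root

/-!
# Existence of the parameters
-/

set_option autoImplicit false
set_option linter.unusedSectionVars false

namespace SCT

open Finset Polynomial Pool.Agent.Hhelper85

section
variable {F : Type} [Field F] [Fintype F] [DecidableEq F] {p : ℕ} [Fact p.Prime] [CharP F p]

theorem ne_of_char (hp : p % 3 = 1) (hp2 : p ≠ 2) : (2 : F) ≠ 0 ∧ (3 : F) ≠ 0 := by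
  have hpp : p.Prime := Fact.out
  constructor
  · intro h
    have h1 : ((2 : ℕ) : F) = 0 := by exact_mod_cast h
    rw [CharP.cast_eq_zero_iff F p] at h1
    exact hp2 ((Nat.prime_dvd_prime_iff_eq hpp Nat.prime_two).1 h1)
  · intro h
    have h1 : ((3 : ℕ) : F) = 0 := by exact_mod_cast h
    rw [CharP.cast_eq_zero_iff F p] at h1
    have := (Nat.prime_dvd_prime_iff_eq hpp Nat.prime_three).1 h1
    omega

theorem dsc1 {μ : F} (h2 : (2 : F) ≠ 0) (h3 : (3 : F) ≠ 0) (hμ0 : μ ≠ 0) (hμ1 : μ ≠ 1) :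
    dsc (-3) (3 * (1 - μ)) (-(1 - μ) ^ 2) ≠ 0 := by
  have e : dsc (-3) (3 * (1 - μ)) (-(1 - μ) ^ 2) = -(2 ^ 4 * 3 ^ 3) * (μ ^ 2 * (1 - μ) ^ 2) := by
    unfold dsc
    ring
  rw [e]
  have : (1 - μ) ≠ 0 := sub_ne_zero.2 (Ne.symm hμ1)
  exact mul_ne_zero (neg_ne_zero.2 (mul_ne_zero (pow_ne_zero _ h2) (pow_ne_zero _ h3)))
    (mul_ne_zero (pow_ne_zero _ hμ0) (pow_ne_zero _ this))

theorem dsc2 {θ : F} (h2 : (2 : F) ≠ 0) (h3 : (3 : F) ≠ 0) (hθ0 : θ ≠ 0) (hθ4 : 4 - θ ≠ 0) :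
    dsc 9 (6 * θ) (θ ^ 2) ≠ 0 := by
  have e : dsc 9 (6 * θ) (θ ^ 2) = 2 ^ 4 * 3 ^ 3 * (θ ^ 3 * (4 - θ)) := by
    unfold dsc
    ring
  rw [e]
  exact mul_ne_zero (mul_ne_zero (pow_ne_zero _ h2) (pow_ne_zero _ h3))
    (mul_ne_zero (pow_ne_zero _ hθ0) hθ4)

theorem dvd_tr1 (hp : p % 3 = 1) (hp2 : p ≠ 2) {μ : F} (hμ1 : μ ≠ 1)
    (h : (((X ^ 3 - C μ) * (X - 1) : F[X]) ^ ((p - 1) / 2)).coeff (p - 1) = 0) :
    (p : ℤ) ∣ tr F (-3) (3 * (1 - μ)) (-(1 - μ) ^ 2) := by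
  obtain ⟨h2, h3⟩ := ne_of_char (F := F) hp hp2
  rw [tr1 h2 hμ1]
  have h4 := hasse4 hp2 h
  have : -∑ t : F, quadraticChar F (-((t ^ 3 - μ) * (t - 1))) - quadraticChar F (-1) =
      -(∑ t : F, quadraticChar F (-((t ^ 3 - μ) * (t - 1))) + quadraticChar F (-1)) := by ring
  rw [this]
  exact (dvd_neg).2 h4

theorem tseq_two (A q : ℤ) : tseq A q 2 = A ^ 2 - 2 * q := by
  simp [tseq]
  ring

theorem dvd_tr23 (hp : p % 3 = 1) (hp2 : p ≠ 2) {T : F} (hT1 : T ≠ 2) (hT2 : T ≠ -2)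
    (h : ((X ^ 2 - C T * X + 1 : F[X]) ^ ((p - 1) / 2)).coeff ((p - 1) / 3) = 0) :
    (p : ℤ) ∣ tr F 9 (6 * (2 + T)) ((2 + T) ^ 2) ∧
      (p : ℤ) ∣ tr F 9 (6 * (2 - T)) ((2 - T) ^ 2) := by
  classical
  have hpp : p.Prime := Fact.out
  obtain ⟨h2, h3⟩ := ne_of_char (F := F) hp hp2
  have hθ : 2 + T ≠ 0 := fun h => hT2 (eq_neg_of_add_eq_zero_right h)
  have hθ' : 2 - T ≠ 0 := fun h => hT1 (sub_eq_zero.1 h).symm
  have hd2 : dsc 9 (6 * (2 + T)) ((2 + T) ^ 2) ≠ 0 :=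
    dsc2 h2 h3 hθ (by rw [show 4 - (2 + T) = 2 - T by ring]; exact hθ')
  have hd3 : dsc 9 (6 * (2 - T)) ((2 - T) ^ 2) ≠ 0 :=
    dsc2 h2 h3 hθ' (by rw [show 4 - (2 - T) = 2 + T by ring]; exact hθ)
  have hsum : (p : ℤ) ∣ tr F 9 (6 * (2 + T)) ((2 + T) ^ 2) + tr F 9 (6 * (2 - T)) ((2 - T) ^ 2) := by
    rw [tr23 h2 hT1 hT2]
    have h4 := hasse6 hp hp2 h
    have e : -1 - ∑ s : F, quadraticChar F (s ^ 6 - T * s ^ 3 + 1) =
      -(∑ s : F, quadraticChar F (s ^ 6 - T * s ^ 3 + 1) + 1) := by ring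
    rw [e]
    exact (dvd_neg).2 h4
  -- the quadratic extension
  let F' := FiniteField.Extension F p 2
  let _ : Fintype F' := Fintype.ofFinite F'
  let i : F →+* F' := algebraMap F F'
  have hchar' : CharP F' p := charP_of_injective_ringHom i.injective p
  obtain ⟨h2', h3'⟩ := ne_of_char (F := F') hp hp2
  have hcard : Fintype.card F' = Fintype.card F ^ 2 := by
    rw [← Nat.card_eq_fintype_card, ← Nat.card_eq_fintype_card]
    exact FiniteField.natCard_extension F p 2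
  have hT1' : i T ≠ 2 := by
    intro h0
    apply hT1
    apply i.injective
    rw [h0, map_ofNat]
  have hT2' : i T ≠ -2 := by
    intro h0
    apply hT2
    apply i.injective
    rw [h0, map_neg, map_ofNat]
  have h' : ((X ^ 2 - C (i T) * X + 1 : F'[X]) ^ ((p - 1) / 2)).coeff ((p - 1) / 3) = 0 := by
    have e : ((X ^ 2 - C (i T) * X + 1 : F'[X]) ^ ((p - 1) / 2)) =
        ((X ^ 2 - C T * X + 1 : F[X]) ^ ((p - 1) / 2)).map i := by
      simp
    rw [e, coeff_map, h, map_zero]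
  have hsum' : (p : ℤ) ∣ tr F' 9 (6 * (2 + i T)) ((2 + i T) ^ 2) +
      tr F' 9 (6 * (2 - i T)) ((2 - i T) ^ 2) := by
    rw [tr23 h2' hT1' hT2']
    have h4 := hasse6 hp hp2 h'
    have e : -1 - ∑ s : F', quadraticChar F' (s ^ 6 - i T * s ^ 3 + 1) =
      -(∑ s : F', quadraticChar F' (s ^ 6 - i T * s ^ 3 + 1) + 1) := by ring
    rw [e]
    exact (dvd_neg).2 h4
  have e2 := tr_ext h2 hd2 i two_ne_zero hcard
  have e3 := tr_ext h2 hd3 i two_ne_zero hcard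
  rw [tseq_two] at e2 e3
  have i9 : i 9 = 9 := map_ofNat i 9
  have i6 : i 6 = 6 := map_ofNat i 6
  have i2 : i 2 = 2 := map_ofNat i 2
  simp only [map_mul, map_add, map_sub, map_pow, i9, i6, i2] at e2 e3
  rw [e2, e3] at hsum'
  set A := tr F 9 (6 * (2 + T)) ((2 + T) ^ 2)
  set B := tr F 9 (6 * (2 - T)) ((2 - T) ^ 2)
  have hq : (p : ℤ) ∣ (Fintype.card F : ℤ) := by
    obtain ⟨n, hn, hc⟩ := FiniteField.card F p
    rw [hc]
    push_cast
    exact dvd_pow_self _ n.ne_zero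
  have hAB : (p : ℤ) ∣ A ^ 2 + B ^ 2 := by
    have h5 : A ^ 2 + B ^ 2 = (A ^ 2 - 2 * (Fintype.card F : ℤ) + (B ^ 2 - 2 * (Fintype.card F : ℤ)))
      + 4 * (Fintype.card F : ℤ) := by ring
    rw [h5]
    exact hsum'.add (hq.mul_left _)
  have hpi : Prime (p : ℤ) := Nat.prime_iff_prime_int.1 hpp
  have hA : (p : ℤ) ∣ A := by
    have h6 : (p : ℤ) ∣ 2 * A ^ 2 := by
      have h7 : 2 * A ^ 2 = (A ^ 2 + B ^ 2) + (A + B) * (A - B) := by ring
      rw [h7]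
      exact hAB.add (hsum.mul_right _)
    rcases hpi.dvd_or_dvd h6 with h8 | h8
    · exfalso
      have h9 : p ∣ 2 := by exact_mod_cast h8
      exact hp2 ((Nat.prime_dvd_prime_iff_eq hpp Nat.prime_two).1 h9)
    · exact hpi.dvd_of_dvd_pow h8
  exact ⟨hA, (Int.dvd_add_right hA).1 hsum⟩

end

/-- the conditions on the parameters -/
structure Good {A : Type} [Field A] (p : ℕ) (μ κ ω c δ r T s : A) : Prop where
  hω : ω ^ 2 + ω + 1 = 0
  hc : κ * c ^ 2 = 4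
  hμ0 : μ ≠ 0
  hμ1 : μ ≠ 1
  hκ1 : κ ≠ 1
  hμκ : μ ≠ κ
  hδ : δ ≠ 0
  hr : r ≠ 0
  hT : T * r = r ^ 2 + 1
  hT1 : T ≠ 2
  hT2 : T ≠ -2
  hμ : μ = r * δ ^ 3
  hs : 1 - κ = s ^ 2
  hf : r * (μ - κ) = (1 - κ) * δ ^ 3
  cA : (((X ^ 3 - C μ) * (X - 1) : A[X]) ^ ((p - 1) / 2)).coeff (p - 1) = 0
  cB : ((X ^ 2 - C T * X + 1 : A[X]) ^ ((p - 1) / 2)).coeff ((p - 1) / 3) = 0

theorem exists_good {A : Type} [Field A] [IsAlgClosed A] {p : ℕ} [Fact p.Prime] [CharP A p]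
    (hp : p % 3 = 1) (hp2 : p ≠ 2) : ∃ μ κ ω c δ r T s : A, Good p μ κ ω c δ r T s := by
  have h2 : (2 : A) ≠ 0 := by
    intro h
    have h1 : ((2 : ℕ) : A) = 0 := by exact_mod_cast h
    rw [CharP.cast_eq_zero_iff A p] at h1
    exact hp2 ((Nat.prime_dvd_prime_iff_eq Fact.out Nat.prime_two).1 h1)
  obtain ⟨μ, hμ0, hμ1, cA⟩ := rootA (A := A) hp hp2
  obtain ⟨T, hT0, hT1, hT2, cB⟩ := rootB (A := A) hp hp2
  -- a root `r` of `r² - T r + 1` with `r² ≠ μ`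
  obtain ⟨r, hr0, hTr, hrμ⟩ : ∃ r : A, r ≠ 0 ∧ T * r = r ^ 2 + 1 ∧ r ^ 2 ≠ μ := by
    obtain ⟨d, hd⟩ := IsAlgClosed.exists_pow_nat_eq (T ^ 2 - 4) (n := 2) (by norm_num)
    obtain ⟨r, hr⟩ : ∃ r : A, r = (T + d) / 2 := ⟨_, rfl⟩
    have hrr : 2 * r = T + d := by rw [hr]; field_simp
    have h4 : (4 : A) ≠ 0 := by
      have : (4 : A) = 2 * 2 := by norm_num
      rw [this]
      exact mul_ne_zero h2 h2
    have hTr : T * r = r ^ 2 + 1 := by
      have : 4 * (T * r) = 4 * (r ^ 2 + 1) := by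
        linear_combination (-2 * r - (T + d) + 2 * T) * hrr - hd
      exact mul_left_cancel₀ h4 this
    have hr0 : r ≠ 0 := by
      rintro h0
      rw [h0] at hTr
      simp at hTr
    by_cases hrμ : r ^ 2 = μ
    · refine ⟨r⁻¹, inv_ne_zero hr0, ?_, ?_⟩
      · field_simp
        linear_combination hTr
      · intro h5
        have h6 : μ * μ = 1 := by
          nth_rewrite 1 [← hrμ]
          rw [← h5, inv_pow, mul_inv_cancel₀ (pow_ne_zero _ hr0)]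
        have h7 : (μ - 1) * (μ + 1) = 0 := by linear_combination h6
        rcases mul_eq_zero.1 h7 with h8 | h8
        · exact hμ1 (sub_eq_zero.1 h8)
        · have h9 : T * r = 0 := by
            rw [hTr, hrμ]
            exact h8
          exact (mul_ne_zero hT0 hr0) h9
    · exact ⟨r, hr0, hTr, hrμ⟩
  obtain ⟨δ, hδ⟩ := IsAlgClosed.exists_pow_nat_eq (μ / r) (n := 3) (by norm_num)
  have hμ : μ = r * δ ^ 3 := by rw [hδ]; field_simp
  have hδ0 : δ ≠ 0 := by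
    rintro rfl
    rw [zero_pow (by norm_num), mul_zero] at hμ
    exact hμ0 hμ
  obtain ⟨μ', hμ'⟩ : ∃ μ', μ' = μ / r ^ 2 := ⟨_, rfl⟩
  have hμ'1 : μ' - 1 ≠ 0 := by
    rw [hμ', sub_ne_zero]
    intro h
    rw [div_eq_one_iff_eq (pow_ne_zero _ hr0)] at h
    exact hrμ h.symm
  have hμ'0 : μ' ≠ 0 := by rw [hμ']; exact div_ne_zero hμ0 (pow_ne_zero _ hr0)
  have hμμ' : μ' ≠ μ := by
    intro h
    rw [hμ', div_eq_iff (pow_ne_zero _ hr0)] at h
    have h3 : μ * (r ^ 2 - 1) = 0 := by linear_combination -h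
    have h4 := (mul_eq_zero.1 h3).resolve_left hμ0
    have h5 : (r - 1) * (r + 1) = 0 := by linear_combination h4
    rcases mul_eq_zero.1 h5 with h6 | h6
    · have h7 : r = 1 := sub_eq_zero.1 h6
      rw [h7] at hTr
      exact hT1 (by linear_combination hTr)
    · have h7 : r = -1 := eq_neg_of_add_eq_zero_left h6
      rw [h7] at hTr
      exact hT2 (by linear_combination -hTr)
  obtain ⟨κ, hκ⟩ : ∃ κ, κ = (μ' - μ) / (μ' - 1) := ⟨_, rfl⟩
  have hκe : κ * (μ' - 1) = μ' - μ := by rw [hκ, div_mul_cancel₀ _ hμ'1]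
  have hκ0 : κ ≠ 0 := by
    rw [hκ]
    exact div_ne_zero (sub_ne_zero.2 hμμ') hμ'1
  have h1κ : 1 - κ ≠ 0 := by
    intro h
    have : κ = 1 := (sub_eq_zero.1 h).symm
    rw [this] at hκe
    exact hμ1 (by linear_combination hκe)
  have hμκe : μ - κ = μ' * (1 - κ) := by linear_combination hκe
  obtain ⟨c, hc⟩ := IsAlgClosed.exists_pow_nat_eq (4 / κ) (n := 2) (by norm_num)
  obtain ⟨s, hs⟩ := IsAlgClosed.exists_pow_nat_eq (1 - κ) (n := 2) (by norm_num)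
  obtain ⟨e, he⟩ := IsAlgClosed.exists_pow_nat_eq (-3 : A) (n := 2) (by norm_num)
  refine ⟨μ, κ, (e - 1) / 2, c, δ, r, T, s, ?_⟩
  refine ⟨?_, ?_, hμ0, hμ1, ?_, ?_, hδ0, hr0, hTr, hT1, hT2, hμ, hs.symm, ?_, cA, cB⟩
  · field_simp
    linear_combination he
  · rw [hc]; field_simp
  · intro h; exact h1κ (by rw [h]; ring)
  · intro h
    have h3 : μ - κ = 0 := by rw [h]; ring
    rw [hμκe] at h3
    exact (mul_ne_zero hμ'0 h1κ) h3
  · have hrμ' : r * μ' = δ ^ 3 := by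
      rw [hμ', hδ]
      field_simp
    rw [hμκe]
    linear_combination (1 - κ) * hrμ'

/-- the parameters lie in a finite field -/
theorem exists_finite_good {p : ℕ} [Fact p.Prime] (hp : p % 3 = 1) (hp2 : p ≠ 2) :
    ∃ (K : Type) (_ : Field K) (_ : Fintype K) (_ : CharP K p) (μ κ ω c δ r T s : K),
      Good p μ κ ω c δ r T s := by
  classical
  obtain ⟨μ, κ, ω, c, δ, r, T, s, h⟩ := exists_good (A := AlgebraicClosure (ZMod p)) hp hp2
  let S : Set (AlgebraicClosure (ZMod p)) := {μ, κ, ω, c, δ, r, T, s}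
  have hSfin : S.Finite := by
    simp only [S]
    exact Set.toFinite _
  let K := IntermediateField.adjoin (ZMod p) S
  have hfd : FiniteDimensional (ZMod p) K := by
    have : Finite S := hSfin
    apply IntermediateField.finiteDimensional_adjoin
    intro x _
    exact (Algebra.IsAlgebraic.isAlgebraic (R := ZMod p) x).isIntegral
  have hfin : Finite K := Module.finite_of_finite (ZMod p)
  have hmem : ∀ x ∈ S, x ∈ K := fun x hx => IntermediateField.subset_adjoin (ZMod p) S hx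
  have hcK : CharP K p := charP_of_injective_algebraMap (algebraMap (ZMod p) K).injective p
  let i : K →+* AlgebraicClosure (ZMod p) := algebraMap K (AlgebraicClosure (ZMod p))
  have hi : Function.Injective i := i.injective
  refine ⟨K, inferInstance, Fintype.ofFinite K, hcK, ⟨μ, hmem _ (by simp [S])⟩,
    ⟨κ, hmem _ (by simp [S])⟩, ⟨ω, hmem _ (by simp [S])⟩, ⟨c, hmem _ (by simp [S])⟩,
    ⟨δ, hmem _ (by simp [S])⟩, ⟨r, hmem _ (by simp [S])⟩, ⟨T, hmem _ (by simp [S])⟩,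
    ⟨s, hmem _ (by simp [S])⟩, ?_⟩
  constructor
  · exact Subtype.ext h.hω
  · exact Subtype.ext h.hc
  · exact fun h0 => h.hμ0 (congrArg Subtype.val h0)
  · exact fun h0 => h.hμ1 (congrArg Subtype.val h0)
  · exact fun h0 => h.hκ1 (congrArg Subtype.val h0)
  · exact fun h0 => h.hμκ (congrArg Subtype.val h0)
  · exact fun h0 => h.hδ (congrArg Subtype.val h0)
  · exact fun h0 => h.hr (congrArg Subtype.val h0)
  · exact Subtype.ext h.hT
  · exact fun h0 => h.hT1 (congrArg Subtype.val h0)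
  · exact fun h0 => h.hT2 (congrArg Subtype.val h0)
  · exact Subtype.ext h.hμ
  · exact Subtype.ext h.hs
  · exact Subtype.ext h.hf
  · apply hi
    rw [map_zero, ← coeff_map]
    simp only [Polynomial.map_pow, Polynomial.map_mul, Polynomial.map_sub, Polynomial.map_X,
      Polynomial.map_C, Polynomial.map_one]
    exact h.cA
  · apply hi
    rw [map_zero, ← coeff_map]
    simp only [Polynomial.map_pow, Polynomial.map_mul, Polynomial.map_sub, Polynomial.map_add,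
      Polynomial.map_X, Polynomial.map_C, Polynomial.map_one]
    exact h.cB

end SCT
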