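import Mathlib
import Pool.Agent.SHC.Smooth

/-!
# The Fermat cubic threefold for `p ≡ 2 mod 3` (known; for the uniform statement)

`Q = p^(4m)`, `R = p^(2m)`.  By SHC.Semi (`3 ∣ p + 1`): `∑_x ψ(z x³) = R (1 - 3 [z ∈ L*³])` for `z ≠ 0`.
`N = (1/Q) ∑_z (∑_x ψ(z x³))^5 = Q⁴ + (R^5/Q) [ (Q-1)/3 (-2)^5 + 2 (Q-1)/3 ] = Q⁴ - 10 (Q-1) R³`.
-/

set_option autoImplicit false

namespace SCT

open Finset MvPolynomial

theorem card_fermat {p m : ℕ} [Fact p.Prime] {L : Type} [Field L] [Fintype L] [CharP L p]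
    (h3 : 3 ∣ p + 1) (hm : 1 ≤ m) (hL : Fintype.card L = p ^ (4 * m)) :
    (Nat.card {v : Fin 5 → L // ∑ i, v i ^ 3 = 0} : ℤ) =
      (Fintype.card L : ℤ) ^ 4 - 10 * ((Fintype.card L : ℤ) - 1) * ((p : ℤ) ^ (2 * m)) ^ 3 := by
  classical
  let _ : Algebra (ZMod p) L := ZMod.algebra L p
  obtain ⟨ψ, h⟩ := SHC.exists_adm L p
  obtain ⟨u, T, H⟩ := SHC.hyp_of (L := L) (p := p) (a := 1) (m := m) (e := 1) (n := 1) le_rfl hm
    (by rw [hL, ← pow_mul]; congr 1; ring) (by rw [one_pow]; exact one_dvd _)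
  have P := H.toPar
  have eR : (p ^ (2 * 1)) ^ m = p ^ (2 * m) := by rw [← pow_mul, mul_one]
  rw [eR] at P
  set R : ℕ := p ^ (2 * m) with hR
  have hu : p = u + 1 := by
    have := P.hu
    rwa [pow_one] at this
  obtain ⟨l, hl⟩ : 3 ∣ u + 2 := by
    have : p + 1 = u + 2 := by rw [hu]
    rwa [this] at h3
  set N : ℕ := l * (u * (T * (R + 1))) with hN
  have hN3 : 3 * N = Fintype.card Lˣ := by
    rw [← P.card_units, hl, hN]
    ring
  have hSS := fun z : Lˣ => P.SS_dvd_eq h (k := 3) (l := l) hl.symm hN3 z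
  have hcN : (univ.filter fun y : Lˣ => y ^ N = 1).card = N :=
    SHC.card_pow_one (by rw [mul_comm]; exact hN3)
  have hR1 : 1 ≤ R := by
    rw [P.hR]
    exact Nat.le_add_left 1 _
  have hQ : Fintype.card L = R * R := P.hcard
  have hU : (Fintype.card Lˣ : ℂ) = (R : ℂ) * R - 1 := by
    rw [Fintype.card_units, hQ, Nat.cast_sub (Nat.mul_pos hR1 hR1)]
    push_cast
    ring
  set S : ℕ := (univ.filter fun v : Fin 5 → L => ∑ i, v i ^ 3 = 0).card with hS
  have hS' : Nat.card {v : Fin 5 → L // ∑ i, v i ^ 3 = 0} = S := by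
    rw [Nat.card_eq_fintype_card, Fintype.card_subtype]
  have h1 : ∑ t : L, ∑ v : Fin 5 → L, ψ (t * ∑ i, v i ^ 3) = (R : ℂ) * R * S := by
    rw [sum_comm]
    have h2 : ∀ v : Fin 5 → L, ∑ t : L, ψ (t * ∑ i, v i ^ 3) =
        if ∑ i, v i ^ 3 = 0 then (R : ℂ) * R else 0 := by
      intro v
      rw [AddChar.sum_mulShift _ h.prim, hQ]
      push_cast
      rfl
    rw [sum_congr rfl fun v _ => h2 v, ← sum_filter, sum_const, nsmul_eq_mul, mul_comm]
  have h2 : ∀ t : L, ∑ v : Fin 5 → L, ψ (t * ∑ i, v i ^ 3) = SHC.SS ψ 3 t ^ 5 := by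
    intro t
    unfold SHC.SS
    rw [Fintype.sum_pow]
    refine sum_congr rfl fun v _ => ?_
    rw [Fin.sum_univ_five, Fin.prod_univ_five]
    simp only [mul_add, AddChar.map_add_eq_mul]
  have h0 : SHC.SS ψ 3 (0 : L) = (R : ℂ) * R := by
    unfold SHC.SS
    simp only [zero_mul, AddChar.map_zero_eq_one]
    rw [sum_const, card_univ, hQ, nsmul_eq_mul, mul_one]
    push_cast
    ring
  have h4 : ∑ t : Lˣ, SHC.SS ψ 3 (t : L) ^ 5 = (R : ℂ) ^ 5 * (-10 * ((R : ℂ) * R - 1)) := by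
    have e : ∀ t : Lˣ, SHC.SS ψ 3 (t : L) ^ 5 =
        (R : ℂ) ^ 5 * (1 - 33 * (if t ^ N = 1 then 1 else 0)) := by
      intro t
      rw [hSS t]
      by_cases ht : t ^ N = 1
      · rw [if_pos ht]
        push_cast
        ring
      · rw [if_neg ht]
        ring
    rw [sum_congr rfl fun t _ => e t, ← mul_sum, sum_sub_distrib, ← mul_sum, ← sum_filter,
      sum_const, sum_const, card_univ, nsmul_eq_mul, nsmul_eq_mul, hcN, mul_one, mul_one]
    have h5 : (3 : ℂ) * N = (R : ℂ) * R - 1 := by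
      rw [← hU, ← hN3]
      push_cast
      ring
    rw [hU]
    linear_combination (-11 * (R : ℂ) ^ 5) * h5
  simp only [h2] at h1
  rw [SHC.sum_units, h0, h4] at h1
  have h6 : ((R : ℤ) * R) * S = (R : ℤ) * R *
      (((R : ℤ) * R) ^ 4 - 10 * ((R : ℤ) * R - 1) * (R : ℤ) ^ 3) := by
    have h7 : ((((R : ℤ) * R) * S : ℤ) : ℂ) = (((R : ℤ) * R *
      (((R : ℤ) * R) ^ 4 - 10 * ((R : ℤ) * R - 1) * (R : ℤ) ^ 3) : ℤ) : ℂ) := by
      push_cast
      rw [← h1]
      ring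
    exact_mod_cast h7
  have hR2 : (R : ℤ) * R ≠ 0 := by positivity
  have h8 := mul_left_cancel₀ hR2 h6
  rw [hS', h8, hQ, hR]
  push_cast
  ring

/-- the Fermat cubic form -/
noncomputable def fer (K : Type) [Field K] : MvPolynomial (Fin 5) K := ∑ i, X i ^ 3

theorem fer_ne_zero (K : Type) [Field K] : fer K ≠ 0 := by
  intro h
  have h1 : eval (![1, 0, 0, 0, 0] : Fin 5 → K) (fer K) = 1 := by
    simp [fer, Fin.sum_univ_five]
  rw [h, map_zero] at h1
  exact zero_ne_one h1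

theorem homog_fer (K : Type) [Field K] : (fer K).IsHomogeneous 3 := by
  unfold fer
  refine IsHomogeneous.sum _ _ _ fun i _ => ?_
  have := (isHomogeneous_X K i).pow 3
  rwa [one_mul] at this

theorem smooth_fer {K A : Type} [Field K] [Field A] [Algebra K A] (h3 : (3 : K) ≠ 0)
    (v : Fin 5 → A) (h1 : ∀ j, aeval v (pderiv j (fer K)) = 0) : v = 0 := by
  have h3' : (3 : A) ≠ 0 := by
    rw [← map_ofNat (algebraMap K A) 3]
    exact (map_ne_zero _).2 h3
  funext j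
  have e := h1 j
  have e2 : aeval v (pderiv j (fer K)) = 3 * v j ^ 2 := by
    simp [fer, pderiv_X, Pi.single_apply, Finset.sum_ite_eq]
  rw [e2] at e
  exact (pow_eq_zero_iff two_ne_zero).1 ((mul_eq_zero.1 e).resolve_left h3')

end SCT
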