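import Mathlib
import Pool.Agent.SCT.Def
import Pool.Agent.SCT.CountA

/-!
# The number of zeros of the cubic form over a finite field

Notation: `Q = |L|`, `η` the quadratic character, `U = x - z`, `V = x - ω z`, `W = x - ω² z`
(so `U V W = x³ - z³`), `G = gg μ x z`, `f = ff μ κ x z = G - κ U V W`, `κ c² = 4`.

PROOF of `card_FF`.  Fix `x z e` (`e = v 4`).  Number `n(x,z,e)` of `(a, b)` with
`U a² + V b² + c e a b = m`, `m := -(f + W e²)`.  Put `Δ := c² e² / 4 - U V` (or `4 Δ = c²e² - 4UV`).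
* `Δ ≠ 0`: `n = Q - η(Δ) + (if m = 0 then Q η(Δ) else 0)`;
* `Δ = 0`, `U ≠ 0` (complete the square): `n = Q (1 + η(U m))`; `Δ = 0`, `U = 0`, `V ≠ 0` (then
  `e = 0`): `n = Q (1 + η(V m))`;
* `U = V = 0` and `Δ = 0`: then `x = z = 0` (as `ω ≠ 1`), `e = 0`, `m = 0`, `n = Q²`.
(For `Δ ≠ 0`: it is simplest to count for `U ≠ 0` by completing the square, `U m = Y² - Δ b²`,
`Y = U a + c e b / 2`; the number of `(Y, b)` with `Y² - Δ b² = k` is `∑_b (1 + η(k + Δ b²))`, and
`∑_b η(k + Δ b²) = -η(Δ)` for `k ≠ 0`, `(Q-1) η(Δ)` for `k = 0`.  For `U = 0`, `V ≠ 0`: the same with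
`a, b` exchanged.  For `U = V = 0`, `c e ≠ 0`: `c e a b = m` directly, `Δ` is a square.)
Sum over `x, z, e`.  `∑_e η(c²e²/4 - UV) = -1` if `UV ≠ 0`, `Q - 1` if `UV = 0`, so
`∑_{x,z,e} η(Δ) = -Q² + Q (2Q - 1) = Q² - Q`, which cancels with the excess `Q² - Q` of the term
`U = V = e = 0`.  Hence
`N = Q⁴ + Q [ ∑_{m = 0} η(Δ) + ∑_{Δ = 0, (U,V) ≠ 0} η(U m or V m) ]`.
* Second sum: `Δ = 0` means `e² = 4UV/c²`, there `m = -(f + κ U V W) = -G`.  For `U ≠ 0` the number
  of `e` is `1 + η(UV)`: `(1 + η(UV)) η(-UG) = η(-UG) + η(-VG)`.  For `U = 0`, `V ≠ 0`: `e = 0`,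
  `η(-VG)`.  Total: `∑_{x,z} (η(-UG) + η(-VG))`.
* First sum: `W ≠ 0`: `e² = -f/W`, `1 + η(-fW)` values, `Δ = -(c²/4) G / W`, `η(Δ) = η(-GW)`; total
  `η(-GW) + η(fG)` (`η(W²) = 1`).  `W = 0`: `f = G` there, and `f = 0` forces `x = z = 0`
  (`x = ω² z`, `G = (1 - μ) z³`, `μ ≠ 1`); the point `x = z = 0` gives `∑_e η(c²e²/4) = Q - 1`, and
  `∑_{W = 0} η(fG) = ∑_{W=0} η(G²) = Q - 1`.  So the first sum is `∑_{x,z} (η(-GW) + η(fG))`.
-/

set_option autoImplicit false

namespace SCT

open Finset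

variable {L : Type} [Field L] [Fintype L] [DecidableEq L]


omit [Fintype L] [DecidableEq L] in
lemma uvw {ω : L} (hω : ω ^ 2 + ω + 1 = 0) (x z : L) :
    (x - z) * (x - ω * z) * (x - ω ^ 2 * z) = x ^ 3 - z ^ 3 := by
  linear_combination (x - z) * (-(x * z) + (ω - 1) * z ^ 2) * hω

/-- the discriminants -/
lemma sum_E1 (h2 : (2 : L) ≠ 0) {c : L} (hc : c ≠ 0) (p : L) :
    (∑ e : L, quadraticChar L ((c * e) ^ 2 - 4 * p)) = (if p = 0 then (Fintype.card L : ℤ) else 0) - 1 := by
  have h4 : (4 : L) ≠ 0 := by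
    have : (4 : L) = 2 * 2 := by norm_num
    rw [this]
    exact mul_ne_zero h2 h2
  have h : ∀ e : L, (c * e) ^ 2 - 4 * p = -(4 * p) + c ^ 2 * e ^ 2 := by
    intro e
    ring
  simp_rw [h]
  rw [sum_quad h2 (pow_ne_zero 2 hc), quadraticChar_sq_one' hc, mul_one]
  congr 1
  refine if_congr ?_ rfl rfl
  rw [neg_eq_zero, mul_eq_zero]
  exact or_iff_right h4

/-- the sum over the square roots of `k` -/
lemma sum_root (h2 : (2 : L) ≠ 0) (k : L) (q : ℤ) (g : L → ℤ) (v : ℤ) (hg : ∀ e : L, e ^ 2 = k → g e = v) :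
    (∑ e : L, (if e ^ 2 = k then q else 0) * g e) = q * ((1 + quadraticChar L k) * v) := by
  have h : ∀ e : L, (if e ^ 2 = k then q else 0) * g e = q * ((if e ^ 2 = k then 1 else 0) * v) := by
    intro e
    split_ifs with he
    · rw [hg e he, one_mul]
    · ring
  simp_rw [h]
  rw [← Finset.mul_sum, ← Finset.sum_mul, sum_sq h2]

/-- the degenerate forms: `A B = p`, `A ≠ 0` -/
lemma sum_E3 (h2 : (2 : L) ≠ 0) {κ c A B W f G : L} (hκ : κ * c ^ 2 = 4) (hc : c ≠ 0)
    (hA : A ≠ 0) (hG : f + κ * (A * B * W) = G) :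
    (∑ e : L, (if (c * e) ^ 2 - 4 * (A * B) = 0 then (Fintype.card L : ℤ) else 0) * quadraticChar L (A * -(f + W * e ^ 2))) =
      (Fintype.card L : ℤ) * (quadraticChar L (-(G * A)) + quadraticChar L (-(G * B))) := by
  have h : ∀ e : L, (if (c * e) ^ 2 - 4 * (A * B) = 0 then (Fintype.card L : ℤ) else 0) =
      if e ^ 2 = κ * (A * B) then (Fintype.card L : ℤ) else 0 := by
    intro e
    refine if_congr ?_ rfl rfl
    constructor
    · intro h
      refine mul_left_cancel₀ (pow_ne_zero 2 hc) ?_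
      linear_combination h - (A * B) * hκ
    · intro h
      linear_combination c ^ 2 * h + (A * B) * hκ
  simp_rw [h]
  rw [sum_root h2 (κ * (A * B)) (Fintype.card L : ℤ) (fun e => quadraticChar L (A * -(f + W * e ^ 2))) (quadraticChar L (-(G * A)))]
  · congr 1
    have h1 : quadraticChar L (κ * (A * B)) = quadraticChar L (A * B) := by
      rw [← eta_sq hc (b := κ * (A * B))]
      have : c ^ 2 * (κ * (A * B)) = 2 ^ 2 * (A * B) := by linear_combination (A * B) * hκ
      rw [this, eta_sq h2]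
    rw [h1, add_mul, one_mul, ← map_mul]
    congr 1
    rw [← eta_sq hA (b := -(G * B))]
    congr 1
    ring
  · intro e he
    show quadraticChar L (A * -(f + W * e ^ 2)) = _
    congr 1
    rw [he, ← hG]
    ring

/-- the isotropic forms, `W ≠ 0` -/
lemma sum_E2 (h2 : (2 : L) ≠ 0) {κ c p W f G : L} (hκ : κ * c ^ 2 = 4) (hc : c ≠ 0)
    (hW : W ≠ 0) (hG : f + κ * (p * W) = G) :
    (∑ e : L, (if -(f + W * e ^ 2) = 0 then (Fintype.card L : ℤ) else 0) * quadraticChar L ((c * e) ^ 2 - 4 * p)) =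
      (Fintype.card L : ℤ) * (quadraticChar L (-(G * W)) + quadraticChar L (f * G)) := by
  have h : ∀ e : L, (if -(f + W * e ^ 2) = 0 then (Fintype.card L : ℤ) else 0) = if e ^ 2 = -f / W then (Fintype.card L : ℤ) else 0 := by
    intro e
    refine if_congr ?_ rfl rfl
    rw [eq_div_iff hW]
    constructor
    · intro h
      linear_combination -h
    · intro h
      linear_combination -h
  simp_rw [h]
  rw [sum_root h2 (-f / W) (Fintype.card L : ℤ) (fun e => quadraticChar L ((c * e) ^ 2 - 4 * p)) (quadraticChar L (-(G * W)))]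
  · congr 1
    have h1 : quadraticChar L (-f / W) = quadraticChar L (-(f * W)) := by
      rw [← eta_sq hW (b := -f / W)]
      congr 1
      field_simp
    rw [h1, add_mul, one_mul, ← map_mul]
    congr 1
    rw [← eta_sq hW (b := f * G)]
    congr 1
    ring
  · intro e he
    show quadraticChar L ((c * e) ^ 2 - 4 * p) = _
    rw [← eta_sq hW (b := (c * e) ^ 2 - 4 * p), ← eta_sq hc (b := -(G * W))]
    congr 1
    rw [eq_div_iff hW] at he
    rw [← hG]
    linear_combination W * c ^ 2 * he + p * W ^ 2 * hκ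

/-- the number of points over `(x, z)` -/
lemma sum_T {μ κ ω c : L} (h2 : (2 : L) ≠ 0) (h3 : (3 : L) ≠ 0) (hω : ω ^ 2 + ω + 1 = 0)
    (hμ : μ ≠ 1) (hκ : κ * c ^ 2 = 4) (x z : L) :
    (∑ e : L, nn (x - z) (x - ω * z) (c * e) (-(ff μ κ x z + (x - ω ^ 2 * z) * e ^ 2))) =
      (Fintype.card L : ℤ) ^ 2 + 1 + (Fintype.card L : ℤ) * (quadraticChar L (-(gg μ x z * (x - z))) + quadraticChar L (-(gg μ x z * (x - ω * z)))
        + quadraticChar L (-(gg μ x z * (x - ω ^ 2 * z))) + quadraticChar L (ff μ κ x z * gg μ x z))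
      + (if x = ω ^ 2 * z then (if z = 0 then (Fintype.card L : ℤ) * ((Fintype.card L : ℤ) - 1) else -(Fintype.card L : ℤ)) else 0)
      - ((if x = z then (Fintype.card L : ℤ) else 0) + (if x = ω * z then (Fintype.card L : ℤ) else 0) - (if x = z then (if z = 0 then (Fintype.card L : ℤ) else 0) else 0))
      + (if x = z then (if z = 0 then (Fintype.card L : ℤ) ^ 2 - (Fintype.card L : ℤ) else 0) else 0) := by
  have h4 : (4 : L) ≠ 0 := by
    have : (4 : L) = 2 * 2 := by norm_num
    rw [this]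
    exact mul_ne_zero h2 h2
  have hc : c ≠ 0 := by
    rintro rfl
    rw [zero_pow two_ne_zero, mul_zero] at hκ
    exact h4 hκ.symm
  have hω1 : ω ≠ 1 := by
    rintro rfl
    apply h3
    linear_combination hω
  have hω3 : ω ^ 3 = 1 := by linear_combination (ω - 1) * hω
  have hff : ff μ κ x z + κ * ((x - z) * (x - ω * z) * (x - ω ^ 2 * z)) = gg μ x z := by
    rw [uvw hω]
    unfold ff
    ring
  -- E1
  have hE1 : (if (x - z) * (x - ω * z) = 0 then (Fintype.card L : ℤ) else 0) = ((if x = z then (Fintype.card L : ℤ) else 0)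
      + (if x = ω * z then (Fintype.card L : ℤ) else 0) - (if x = z then (if z = 0 then (Fintype.card L : ℤ) else 0) else 0)) := by
    by_cases hz : z = 0
    · subst hz
      simp only [mul_zero, sub_zero, mul_self_eq_zero, if_true]
      split_ifs <;> ring
    · by_cases h1 : x = z
      · have hp : (x - z) * (x - ω * z) = 0 := by rw [h1, sub_self, zero_mul]
        have hq : x ≠ ω * z := by
          intro h
          apply hω1
          have : (ω - 1) * z = 0 := by linear_combination h1 - h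
          rcases mul_eq_zero.mp this with h | h
          · exact sub_eq_zero.mp h
          · exact absurd h hz
        rw [if_pos hp, if_neg hq, if_neg hz, if_pos h1, if_pos h1]
        ring
      · rw [if_neg h1, if_neg h1, zero_add, sub_zero]
        refine if_congr ?_ rfl rfl
        rw [mul_eq_zero, sub_eq_zero, sub_eq_zero]
        exact or_iff_right h1
  -- E2
  have hE2 : (∑ e : L, (if -(ff μ κ x z + (x - ω ^ 2 * z) * e ^ 2) = 0 then (Fintype.card L : ℤ) else 0) *
      quadraticChar L ((c * e) ^ 2 - 4 * ((x - z) * (x - ω * z)))) =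
      (Fintype.card L : ℤ) * (quadraticChar L (-(gg μ x z * (x - ω ^ 2 * z))) + quadraticChar L (ff μ κ x z * gg μ x z)) +
      (if x = ω ^ 2 * z then (if z = 0 then (Fintype.card L : ℤ) * ((Fintype.card L : ℤ) - 1) else -(Fintype.card L : ℤ)) else 0) := by
    by_cases hW : x = ω ^ 2 * z
    · have hW0 : x - ω ^ 2 * z = 0 := sub_eq_zero.mpr hW
      have hG : gg μ x z = (1 - μ) * z ^ 3 := by
        unfold gg
        rw [hW]
        linear_combination (ω ^ 3 + 1) * z ^ 3 * hω3
      have hf : ff μ κ x z = gg μ x z := by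
        rw [← hff, hW0]
        ring
      rw [if_pos hW, hW0, hf, mul_zero, neg_zero, eta_zero, zero_add]
      by_cases hz : z = 0
      · have hx : x = 0 := by rw [hW, hz, mul_zero]
        have hG0 : gg μ x z = 0 := by rw [hG, hz, zero_pow three_ne_zero, mul_zero]
        have h : ∀ e : L, (if -(gg μ x z + 0 * e ^ 2) = 0 then (Fintype.card L : ℤ) else 0) *
            quadraticChar L ((c * e) ^ 2 - 4 * ((x - z) * (x - ω * z))) = (Fintype.card L : ℤ) * quadraticChar L ((c * e) ^ 2 - 4 * 0) := by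
          intro e
          rw [if_pos, hx, hz]
          · congr 2
            ring
          · rw [hG0, zero_mul, add_zero, neg_zero]
        simp_rw [h]
        rw [← Finset.mul_sum, sum_E1 h2 hc, if_pos rfl, if_pos hz, hG0, mul_zero, eta_zero]
        ring
      · have hG0 : gg μ x z ≠ 0 := by
          rw [hG]
          exact mul_ne_zero (sub_ne_zero.mpr hμ.symm) (pow_ne_zero 3 hz)
        have h : ∀ e : L, (if -(gg μ x z + 0 * e ^ 2) = 0 then (Fintype.card L : ℤ) else 0) *
            quadraticChar L ((c * e) ^ 2 - 4 * ((x - z) * (x - ω * z))) = 0 := by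
          intro e
          rw [if_neg, zero_mul]
          rw [zero_mul, add_zero, neg_eq_zero]
          exact hG0
        simp_rw [h]
        rw [Finset.sum_const_zero, if_neg hz, ← sq, quadraticChar_sq_one' hG0]
        ring
    · rw [if_neg hW, add_zero]
      exact sum_E2 h2 hκ hc (sub_ne_zero.mpr hW) hff
  -- the forms which are not zero
  have hmain : ∀ S : ℤ, (∑ e : L, nn (x - z) (x - ω * z) (c * e)
      (-(ff μ κ x z + (x - ω ^ 2 * z) * e ^ 2))) = ∑ e : L, ((Fintype.card L : ℤ)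
        - quadraticChar L ((c * e) ^ 2 - 4 * ((x - z) * (x - ω * z)))
        + (if -(ff μ κ x z + (x - ω ^ 2 * z) * e ^ 2) = 0 then (Fintype.card L : ℤ) else 0) *
          quadraticChar L ((c * e) ^ 2 - 4 * ((x - z) * (x - ω * z)))) + S →
      (∑ e : L, nn (x - z) (x - ω * z) (c * e)
      (-(ff μ κ x z + (x - ω ^ 2 * z) * e ^ 2))) = (Fintype.card L : ℤ) ^ 2 + 1
      + (Fintype.card L : ℤ) * (quadraticChar L (-(gg μ x z * (x - ω ^ 2 * z))) + quadraticChar L (ff μ κ x z * gg μ x z))
      + (if x = ω ^ 2 * z then (if z = 0 then (Fintype.card L : ℤ) * ((Fintype.card L : ℤ) - 1) else -(Fintype.card L : ℤ)) else 0)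
      - ((if x = z then (Fintype.card L : ℤ) else 0) + (if x = ω * z then (Fintype.card L : ℤ) else 0) - (if x = z then (if z = 0 then (Fintype.card L : ℤ) else 0) else 0))
      + S := by
    intro S hS
    rw [hS, Finset.sum_add_distrib, Finset.sum_sub_distrib, hE2, sum_E1 h2 hc, hE1,
      Finset.sum_const, Finset.card_univ, nsmul_eq_mul]
    ring
  by_cases hU : x = z
  · by_cases hz : z = 0
    · -- `x = z = 0`
      have hx : x = 0 := by rw [hU, hz]
      have hG0 : gg μ x z = 0 := by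
        unfold gg
        rw [hx, hz]
        ring
      have hf0 : ff μ κ x z = 0 := by
        unfold ff gg
        rw [hx, hz]
        ring
      have hS := hmain ((Fintype.card L : ℤ) ^ 2 - (Fintype.card L : ℤ)) ?_
      · rw [hS]
        simp only [if_pos hU, if_pos hz, hG0, hf0, zero_mul, neg_zero, eta_zero]
        ring
      · have h : ∀ e : L, nn (x - z) (x - ω * z) (c * e) (-(ff μ κ x z + (x - ω ^ 2 * z) * e ^ 2)) =
            ((Fintype.card L : ℤ) - quadraticChar L ((c * e) ^ 2 - 4 * ((x - z) * (x - ω * z)))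
            + (if -(ff μ κ x z + (x - ω ^ 2 * z) * e ^ 2) = 0 then (Fintype.card L : ℤ) else 0) *
              quadraticChar L ((c * e) ^ 2 - 4 * ((x - z) * (x - ω * z)))) + if e = 0 then (Fintype.card L : ℤ) ^ 2 - (Fintype.card L : ℤ) else 0 := by
          intro e
          have e1 : x - z = 0 := by rw [hx, hz, sub_zero]
          have e2 : x - ω * z = 0 := by rw [hx, hz, mul_zero, sub_zero]
          have e3 : x - ω ^ 2 * z = 0 := by rw [hx, hz, mul_zero, sub_zero]
          rw [e1, e2, e3, hf0]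
          simp only [zero_mul, mul_zero, add_zero, neg_zero, sub_zero, if_true]
          by_cases he : e = 0
          · subst he
            rw [mul_zero, zero_pow two_ne_zero, eta_zero, nn_zero, if_pos rfl]
            ring
          · rw [nn_of_mid (mul_ne_zero hc he), quadraticChar_sq_one' (mul_ne_zero hc he), if_neg he,
              if_pos rfl]
            ring
        simp_rw [h]
        rw [Finset.sum_add_distrib, Finset.sum_ite_eq' Finset.univ (0 : L), if_pos (Finset.mem_univ _)]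
    · -- `U = 0`, `V ≠ 0`
      have hV : x - ω * z ≠ 0 := by
        intro h
        apply hω1
        have : (ω - 1) * z = 0 := by linear_combination hU - h
        rcases mul_eq_zero.mp this with h | h
        · exact sub_eq_zero.mp h
        · exact absurd h hz
      have hS := hmain _ (by
        simp_rw [nn_of_right h2 hV]
        rw [Finset.sum_add_distrib])
      rw [hS]
      have := sum_E3 (W := x - ω ^ 2 * z) (f := ff μ κ x z) (G := gg μ x z) (B := x - z) h2 hκ hc hV
        (by rw [← hff]; ring)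
      rw [mul_comm (x - ω * z) (x - z)] at this
      rw [this]
      simp only [if_pos hU, if_neg hz]
      ring
  · -- `U ≠ 0`
    have hS := hmain _ (by
      simp_rw [nn_of_left h2 (sub_ne_zero.mpr hU)]
      rw [Finset.sum_add_distrib])
    rw [hS, sum_E3 h2 hκ hc (sub_ne_zero.mpr hU) hff]
    simp only [if_neg hU]
    ring

/-- the coordinates `(x, z, e, a, b)` -/
def coords (L : Type) : (Fin 5 → L) ≃ L × L × L × L × L where
  toFun v := (v 0, v 1, v 4, v 2, v 3)
  invFun p := ![p.1, p.2.1, p.2.2.2.1, p.2.2.2.2, p.2.2.1]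
  left_inv v := by
    funext i
    fin_cases i <;> rfl
  right_inv p := rfl

lemma card_eq_sum (μ κ ω c : L) :
    (Nat.card {v : Fin 5 → L // FF μ κ ω c v = 0} : ℤ) = ∑ x : L, ∑ z : L, ∑ e : L,
      nn (x - z) (x - ω * z) (c * e) (-(ff μ κ x z + (x - ω ^ 2 * z) * e ^ 2)) := by
  have h1 : Nat.card {v : Fin 5 → L // FF μ κ ω c v = 0} =
      Nat.card {p : L × L × L × L × L // (p.1 - p.2.1) * p.2.2.2.1 ^ 2 +
        (p.1 - ω * p.2.1) * p.2.2.2.2 ^ 2 + (c * p.2.2.1) * (p.2.2.2.1 * p.2.2.2.2) =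
          -(ff μ κ p.1 p.2.1 + (p.1 - ω ^ 2 * p.2.1) * p.2.2.1 ^ 2)} := by
    refine Nat.card_congr ((coords L).subtypeEquiv fun v => ?_)
    show FF μ κ ω c v = 0 ↔ (v 0 - v 1) * v 2 ^ 2 + (v 0 - ω * v 1) * v 3 ^ 2 +
      (c * v 4) * (v 2 * v 3) = -(ff μ κ (v 0) (v 1) + (v 0 - ω ^ 2 * v 1) * v 4 ^ 2)
    unfold FF
    constructor
    · intro h
      linear_combination h
    · intro h
      linear_combination h
  rw [h1, Nat.card_eq_fintype_card, Fintype.card_subtype, Finset.natCast_card_filter,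
    Fintype.sum_prod_type]
  simp_rw [Fintype.sum_prod_type]
  rfl

theorem card_FF {μ κ ω c : L} (h2 : (2 : L) ≠ 0) (h3 : (3 : L) ≠ 0) (hω : ω ^ 2 + ω + 1 = 0)
    (hμ : μ ≠ 1) (hκ : κ * c ^ 2 = 4) :
    (Nat.card {v : Fin 5 → L // FF μ κ ω c v = 0} : ℤ) = (Fintype.card L : ℤ) ^ 4 +
      Fintype.card L * ∑ x : L, ∑ z : L, (quadraticChar L (-(gg μ x z * (x - z)))
        + quadraticChar L (-(gg μ x z * (x - ω * z)))
        + quadraticChar L (-(gg μ x z * (x - ω ^ 2 * z)))
        + quadraticChar L (ff μ κ x z * gg μ x z)) := by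
  rw [card_eq_sum]
  simp_rw [sum_T h2 h3 hω hμ hκ, Finset.sum_add_distrib, Finset.sum_sub_distrib,
    Finset.sum_add_distrib, ← Finset.mul_sum]
  have d1 : ∀ (k : L) (g : L → ℤ), (∑ x : L, ∑ z : L, if x = k * z then g z else 0) = ∑ z : L, g z := by
    intro k g
    rw [Finset.sum_comm]
    refine Finset.sum_congr rfl fun z _ => ?_
    rw [Finset.sum_ite_eq' Finset.univ (k * z), if_pos (Finset.mem_univ _)]
  have d2 : ∀ g : L → ℤ, (∑ x : L, ∑ z : L, if x = z then g z else 0) = ∑ z : L, g z := by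
    intro g
    have := d1 1 g
    simp_rw [one_mul] at this
    exact this
  have d3 : ∀ a b : ℤ, (∑ z : L, if z = 0 then a else b) = a + ((Fintype.card L : ℤ) - 1) * b := by
    intro a b
    have : ∀ z : L, (if z = 0 then a else b) = b + if z = 0 then a - b else 0 := by
      intro z
      split_ifs <;> ring
    simp_rw [this]
    rw [Finset.sum_add_distrib, Finset.sum_ite_eq' Finset.univ (0 : L), if_pos (Finset.mem_univ _),
      Finset.sum_const, Finset.card_univ, nsmul_eq_mul]
    ring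
  have d4 : ∀ a : ℤ, (∑ _z : L, a) = (Fintype.card L : ℤ) * a := by
    intro a
    rw [Finset.sum_const, Finset.card_univ, nsmul_eq_mul]
  rw [d1 (ω ^ 2) (fun z => if z = 0 then (Fintype.card L : ℤ) * ((Fintype.card L : ℤ) - 1) else -(Fintype.card L : ℤ)), d2 (fun _ => (Fintype.card L : ℤ)),
    d1 ω (fun _ => (Fintype.card L : ℤ)), d2 (fun z => if z = 0 then (Fintype.card L : ℤ) else 0), d2 (fun z => if z = 0 then (Fintype.card L : ℤ) ^ 2 - (Fintype.card L : ℤ) else 0)]
  simp only [d3, d4, Finset.sum_add_distrib]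
  ring

end SCT
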