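import Mathlib
import Pool.Agent.SCT.Def

/-!
# Smoothness of the cubic threefold

`U = x - z`, `V = x - ω z`, `W = x - ω² z`, `UVW = x³ - z³`, `G = x³ - μ z³`, `f = G - κ UVW`,
`x = v 0`, `z = v 1`, `a = v 2`, `b = v 3`, `e = v 4`.  The partials:
(a) `2 a U + c b e = 0`, (b) `2 b V + c a e = 0`, (e) `2 e W + c a b = 0`,
(x) `f_x + a² + b² + e² = 0`, (z) `f_z - a² - ω b² - ω² e² = 0`,
with `f_x = 3 (1-κ) x²`, `f_z = -3 (μ-κ) z²`.  (`F = 0` follows from Euler, `3 ≠ 0`, or is given.)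
Case 1, `a b e ≠ 0`.  From (b), (e): `4 V W b e = c² a² b e`, so `4 V W = c² a²`, i.e. `a² = κ V W`
(`κ c² = 4`); likewise `b² = κ U W`, `e² = κ U V`.  Then (x): `f_x + κ ∂_x(UVW) = G_x = 3x² = 0` and
(z): `G_z = -3 μ z² = 0`; so `x = z = 0`, `U = 0` and (a) gives `c b e = 0`, contradiction.
Case 2, one of `a, b, e` is zero: by (a), (b), (e) at least two are zero (`a = 0 → b e = 0`).  Say
the third is `t` with linear form `l ∈ {U, V, W}`: `t l = 0`.  If `t ≠ 0`: `l = 0`, so `x³ = z³`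
(`l ∣ UVW`), and `F = f = (1 - μ) z³ = 0` gives `z = 0`, `x = 0`; then (x) says `t² = 0`.  So `t = 0`,
all three are zero and (x), (z) give `3 (1-κ) x² = 0`, `3 (μ-κ) z² = 0`: `x = z = 0`.
-/

set_option autoImplicit false

namespace SCT

open MvPolynomial

/-- the pure algebra behind the smoothness -/
private theorem core {A : Type} [Field A] {μ κ ω c x z a b e : A}
    (h2 : (2 : A) ≠ 0) (h3 : (3 : A) ≠ 0) (hω : ω ^ 2 + ω + 1 = 0) (hκ : κ * c ^ 2 = 4)
    (hμ0 : μ ≠ 0) (hμ1 : μ ≠ 1) (hκ1 : κ ≠ 1) (hμκ : μ ≠ κ)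
    (hF : x ^ 3 - μ * z ^ 3 - κ * (x ^ 3 - z ^ 3) + a ^ 2 * (x - z) + b ^ 2 * (x - ω * z)
      + e ^ 2 * (x - ω ^ 2 * z) + c * (a * b * e) = 0)
    (hx : 3 * (1 - κ) * x ^ 2 + a ^ 2 + b ^ 2 + e ^ 2 = 0)
    (hz : -(3 * (μ - κ) * z ^ 2) - a ^ 2 - ω * b ^ 2 - ω ^ 2 * e ^ 2 = 0)
    (ha : 2 * a * (x - z) + c * (b * e) = 0)
    (hb : 2 * b * (x - ω * z) + c * (a * e) = 0)
    (he : 2 * e * (x - ω ^ 2 * z) + c * (a * b) = 0) :
    x = 0 ∧ z = 0 ∧ a = 0 ∧ b = 0 ∧ e = 0 := by
  have h4 : (4 : A) ≠ 0 := by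
    have : (4 : A) = 2 * 2 := by norm_num
    rw [this]; exact mul_ne_zero h2 h2
  have hc : c ≠ 0 := by
    rintro rfl
    apply h4
    rw [← hκ]; ring
  have hw3 : ω ^ 3 = 1 := by linear_combination (ω - 1) * hω
  have hk1 : (1 - κ) ≠ 0 := fun h => hκ1 (by linear_combination -h)
  have hmk : (μ - κ) ≠ 0 := fun h => hμκ (by linear_combination h)
  have hm1 : (1 - μ) ≠ 0 := fun h => hμ1 (by linear_combination -h)
  -- the end of case 2
  have fin : a = 0 → b = 0 → e = 0 → x = 0 ∧ z = 0 ∧ a = 0 ∧ b = 0 ∧ e = 0 := by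
    rintro rfl rfl rfl
    have h1 : 3 * (1 - κ) * x ^ 2 = 0 := by linear_combination hx
    have h5 : 3 * (μ - κ) * z ^ 2 = 0 := by linear_combination -hz
    have h6 : x = 0 := by
      rcases mul_eq_zero.1 h1 with h | h
      · exact absurd h (mul_ne_zero h3 hk1)
      · exact pow_eq_zero_iff (two_ne_zero) |>.1 h
    have h7 : z = 0 := by
      rcases mul_eq_zero.1 h5 with h | h
      · exact absurd h (mul_ne_zero h3 hmk)
      · exact pow_eq_zero_iff (two_ne_zero) |>.1 h
    exact ⟨h6, h7, rfl, rfl, rfl⟩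
  -- if x³ = z³ and the rest vanishes
  have key : x ^ 3 = z ^ 3 → x ^ 3 - μ * z ^ 3 - κ * (x ^ 3 - z ^ 3) = 0 → x = 0 ∧ z = 0 := by
    intro h h'
    have h1 : (1 - μ) * z ^ 3 = 0 := by linear_combination h' - (1 - κ) * h
    have h5 : z = 0 := by
      rcases mul_eq_zero.1 h1 with h | h
      · exact absurd h hm1
      · exact pow_eq_zero_iff (three_ne_zero) |>.1 h
    subst h5
    refine ⟨?_, rfl⟩
    have : x ^ 3 = 0 := by rw [h]; ring
    exact pow_eq_zero_iff (three_ne_zero) |>.1 this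
  have hbe : a = 0 → b = 0 ∨ e = 0 := by
    rintro rfl
    have : c * (b * e) = 0 := by linear_combination ha
    rcases mul_eq_zero.1 this with h | h
    · exact absurd h hc
    · exact mul_eq_zero.1 h
  have hae : b = 0 → a = 0 ∨ e = 0 := by
    rintro rfl
    have : c * (a * e) = 0 := by linear_combination hb
    rcases mul_eq_zero.1 this with h | h
    · exact absurd h hc
    · exact mul_eq_zero.1 h
  have hab : e = 0 → a = 0 ∨ b = 0 := by
    rintro rfl
    have : c * (a * b) = 0 := by linear_combination he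
    rcases mul_eq_zero.1 this with h | h
    · exact absurd h hc
    · exact mul_eq_zero.1 h
  -- two zero implies all zero
  have caseBE : b = 0 → e = 0 → x = 0 ∧ z = 0 ∧ a = 0 ∧ b = 0 ∧ e = 0 := by
    intro h5 h6
    by_cases h7 : a = 0
    · exact fin h7 h5 h6
    exfalso
    subst h5 h6
    have h8 : x - z = 0 := by
      have : (2 * a) * (x - z) = 0 := by linear_combination ha
      rcases mul_eq_zero.1 this with h | h
      · exact absurd h (mul_ne_zero h2 h7)
      · exact h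
    have h9 : x = z := by linear_combination h8
    obtain ⟨hx0, hz0⟩ := key (by rw [h9]) (by linear_combination hF - a ^ 2 * h8)
    apply h7
    have : a ^ 2 = 0 := by rw [hx0] at hx; linear_combination hx
    exact pow_eq_zero_iff (two_ne_zero) |>.1 this
  have caseAE : a = 0 → e = 0 → x = 0 ∧ z = 0 ∧ a = 0 ∧ b = 0 ∧ e = 0 := by
    intro h5 h6
    by_cases h7 : b = 0
    · exact fin h5 h7 h6
    exfalso
    subst h5 h6
    have h8 : x - ω * z = 0 := by
      have : (2 * b) * (x - ω * z) = 0 := by linear_combination hb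
      rcases mul_eq_zero.1 this with h | h
      · exact absurd h (mul_ne_zero h2 h7)
      · exact h
    have h9 : x = ω * z := by linear_combination h8
    obtain ⟨hx0, hz0⟩ := key (by rw [h9]; linear_combination z ^ 3 * hw3)
      (by linear_combination hF - b ^ 2 * h8)
    apply h7
    have : b ^ 2 = 0 := by rw [hx0] at hx; linear_combination hx
    exact pow_eq_zero_iff (two_ne_zero) |>.1 this
  have caseAB : a = 0 → b = 0 → x = 0 ∧ z = 0 ∧ a = 0 ∧ b = 0 ∧ e = 0 := by
    intro h5 h6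
    by_cases h7 : e = 0
    · exact fin h5 h6 h7
    exfalso
    subst h5 h6
    have h8 : x - ω ^ 2 * z = 0 := by
      have : (2 * e) * (x - ω ^ 2 * z) = 0 := by linear_combination he
      rcases mul_eq_zero.1 this with h | h
      · exact absurd h (mul_ne_zero h2 h7)
      · exact h
    have h9 : x = ω ^ 2 * z := by linear_combination h8
    obtain ⟨hx0, hz0⟩ := key (by rw [h9]; linear_combination z ^ 3 * (ω ^ 3 + 1) * hw3)
      (by linear_combination hF - e ^ 2 * h8)
    apply h7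
    have : e ^ 2 = 0 := by rw [hx0] at hx; linear_combination hx
    exact pow_eq_zero_iff (two_ne_zero) |>.1 this
  by_cases ha0 : a = 0
  · rcases hbe ha0 with h | h
    · exact caseAB ha0 h
    · exact caseAE ha0 h
  by_cases hb0 : b = 0
  · rcases hae hb0 with h | h
    · exact absurd h ha0
    · exact caseBE hb0 h
  by_cases he0 : e = 0
  · rcases hab he0 with h | h
    · exact absurd h ha0
    · exact absurd h hb0
  -- case 1
  exfalso
  have qa : a ^ 2 = κ * ((x - ω * z) * (x - ω ^ 2 * z)) := by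
    have h5 : (b * e) * (4 * ((x - ω * z) * (x - ω ^ 2 * z)) - c ^ 2 * a ^ 2) = 0 := by
      linear_combination (2 * e * (x - ω ^ 2 * z)) * hb - (c * (a * e)) * he
    have h6 : 4 * ((x - ω * z) * (x - ω ^ 2 * z)) - c ^ 2 * a ^ 2 = 0 :=
      (mul_eq_zero.1 h5).resolve_left (mul_ne_zero hb0 he0)
    apply mul_left_cancel₀ h4
    linear_combination -κ * h6 - a ^ 2 * hκ
  have qb : b ^ 2 = κ * ((x - z) * (x - ω ^ 2 * z)) := by
    have h5 : (a * e) * (4 * ((x - z) * (x - ω ^ 2 * z)) - c ^ 2 * b ^ 2) = 0 := by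
      linear_combination (2 * e * (x - ω ^ 2 * z)) * ha - (c * (b * e)) * he
    have h6 : 4 * ((x - z) * (x - ω ^ 2 * z)) - c ^ 2 * b ^ 2 = 0 :=
      (mul_eq_zero.1 h5).resolve_left (mul_ne_zero ha0 he0)
    apply mul_left_cancel₀ h4
    linear_combination -κ * h6 - b ^ 2 * hκ
  have qe : e ^ 2 = κ * ((x - z) * (x - ω * z)) := by
    have h5 : (a * b) * (4 * ((x - z) * (x - ω * z)) - c ^ 2 * e ^ 2) = 0 := by
      linear_combination (2 * b * (x - ω * z)) * ha - (c * (b * e)) * hb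
    have h6 : 4 * ((x - z) * (x - ω * z)) - c ^ 2 * e ^ 2 = 0 :=
      (mul_eq_zero.1 h5).resolve_left (mul_ne_zero ha0 hb0)
    apply mul_left_cancel₀ h4
    linear_combination -κ * h6 - e ^ 2 * hκ
  have hx2 : 3 * x ^ 2 = 0 := by
    rw [qa, qb, qe] at hx
    linear_combination hx + κ * (2 * x * z) * hω - κ * z ^ 2 * (hω + (ω - 1) * hω)
  have hx0 : x = 0 := by
    rcases mul_eq_zero.1 hx2 with h | h
    · exact absurd h h3
    · exact pow_eq_zero_iff (two_ne_zero) |>.1 h
  have hz2 : (3 * μ) * z ^ 2 = 0 := by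
    rw [qa, qb, qe, hx0] at hz
    linear_combination -hz - κ * z ^ 2 * (3 * (ω - 1)) * hω
  have hz0 : z = 0 := by
    rcases mul_eq_zero.1 hz2 with h | h
    · exact absurd h (mul_ne_zero h3 hμ0)
    · exact pow_eq_zero_iff (two_ne_zero) |>.1 h
  rw [hx0, hz0] at ha
  have : c * (b * e) = 0 := by linear_combination ha
  exact mul_ne_zero hc (mul_ne_zero hb0 he0) this

theorem smooth_PP {K A : Type} [Field K] [Field A] [Algebra K A] {μ κ ω c : K}
    (h2 : (2 : K) ≠ 0) (h3 : (3 : K) ≠ 0) (hω : ω ^ 2 + ω + 1 = 0) (hκ : κ * c ^ 2 = 4)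
    (hμ0 : μ ≠ 0) (hμ1 : μ ≠ 1) (hκ1 : κ ≠ 1) (hμκ : μ ≠ κ) (v : Fin 5 → A)
    (h0 : aeval v (PP μ κ ω c) = 0) (h1 : ∀ j, aeval v (pderiv j (PP μ κ ω c)) = 0) : v = 0 := by
  have inj : Function.Injective (algebraMap K A) := (algebraMap K A).injective
  have d0 := h1 0
  have d1 := h1 1
  have d2 := h1 2
  have d3 := h1 3
  have d4 := h1 4
  rw [aeval_PP] at h0
  simp only [FF, ff, gg] at h0
  simp only [PP, map_add, map_sub, Derivation.leibniz, Derivation.leibniz_pow, pderiv_X, pderiv_C,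
    smul_eq_mul, map_mul, map_pow, aeval_X, aeval_C, Pi.single_apply, map_zero,
    nsmul_eq_mul, map_natCast] at d0 d1 d2 d3 d4
  simp at d0 d1 d2 d3 d4
  have := core (A := A) (μ := algebraMap K A μ) (κ := algebraMap K A κ) (ω := algebraMap K A ω)
    (c := algebraMap K A c) (x := v 0) (z := v 1) (a := v 2) (b := v 3) (e := v 4)
    (by rw [← map_ofNat (algebraMap K A) 2, Ne, map_eq_zero]; exact h2)
    (by rw [← map_ofNat (algebraMap K A) 3, Ne, map_eq_zero]; exact h3)
    (by rw [← map_pow, ← map_add, ← map_one (algebraMap K A), ← map_add, hω, map_zero])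
    (by rw [← map_pow, ← map_mul, hκ, map_ofNat])
    (by rw [Ne, map_eq_zero]; exact hμ0)
    (by rw [← map_one (algebraMap K A)]; exact fun h => hμ1 (inj h))
    (by rw [← map_one (algebraMap K A)]; exact fun h => hκ1 (inj h))
    (fun h => hμκ (inj h))
    (by linear_combination h0)
    (by linear_combination d0)
    (by linear_combination d1)
    (by linear_combination d2)
    (by linear_combination d3)
    (by linear_combination d4)
  obtain ⟨r0, r1, r2, r3, r4⟩ := this
  funext i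
  fin_cases i
  · exact r0
  · exact r1
  · exact r2
  · exact r3
  · exact r4

theorem homog_PP {K : Type} [Field K] (μ κ ω c : K) : (PP μ κ ω c).IsHomogeneous 3 := by
  have hX : ∀ i : Fin 5, (X i : MvPolynomial (Fin 5) K).IsHomogeneous 1 := fun i =>
    isHomogeneous_X K i
  have hC : ∀ t : K, (C t : MvPolynomial (Fin 5) K).IsHomogeneous 0 := fun t =>
    isHomogeneous_C _ t
  have hX3 : ∀ i : Fin 5, (X i ^ 3 : MvPolynomial (Fin 5) K).IsHomogeneous 3 := fun i => by
    simpa using (hX i).pow 3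
  have hX2 : ∀ i : Fin 5, (X i ^ 2 : MvPolynomial (Fin 5) K).IsHomogeneous 2 := fun i => by
    simpa using (hX i).pow 2
  have hCX3 : ∀ (t : K) (i : Fin 5), (C t * X i ^ 3 : MvPolynomial (Fin 5) K).IsHomogeneous 3 :=
    fun t i => by simpa using (hC t).mul (hX3 i)
  unfold PP
  refine ((((((hX3 0).sub (hCX3 μ 1)).sub ?_).add ?_).add ?_).add ?_).add ?_
  · simpa using (hC κ).mul ((hX3 0).sub (hX3 1))
  · exact (hX2 2).mul ((hX 0).sub (hX 1))
  · refine (hX2 3).mul ((hX 0).sub ?_)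
    simpa using (hC ω).mul (hX 1)
  · refine (hX2 4).mul ((hX 0).sub ?_)
    simpa using ((hC ω).pow 2).mul (hX 1)
  · simpa using (hC c).mul (((hX 2).mul (hX 3)).mul (hX 4))

theorem PP_ne_zero {K : Type} [Field K] {μ κ ω c : K} : PP μ κ ω c ≠ 0 := by
  intro h
  have h1 := congrArg (aeval (![1, 0, 0, 0, 0] : Fin 5 → K)) h
  have h2 := congrArg (aeval (![1, 0, 1, 0, 0] : Fin 5 → K)) h
  rw [aeval_PP, map_zero] at h1 h2
  simp only [FF, ff, gg, Algebra.algebraMap_self, RingHom.id_apply] at h1 h2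
  simp at h1 h2
  have : (1 : K) = 0 := by linear_combination h2 - h1
  exact one_ne_zero this

end SCT
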