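import Mathlib
import Pool.Agent.SCT.Count
import Pool.Agent.SCT.Smooth
import Pool.Agent.SCT.Par
import Pool.Agent.SHC.LoopCount

/-!
# The number of points of the cubic threefold over the extensions
-/

set_option autoImplicit false

namespace SCT

open Finset MvPolynomial Pool.Agent.Hhelper85
open scoped LinearAlgebra.Projectivization

/-- The `L`-rational points of the hypersurface `F = 0` in `ℙ^n`, for a field `L` containing `K`. -/
def Points {K : Type} [Field K] {n : ℕ} (F : MvPolynomial (Fin (n + 1)) K) (L : Type) [Field L]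
    [Algebra K L] : Set (ℙ L (Fin (n + 1) → L)) :=
  {P | aeval P.rep F = 0}

/-- Supersingularity in terms of the numbers of points -/
def IsSupersingular {K : Type} [Field K] {n : ℕ} (F : MvPolynomial (Fin (n + 1)) K) : Prop :=
  ∃ s : ℕ, (∃ k : ℕ, 1 ≤ k ∧ s ^ 2 = Nat.card K ^ k) ∧ ∃ b : ℤ, ∀ m : ℕ, 1 ≤ m →
    ∀ (L : Type) [Field L] [Finite L] [Algebra K L], Nat.card L = (s ^ 2) ^ m →
      ((Points F L).ncard : ℤ) = ∑ i ∈ range n, (Nat.card L : ℤ) ^ i + b * ((s : ℤ) ^ m) ^ (n - 1)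

/-- from the number of zeros to the number of projective points -/
theorem points_of_count {L : Type} [Field L] [Fintype L] {q s : ℕ} (hq : Fintype.card L = q)
    (hs : s ^ 2 = q) {F : (Fin 5 → L) → L} {k : ℕ}
    (hF : ∀ (c : L) (x : Fin 5 → L), F (c • x) = c ^ (k + 1) * F x)
    (hN : (Nat.card {v : Fin 5 → L // F v = 0} : ℤ) = (q : ℤ) ^ 4 - 10 * (q - 1) * (s : ℤ) ^ 3) :
    (Nat.card {P : ℙ L (Fin 5 → L) // F P.rep = 0} : ℤ) =
      ∑ i ∈ range 4, (q : ℤ) ^ i + (-10) * (s : ℤ) ^ 3 := by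
  classical
  have h1 := SHC.proj_count_gen (n := 4) hF hq
  rw [Nat.card_eq_fintype_card, Fintype.card_subtype] at hN
  have h2 : (1 : ℤ) < q := by
    have := Fintype.one_lt_card (α := L)
    rw [hq] at this
    exact_mod_cast this
  have h3 : ((q : ℤ) - 1) * (Nat.card {P : ℙ L (Fin (4 + 1) → L) // F P.rep = 0} : ℤ) =
      ((q : ℤ) - 1) * (∑ i ∈ range 4, (q : ℤ) ^ i + (-10) * (s : ℤ) ^ 3) := by
    have h4 : ((q : ℤ) - 1) * (Nat.card {P : ℙ L (Fin (4 + 1) → L) // F P.rep = 0} : ℤ) =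
      (q : ℤ) ^ 4 - 10 * (q - 1) * (s : ℤ) ^ 3 - 1 := by
      rw [← hN]
      linear_combination -h1
    rw [h4]
    simp only [sum_range_succ, sum_range_zero]
    ring
  exact mul_left_cancel₀ (by omega) h3

theorem FF_smul {L : Type} [Field L] (μ κ ω c t : L) (v : Fin 5 → L) :
    FF μ κ ω c (t • v) = t ^ (2 + 1) * FF μ κ ω c v := by
  simp only [FF, ff, gg, Pi.smul_apply, smul_eq_mul]
  ring

theorem supersingular_PP {p : ℕ} [Fact p.Prime] (hp : p % 3 = 1) (hp2 : p ≠ 2) {K : Type}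
    [Field K] [Fintype K] [CharP K p] {μ κ ω c δ r T s : K} (h : Good p μ κ ω c δ r T s) :
    IsSupersingular (PP μ κ ω c) := by
  classical
  refine ⟨Fintype.card K ^ 12, ⟨24, by norm_num, ?_⟩, -10, ?_⟩
  · rw [Nat.card_eq_fintype_card, ← pow_mul]
  intro m hm L _ _ _ hL
  have : Fintype L := Fintype.ofFinite L
  set i := algebraMap K L with hi
  have hchar : CharP L p := charP_of_injective_algebraMap (algebraMap K L).injective p
  obtain ⟨h2, h3⟩ := ne_of_char (F := K) hp hp2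
  obtain ⟨h2', h3'⟩ := ne_of_char (F := L) hp hp2
  set q := Fintype.card K with hq
  have hLq : Fintype.card L = q ^ (24 * m) := by
    rw [← Nat.card_eq_fintype_card, hL, ← pow_mul, ← pow_mul]
    congr 1
    ring
  have hm0 : 24 * m ≠ 0 := by omega
  -- traces
  have hθ : 2 + T ≠ 0 := fun h0 => h.hT2 (eq_neg_of_add_eq_zero_right h0)
  have hθ' : 2 - T ≠ 0 := fun h0 => h.hT1 (sub_eq_zero.1 h0).symm
  have hd1 := dsc1 h2 h3 h.hμ0 h.hμ1
  have hd2 : dsc 9 (6 * (2 + T)) ((2 + T) ^ 2) ≠ 0 :=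
    dsc2 h2 h3 hθ (by rw [show 4 - (2 + T) = 2 - T by ring]; exact hθ')
  have hd3 : dsc 9 (6 * (2 - T)) ((2 - T) ^ 2) ≠ 0 :=
    dsc2 h2 h3 hθ' (by rw [show 4 - (2 - T) = 2 + T by ring]; exact hθ)
  have d1 := dvd_tr1 hp hp2 h.hμ1 h.cA
  obtain ⟨d2, d3⟩ := dvd_tr23 hp hp2 h.hT1 h.hT2 h.cB
  have t1 := tr_ext h2 hd1 i hm0 hLq
  have t2 := tr_ext h2 hd2 i hm0 hLq
  have t3 := tr_ext h2 hd3 i hm0 hLq
  rw [deuring p h2 hd1 d1 m] at t1
  rw [deuring p h2 hd2 d2 m] at t2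
  rw [deuring p h2 hd3 d3 m] at t3
  have i9 : i 9 = 9 := map_ofNat i 9
  have i6 : i 6 = 6 := map_ofNat i 6
  have i2 : i 2 = 2 := map_ofNat i 2
  have i3 : i 3 = 3 := map_ofNat i 3
  simp only [map_mul, map_add, map_sub, map_pow, map_neg, map_one, i9, i6, i2, i3] at t1 t2 t3
  -- the count
  have hω' : (i ω) ^ 2 + i ω + 1 = 0 := by
    rw [← map_pow, ← map_add, ← map_one i, ← map_add, h.hω, map_zero]
  have hκ' : i κ * (i c) ^ 2 = 4 := by
    rw [← map_pow, ← map_mul, h.hc]; exact map_ofNat i 4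
  have hμ1' : i μ ≠ 1 := by
    intro h0; exact h.hμ1 (i.injective (by rw [h0, map_one]))
  have hκ1' : i κ ≠ 1 := by
    intro h0; exact h.hκ1 (i.injective (by rw [h0, map_one]))
  have hr' : i r ≠ 0 := (_root_.map_ne_zero i).2 h.hr
  have hδ' : i δ ≠ 0 := (_root_.map_ne_zero i).2 h.hδ
  have hT' : i T = i r + (i r)⁻¹ := by
    have := congrArg i h.hT
    simp only [map_mul, map_add, map_pow, map_one] at this
    field_simp
    linear_combination this
  have hT1' : i T ≠ 2 := by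
    intro h0; exact h.hT1 (i.injective (by rw [h0, i2]))
  have hT2' : i T ≠ -2 := by
    intro h0; exact h.hT2 (i.injective (by rw [h0, map_neg, i2]))
  have hμ' : i μ = i r * (i δ) ^ 3 := by rw [h.hμ, map_mul, map_pow]
  have hsq' : IsSquare (1 - i κ) := by
    refine ⟨i s, ?_⟩
    rw [← map_one i, ← map_sub, h.hs, map_pow, sq]
  have hf' : i r * (i μ - i κ) = (1 - i κ) * (i δ) ^ 3 := by
    have := congrArg i h.hf
    simpa only [map_mul, map_sub, map_pow, map_one] using this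
  have hcount := card_FF h2' h3' hω' hμ1' hκ'
  have sA0 := sumA h2' hω' hμ1' 0
  have sA1 := sumA h2' hω' hμ1' 1
  have sA2 := sumA h2' hω' hμ1' 2
  have sB := sumB h2' hδ' hr' hT' hT1' hT2' hμ' hκ1' hsq' hf'
  simp only [pow_zero, one_mul, pow_one] at sA0 sA1
  simp only [sum_add_distrib] at hcount
  rw [sA0, sA1, sA2, sB, t1, t2, t3] at hcount
  have hcastL : (Fintype.card L : ℤ) = ((q : ℤ) ^ 12) ^ m * ((q : ℤ) ^ 12) ^ m := by
    rw [hLq]
    push_cast
    ring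
  have hN : (Nat.card {v : Fin 5 → L // FF (i μ) (i κ) (i ω) (i c) v = 0} : ℤ) =
      ((Fintype.card L : ℕ) : ℤ) ^ 4 - 10 * ((Fintype.card L : ℕ) - 1) *
        (((q ^ 12) ^ m : ℕ) : ℤ) ^ 3 := by
    rw [hcount]
    push_cast
    have : (Fintype.card L : ℤ) * (2 * ((q : ℤ) ^ 12) ^ m) = 2 * (((q : ℤ) ^ 12) ^ m) ^ 3 := by
      rw [hcastL]; ring
    linear_combination (-5 * ((Fintype.card L : ℤ) - 1)) * this
  have hfin := points_of_count rfl (s := (q ^ 12) ^ m) (by rw [hLq]; ring) (k := 2)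
    (fun t v => FF_smul (i μ) (i κ) (i ω) (i c) t v) hN
  have hset : (Points (PP μ κ ω c) L).ncard =
      Nat.card {P : ℙ L (Fin 5 → L) // FF (i μ) (i κ) (i ω) (i c) P.rep = 0} := by
    rw [← Nat.card_coe_set_eq]
    refine Nat.card_congr (Equiv.subtypeEquivRight fun P => ?_)
    change aeval P.rep _ = 0 ↔ _
    rw [aeval_PP]
  rw [hset, hfin, Nat.card_eq_fintype_card]
  push_cast
  ring

end SCT
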